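import Pool.Agent.P.MP_7aad9f_nt.LFL.Param

set_option autoImplicit false

namespace LFL
open Finset

theorem base_real : Base ℝ 2 := by
  refine ⟨Nat.prime_two, by norm_num, ?_, ?_, ?_, ?_⟩
  · intro a; rw [Real.norm_eq_abs]
  · intro a ha
    rw [Real.norm_eq_abs]
    have h1 : (1 : ℝ) ≤ |(a : ℝ)| := by
      have : (1 : ℤ) ≤ |a| := Int.one_le_abs ha
      exact_mod_cast this
    nlinarith
  · rw [Real.norm_eq_abs]; norm_num
  · intro u hu
    have : (u - 1) * (u + 1) = 0 := by ring_nf; linarith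
    rcases mul_eq_zero.mp this with h | h
    · left; linarith
    · right; linarith

theorem arch_series (y ρ : ℝ) :
    HasSum (fun j : ℕ => ‖y ^ j / (j.factorial : ℝ)‖ * ρ ^ j) (Real.exp (|y| * ρ)) := by
  have h := NormedSpace.expSeries_div_hasSum_exp (|y| * ρ)
  rw [← Real.exp_eq_exp_ℝ] at h
  have e : (fun j : ℕ => ‖y ^ j / (j.factorial : ℝ)‖ * ρ ^ j) =
      fun j : ℕ => (|y| * ρ) ^ j / (j.factorial : ℝ) := by
    funext j
    rw [Real.norm_eq_abs, abs_div, abs_pow, mul_pow, Nat.abs_cast]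
    ring
  rw [e]
  exact h

theorem iface_real (n L : ℕ) (g : ℝ) (hg : 0 ≤ g) :
    Iface ℝ 2 n L g (n * L * Real.exp (-g)) := by
  intro k S hS
  have hS' : (1 : ℝ) ≤ S := by exact_mod_cast hS
  have he : 1 ≤ Real.exp g := Real.one_le_exp hg
  have hepos : 0 < Real.exp g := Real.exp_pos g
  refine ⟨S, S * (1 + 2 * Real.exp g), 2 * S, by positivity, by nlinarith, by nlinarith,
    by linarith, le_rfl, ?_, ?_, ?_, ?_⟩
  · have : (S : ℝ) * (1 + 2 * Real.exp g) - S = 2 * S * Real.exp g := by ring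
    rw [this, Real.exp_neg]
    apply le_of_eq
    field_simp
  · intro x hx
    rw [Real.norm_eq_abs, Nat.abs_cast]
    exact_mod_cast hx
  · intro s hs
    have hs' : (s : ℝ) ≤ 4 * S := by
      have : s ≤ 4 * S := by omega
      exact_mod_cast this
    have hs0 : (0 : ℝ) ≤ s := Nat.cast_nonneg s
    refine ⟨?_, ?_⟩
    · rw [Real.norm_eq_abs, abs_le]
      push_cast
      constructor <;> nlinarith
    · intro x hx
      have hx' : (x : ℝ) ≤ S := by exact_mod_cast hx
      have hx0 : (0 : ℝ) ≤ x := Nat.cast_nonneg x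
      rw [Real.norm_eq_abs, abs_le]
      push_cast
      constructor <;> linarith
  · intro y hy
    have hρ : (0 : ℝ) ≤ S * (1 + 2 * Real.exp g) := by positivity
    have h := arch_series y (S * (1 + 2 * Real.exp g))
    refine ⟨h.summable, ?_⟩
    rw [h.tsum_eq]
    apply Real.exp_le_exp.mpr
    rw [Real.norm_eq_abs, Real.norm_eq_abs] at hy
    have h2 : |((2 : ℕ) : ℝ)| = 2 := by norm_num
    rw [h2] at hy
    have hk : (0 : ℝ) < 2 ^ k := by positivity
    have hy' : |y| ≤ n * L * Real.exp (-g) / 2 ^ k := by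
      rw [le_div_iff₀ hk]; exact hy
    have hρ2 : (S : ℝ) * (1 + 2 * Real.exp g) ≤ 3 * Real.exp g * S := by nlinarith
    have hA : (0 : ℝ) ≤ n * L * Real.exp (-g) / 2 ^ k := by positivity
    have : |y| * (S * (1 + 2 * Real.exp g)) ≤
        (n * L * Real.exp (-g) / 2 ^ k) * (3 * Real.exp g * S) :=
      mul_le_mul hy' hρ2 hρ hA
    have h3 : (n * L * Real.exp (-g) / 2 ^ k) * (3 * Real.exp g * S) =
        3 * S * (n * L / 2 ^ k) := by
      rw [Real.exp_neg]; field_simp
    push_cast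
    linarith

theorem exp_lin_log {ι : Type} [Fintype ι] (α : ι → ℕ) (hα : ∀ i, 0 < α i) (lam : ι → ℤ) :
    Real.exp (lin (fun i => Real.log (α i)) lam) = ((apow α lam : ℚ) : ℝ) := by
  unfold lin apow
  rw [Real.exp_sum]
  push_cast
  refine Finset.prod_congr rfl fun i _ => ?_
  have hp : (0 : ℝ) < α i := by exact_mod_cast hα i
  rw [← Real.log_zpow, Real.exp_log (zpow_pos hp _)]

theorem init_real {ι : Type} [Fintype ι] [DecidableEq ι] [Nonempty ι] (α : ι → ℕ)
    (hα : ∀ i, (α i).Prime) (L : ℕ) (hL : 1 ≤ L) (g : ℝ) (hg : 0 ≤ g) :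
    ∃ Ls : Finset (ι → ℤ),
      Init α (fun i => Real.log (α i)) L (Fintype.card ι * L * Real.exp (-g)) Ls ∧
      (L : ℝ) ^ Fintype.card ι ≤ Ls.card * ((∏ i, Real.log (α i)) * (2 * Real.exp g)) := by
  classical
  set a0 : ℝ := Fintype.card ι * L * Real.exp (-g) with ha0
  have hn : (0 : ℝ) < Fintype.card ι := by exact_mod_cast Fintype.card_pos
  have hL' : (0 : ℝ) < L := by exact_mod_cast hL
  have ha0pos : 0 < a0 := by positivity
  have he : 1 ≤ Real.exp g := Real.one_le_exp hg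
  have hA : ∀ i, 0 < Real.log (α i) := fun i => lt_trans (by norm_num) (half_lt_log (hα i))
  obtain ⟨Ls, v, h0, hcard, hLs⟩ := exists_fibre (fun i => Real.log (α i)) hA L
    (fun lam => ⌊lin (fun i => Real.log (α i)) lam / a0⌋) (Icc (0 : ℤ) ⌊Real.exp g⌋)
    (2 * Real.exp g) (by
      have h1 : (0 : ℤ) ≤ ⌊Real.exp g⌋ := Int.floor_nonneg.mpr (by linarith)
      have h2 : ((Icc (0 : ℤ) ⌊Real.exp g⌋).card : ℤ) = ⌊Real.exp g⌋ + 1 := by
        rw [Int.card_Icc_of_le _ _ (by omega)]; ring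
      have h3 : ((Icc (0 : ℤ) ⌊Real.exp g⌋).card : ℝ) = (⌊Real.exp g⌋ : ℝ) + 1 := by
        exact_mod_cast h2
      rw [h3]
      have := Int.floor_le (Real.exp g)
      linarith) (by
      intro lam hlam
      have hlo : 0 ≤ lin (fun i => Real.log (α i)) lam := by
        unfold lin
        exact Finset.sum_nonneg fun i _ =>
          mul_nonneg (by exact_mod_cast (hlam i).1) (hA i).le
      have hhi : lin (fun i => Real.log (α i)) lam ≤ Fintype.card ι * L := by
        unfold lin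
        calc ∑ i, (lam i : ℝ) * Real.log (α i) ≤ ∑ _i : ι, (L : ℝ) :=
              Finset.sum_le_sum fun i _ => (hlam i).2
          _ = Fintype.card ι * L := by simp
      rw [mem_Icc]
      refine ⟨Int.floor_nonneg.mpr (div_nonneg hlo ha0pos.le), Int.floor_mono ?_⟩
      rw [div_le_iff₀ ha0pos, ha0]
      have : Real.exp g * (Fintype.card ι * L * Real.exp (-g)) = Fintype.card ι * L := by
        rw [Real.exp_neg]; field_simp
      linarith)
  refine ⟨Ls, ⟨h0, ?_, ?_, ?_⟩, hcard⟩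
  · intro lam hl lam' hl' i
    obtain ⟨h1, h2⟩ := (hLs lam hl).1 i
    obtain ⟨h3, h4⟩ := (hLs lam' hl').1 i
    have h1' : (0 : ℝ) ≤ ((lam + v) i : ℤ) := by exact_mod_cast h1
    have h3' : (0 : ℝ) ≤ ((lam' + v) i : ℤ) := by exact_mod_cast h3
    have e : ((lam i - lam' i : ℤ) : ℝ) = (((lam + v) i : ℤ) : ℝ) - (((lam' + v) i : ℤ) : ℝ) := by
      simp
    have hAi := hA i
    have p1 := mul_nonneg h1' hAi.le
    have p3 := mul_nonneg h3' hAi.le
    rw [e, ← abs_of_pos hAi, ← abs_mul, abs_le]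
    constructor <;> nlinarith
  · intro lam hl lam' hl'
    have h1 := (hLs lam hl).2
    have h2 := (hLs lam' hl').2
    have h3 : ⌊lin (fun i => Real.log (α i)) (lam + v) / a0⌋ =
        ⌊lin (fun i => Real.log (α i)) (lam' + v) / a0⌋ := by
      rw [h1, h2]
    have h4 := Int.abs_sub_lt_one_of_floor_eq_floor h3
    rw [lin_add, lin_add, ← sub_div, abs_div, abs_of_pos ha0pos, div_lt_one ha0pos] at h4
    rw [Real.norm_eq_abs]
    have e : lin (fun i => Real.log (α i)) lam + lin (fun i => Real.log (α i)) v -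
        (lin (fun i => Real.log (α i)) lam' + lin (fun i => Real.log (α i)) v) =
        lin (fun i => Real.log (α i)) lam - lin (fun i => Real.log (α i)) lam' := by ring
    rw [e] at h4
    exact h4.le
  · intro lam _
    rw [ex_real, exp_lin_log α (fun i => (hα i).pos)]

/-- Lower bound for linear forms in logarithms of primes, archimedean case. -/
theorem arch_bound : ∃ C : ℝ, 1 ≤ C ∧ ∀ (ι : Type) [Fintype ι] [DecidableEq ι] (α : ι → ℕ)
    (b : ι → ℤ) (V : ℝ), (∀ i, (α i).Prime) → Function.Injective α → b ≠ 0 → 1 ≤ V →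
    (∀ i, |(b i : ℝ)| ≤ Real.exp V) → ∑ i, Real.log (α i) ≤ V →
    Real.exp (-(C ^ Fintype.card ι * V ^ 3 * (∏ i, Real.log (α i) + V))) ≤
      |∑ i, (b i : ℝ) * Real.log (α i)| := by
  refine ⟨10 ^ 24, by norm_num, ?_⟩
  intro ι _ _ α b V hα hinj hb hV hbV hsum
  have : Nonempty ι := by
    by_contra hne
    rw [not_nonempty_iff] at hne
    exact hb (Subsingleton.elim _ _)
  set n : ℕ := Fintype.card ι with hn
  have hn1 : 1 ≤ n := Fintype.card_pos
  have hn1' : (1 : ℝ) ≤ n := by exact_mod_cast hn1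
  have hA : ∀ i, (1 / 2 : ℝ) < Real.log (α i) := fun i => half_lt_log (hα i)
  set Ω : ℝ := ∏ i, Real.log (α i) with hΩ
  have hΩpos : 0 < Ω := Finset.prod_pos fun i _ => lt_trans (by norm_num) (hA i)
  have hnV : (n : ℝ) ≤ 2 * V := by
    have : ∑ _i : ι, (1 / 2 : ℝ) ≤ ∑ i, Real.log (α i) :=
      Finset.sum_le_sum fun i _ => (hA i).le
    simp only [Finset.sum_const, Finset.card_univ, nsmul_eq_mul] at this
    rw [← hn] at this
    linarith
  have hΩV : Ω ≤ Real.exp V := by
    calc Ω ≤ ∏ i, Real.exp (Real.log (α i)) := by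
          refine Finset.prod_le_prod (fun i _ => (lt_trans (by norm_num) (hA i)).le) fun i _ => ?_
          have := Real.add_one_le_exp (Real.log (α i))
          linarith
      _ = Real.exp (∑ i, Real.log (α i)) := (Real.exp_sum _ _).symm
      _ ≤ Real.exp V := Real.exp_le_exp.mpr hsum
  set X : ℝ := Ω * (2 * Real.exp n) * 5000 ^ n with hX
  have hXpos : 0 < X := by positivity
  have he3 : Real.exp 1 ≤ 3 := by
    have := Real.exp_one_lt_d9
    linarith
  have hen : Real.exp n ≤ 3 ^ n := by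
    rw [← mul_one (n : ℝ), Real.exp_nat_mul]
    exact pow_le_pow_left₀ (Real.exp_pos 1).le he3 n
  have h5000 : (5000 : ℝ) ^ n ≤ Real.exp (9 * n) := by
    rw [mul_comm, Real.exp_nat_mul]
    refine pow_le_pow_left₀ (by norm_num) ?_ n
    have h27 : (2.7 : ℝ) ≤ Real.exp 1 := by
      have := Real.exp_one_gt_d9
      linarith
    have : Real.exp 9 = Real.exp 1 ^ 9 := by
      rw [← Real.exp_nat_mul]; norm_num
    rw [this]
    calc (5000 : ℝ) ≤ 2.7 ^ 9 := by norm_num
      _ ≤ Real.exp 1 ^ 9 := pow_le_pow_left₀ (by norm_num) h27 9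
  have hXle : X ≤ 2 * Real.exp (V + 10 * n) := by
    have e : Real.exp (V + 10 * n) = Real.exp V * Real.exp n * Real.exp (9 * n) := by
      rw [← Real.exp_add, ← Real.exp_add]; congr 1; ring
    rw [e, hX]
    have h1 : Ω * (2 * Real.exp n) ≤ Real.exp V * (2 * Real.exp n) :=
      mul_le_mul_of_nonneg_right hΩV (by positivity)
    calc Ω * (2 * Real.exp n) * 5000 ^ n ≤ Real.exp V * (2 * Real.exp n) * Real.exp (9 * n) :=
          mul_le_mul h1 h5000 (by positivity) (by positivity)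
      _ = 2 * (Real.exp V * Real.exp n * Real.exp (9 * n)) := by ring
  have hnle : (n : ℝ) ≤ Real.exp (V + 10 * n) := by
    have := Real.add_one_le_exp (V + 10 * n)
    linarith
  have hlog : Real.log (X + n) ≤ V + 10 * n + 2 := by
    rw [Real.log_le_iff_le_exp (by positivity)]
    have h2 : (3 : ℝ) ≤ Real.exp 2 := by
      have := Real.add_one_le_exp (2 : ℝ)
      linarith
    rw [Real.exp_add (V + 10 * n)]
    have hp := Real.exp_pos (V + 10 * n)
    nlinarith
  have key := core_bound α hα hinj b hb (fun i => Real.log (α i)) 2 base_real (n : ℝ)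
    (2 * Real.exp n) X (100 * V) le_rfl (by positivity)
    (by
      rw [← hn, ← hΩ, hX]
      have : (5000 * (n : ℝ) / n) = 5000 := by field_simp
      rw [this])
    (by linarith) (by rw [← hn]; linarith)
    (fun i => (hbV i).trans (Real.exp_le_exp.mpr (by linarith))) (by linarith)
    (by
      intro L hL
      refine ⟨n * L * Real.exp (-(n : ℝ)), ?_, iface_real n L n (by positivity), ?_⟩
      · rw [← hn]
        have : Real.exp (-(n : ℝ)) ≤ 1 := Real.exp_le_one_iff.mpr (by linarith)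
        have h0 : (0 : ℝ) ≤ n * L := by positivity
        nlinarith
      · exact init_real α hα L hL n (by positivity))
  rw [Real.norm_eq_abs, ← hn] at key
  refine le_trans (Real.exp_le_exp.mpr ?_) key
  rw [neg_le_neg_iff]
  have hXn : X + n ≤ 2 * 15000 ^ n * (Ω + V) := by
    have h1 : X ≤ 2 * 15000 ^ n * Ω := by
      have e : (15000 : ℝ) ^ n = 3 ^ n * 5000 ^ n := by rw [← mul_pow]; norm_num
      rw [e, hX]
      have : Real.exp n * 5000 ^ n ≤ 3 ^ n * 5000 ^ n :=
        mul_le_mul_of_nonneg_right hen (by positivity)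
      nlinarith
    have h2 : (1 : ℝ) ≤ 15000 ^ n := one_le_pow₀ (by norm_num)
    nlinarith
  have hC : (10 : ℝ) ^ 12 * 4 ^ n * 100 ^ 3 * (2 * 15000 ^ n) ≤ (10 ^ 24) ^ n := by
    obtain ⟨m, hm⟩ : ∃ m, n = m + 1 := ⟨n - 1, by omega⟩
    rw [hm]
    have e : (10 : ℝ) ^ 12 * 4 ^ (m + 1) * 100 ^ 3 * (2 * 15000 ^ (m + 1)) =
        (10 ^ 12 * 4 * 100 ^ 3 * 2 * 15000) * (4 * 15000) ^ m := by
      rw [mul_pow]; ring
    rw [e, pow_succ, mul_comm]
    have h1 : ((4 : ℝ) * 15000) ^ m ≤ (10 ^ 24) ^ m :=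
      pow_le_pow_left₀ (by norm_num) (by norm_num) m
    have h2 : (10 : ℝ) ^ 12 * 4 * 100 ^ 3 * 2 * 15000 ≤ 10 ^ 24 := by norm_num
    exact mul_le_mul h1 h2 (by norm_num) (pow_nonneg (by norm_num) m)
  have hV3 : 0 ≤ V ^ 3 := by positivity
  have hΩV0 : 0 ≤ Ω + V := by linarith
  calc (10 : ℝ) ^ 12 * 4 ^ n * (100 * V) ^ 3 * (X + n)
      ≤ 10 ^ 12 * 4 ^ n * (100 * V) ^ 3 * (2 * 15000 ^ n * (Ω + V)) :=
        mul_le_mul_of_nonneg_left hXn (by positivity)
    _ = (10 ^ 12 * 4 ^ n * 100 ^ 3 * (2 * 15000 ^ n)) * (V ^ 3 * (Ω + V)) := by ring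
    _ ≤ (10 ^ 24) ^ n * (V ^ 3 * (Ω + V)) :=
        mul_le_mul_of_nonneg_right hC (by positivity)
    _ = (10 ^ 24) ^ n * V ^ 3 * (Ω + V) := by ring

end LFL
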