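import Pool.Agent.P.MP_7aad9f_nt.LFL.Defs

set_option autoImplicit false

namespace LFL
open Finset

section ex
variable {K : Type} [NormedField K]

theorem ex_zero : ex (0 : K) = 1 := by
  rw [ex, tsum_eq_single 0 fun k hk => by simp [hk]]
  simp

theorem Conv.of_norm_le {x y : K} (hy : Conv y) (h : ‖x‖ ≤ ‖y‖) : Conv x := by
  refine Summable.of_nonneg_of_le (fun _ => norm_nonneg _) (fun k => ?_) hy
  rw [norm_div, norm_div, norm_pow, norm_pow]
  gcongr

theorem conv_of_summable {y z : K} {ρ : ℝ} (hz : ‖z‖ ≤ ρ)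
    (h : Summable fun j : ℕ => ‖y ^ j / (j.factorial : K)‖ * ρ ^ j) : Conv (y * z) := by
  refine Summable.of_nonneg_of_le (fun _ => norm_nonneg _) (fun k => ?_) h
  rw [mul_pow, mul_div_right_comm, norm_mul, norm_pow]
  gcongr

theorem ex_add [CharZero K] [CompleteSpace K] {x y : K} (hx : Conv x) (hy : Conv y) :
    ex (x + y) = ex x * ex y := by
  rw [ex, ex, ex, tsum_mul_tsum_eq_tsum_sum_antidiagonal_of_summable_norm hx hy]
  refine tsum_congr fun n => ?_
  rw [(Commute.all x y).add_pow', sum_div]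
  refine sum_congr rfl fun p hp => ?_
  rw [HasAntidiagonal.mem_antidiagonal] at hp
  have h := Nat.add_choose_mul_factorial_mul_factorial p.1 p.2
  rw [hp] at h
  have h' : (n.choose p.2 : K) * p.1.factorial * p.2.factorial = n.factorial := by
    exact_mod_cast congrArg (Nat.cast : ℕ → K) h
  have h1 : (p.1.factorial : K) ≠ 0 := Nat.cast_ne_zero.2 p.1.factorial_ne_zero
  have h2 : (p.2.factorial : K) ≠ 0 := Nat.cast_ne_zero.2 p.2.factorial_ne_zero
  have h3 : (n.factorial : K) ≠ 0 := Nat.cast_ne_zero.2 n.factorial_ne_zero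
  have h4 : n.choose p.1 = n.choose p.2 := by
    rw [← hp]
    exact Nat.choose_symm_add
  rw [nsmul_eq_mul, h4]
  field_simp
  linear_combination x ^ p.1 * y ^ p.2 * h'

theorem ex_mul_nat [CharZero K] [CompleteSpace K] {x : K} (s : ℕ)
    (h : ∀ j : ℕ, j ≤ s → Conv (x * j)) (hx : Conv x) : ex (x * s) = ex x ^ s := by
  induction s with
  | zero => simp [ex_zero]
  | succ s ih =>
    rw [Nat.cast_succ, mul_add, mul_one, ex_add (h s (by omega)) hx,
      ih fun j hj => h j (by omega), pow_succ]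

theorem ex_real (x : ℝ) : ex x = Real.exp x := by
  rw [Real.exp_eq_exp_ℝ, NormedSpace.exp_eq_tsum_div]
  rfl

end ex

section alg
variable {ι K : Type} [Fintype ι] [NormedField K]

theorem lin_zero (lg : ι → K) : lin lg 0 = 0 := by
  simp [lin]

theorem lin_add (lg : ι → K) (x y : ι → ℤ) : lin lg (x + y) = lin lg x + lin lg y := by
  simp [lin, add_mul, sum_add_distrib]

theorem lin_sub (lg : ι → K) (x y : ι → ℤ) : lin lg (x - y) = lin lg x - lin lg y := by
  simp [lin, sub_mul, sum_sub_distrib]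

theorem lin_smul (lg : ι → K) (m : ℤ) (x : ι → ℤ) : lin lg (m • x) = (m : K) * lin lg x := by
  simp [lin, mul_sum, mul_assoc]

theorem apow_zero (α : ι → ℕ) : apow α 0 = 1 := by
  simp [apow]

theorem apow_pos {α : ι → ℕ} (hα : ∀ i, 0 < α i) (x : ι → ℤ) : 0 < apow α x :=
  prod_pos fun i _ => zpow_pos (by exact_mod_cast hα i) _

theorem apow_add {α : ι → ℕ} (hα : ∀ i, 0 < α i) (x y : ι → ℤ) :
    apow α (x + y) = apow α x * apow α y := by
  rw [apow, apow, apow, ← prod_mul_distrib]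
  exact prod_congr rfl fun i _ => zpow_add₀ (by exact_mod_cast (hα i).ne') _ _

theorem apow_sub {α : ι → ℕ} (hα : ∀ i, 0 < α i) (x y : ι → ℤ) :
    apow α (x - y) = apow α x / apow α y := by
  rw [eq_div_iff (apow_pos hα y).ne', ← apow_add hα, sub_add_cancel]

theorem apow_smul (α : ι → ℕ) (m : ℤ) (x : ι → ℤ) : apow α (m • x) = apow α x ^ m := by
  rw [apow, apow, ← prod_zpow]
  exact prod_congr rfl fun i _ => by rw [Pi.smul_apply, smul_eq_mul, mul_comm, zpow_mul]

theorem pow_natAbs_eq_exp {a : ℕ} (ha : 0 < a) (x : ℤ) :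
    (a : ℝ) ^ x.natAbs = Real.exp (|(x : ℝ)| * Real.log a) := by
  rw [← Int.cast_abs, ← Int.natCast_natAbs, Int.cast_natCast, Real.exp_nat_mul,
    Real.exp_log (by exact_mod_cast ha)]

theorem apow_le_exp {α : ι → ℕ} (hα : ∀ i, 0 < α i) (x : ι → ℤ) :
    ((apow α x : ℚ) : ℝ) ≤ Real.exp (∑ i, |(x i : ℝ)| * Real.log (α i)) := by
  rw [apow, Real.exp_sum]
  push_cast
  refine prod_le_prod (fun i _ => by positivity) fun i _ => ?_
  rw [← pow_natAbs_eq_exp (hα i), ← zpow_natCast]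
  exact zpow_le_zpow_right₀ (by exact_mod_cast hα i) Int.le_natAbs

theorem Base.norm_nat_le {q : ℕ} (h : Base K q) (a : ℕ) : ‖(a : K)‖ ≤ a := by
  simpa using h.norm_le a

theorem Base.norm_inv_le {q : ℕ} (h : Base K q) {a : ℤ} (ha : a ≠ 0) :
    ‖(a : K)⁻¹‖ ≤ |(a : ℝ)| := by
  have h1 := h.norm_ge a ha
  have h2 : 0 < ‖(a : K)‖ := (norm_nonneg _).lt_of_ne fun e => by
    rw [← e] at h1
    norm_num at h1
  rwa [norm_inv, inv_le_iff_one_le_mul₀' h2]

theorem Base.norm_apow_le [CharZero K] {q : ℕ} (h : Base K q) {α : ι → ℕ} (hα : ∀ i, 0 < α i)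
    (x : ι → ℤ) : ‖((apow α x : ℚ) : K)‖ ≤ Real.exp (∑ i, |(x i : ℝ)| * Real.log (α i)) := by
  rw [apow, Real.exp_sum]
  push_cast
  rw [norm_prod]
  refine prod_le_prod (fun i _ => norm_nonneg _) fun i _ => ?_
  rw [← pow_natAbs_eq_exp (hα i)]
  obtain ⟨m, e | e⟩ := Int.eq_nat_or_neg (x i) <;> rw [e]
  · rw [zpow_natCast, norm_pow, Int.natAbs_natCast]
    exact pow_le_pow_left₀ (norm_nonneg _) (h.norm_nat_le _) _
  · rw [zpow_neg, zpow_natCast, ← inv_pow, norm_pow, Int.natAbs_neg, Int.natAbs_natCast]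
    refine pow_le_pow_left₀ (norm_nonneg _) ?_ _
    simpa using h.norm_inv_le (a := α i) (by exact_mod_cast (hα i).ne')

/-- Liouville for a rational number with known denominator. -/
theorem Base.norm_rat_ge [CharZero K] {q : ℕ} (h : Base K q) {x : ℚ} (hx : x ≠ 0) {m : ℤ} {d : ℕ}
    (hd : 0 < d) (hm : (d : ℚ) * x = m) {A : ℝ} (hA : |(m : ℝ)| * d ≤ Real.exp A) :
    Real.exp (-A) ≤ ‖(x : K)‖ := by
  have h0 : m ≠ 0 := by
    have : (m : ℚ) ≠ 0 := hm ▸ mul_ne_zero (by exact_mod_cast hd.ne') hx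
    exact_mod_cast this
  have h1 := h.norm_ge m h0
  have h2 : (m : K) = d * (x : K) := by exact_mod_cast congrArg (Rat.cast : ℚ → K) hm.symm
  rw [h2, norm_mul] at h1
  rw [Real.exp_neg, inv_le_iff_one_le_mul₀ (Real.exp_pos _)]
  calc 1 ≤ ‖(d : K)‖ * ‖(x : K)‖ * |(m : ℝ)| := h1
    _ ≤ d * ‖(x : K)‖ * |(m : ℝ)| := by gcongr; exact h.norm_nat_le d
    _ = ‖(x : K)‖ * (|(m : ℝ)| * d) := by ring
    _ ≤ _ := by gcongr

theorem half_lt_log {p : ℕ} (hp : p.Prime) : (1 / 2 : ℝ) < Real.log p := by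
  have h1 := Real.log_two_gt_d9
  have h2 : Real.log 2 ≤ Real.log p := Real.log_le_log (by norm_num) (by exact_mod_cast hp.two_le)
  linarith

end alg

end LFL
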