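import Pool.Agent.P.MP_7aad9f_nt.LFL.Basic

set_option autoImplicit false

namespace LFL
open Finset

namespace Ctx
variable {ι K : Type} [Fintype ι] [DecidableEq ι] [NormedField K] [CharZero K] [CompleteSpace K]
  {c : Ctx ι K} {k : ℕ} {st : St ι}

theorem OK.conv (h : c.OK) {y : K} (hy : ‖y‖ * ‖(c.q : K)‖ ^ k ≤ c.a0) (s : ℕ) :
    Conv (y * ((s : K) / c.q)) := by
  obtain ⟨r, ρ, D, -, -, -, -, -, -, -, h1, h2⟩ := h.iface k (s + 1) (by omega)
  have hq := h.base.prime.two_le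
  exact conv_of_summable (h1 s (by nlinarith)).1 (h2 y hy).1

theorem OK.q_ne (h : c.OK) : (c.q : K) ≠ 0 := Nat.cast_ne_zero.2 h.base.prime.ne_zero

theorem OK.conv_nat (h : c.OK) {y : K} (hy : ‖y‖ * ‖(c.q : K)‖ ^ k ≤ c.a0) (s : ℕ) :
    Conv (y * s) := by
  have h1 := h.conv hy (s * c.q)
  rwa [Nat.cast_mul, mul_div_cancel_right₀ _ h.q_ne] at h1

theorem OK.ex_mul_nat (h : c.OK) {y : K} (hy : ‖y‖ * ‖(c.q : K)‖ ^ k ≤ c.a0) (s : ℕ) :
    ex (y * s) = ex y ^ s := by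
  refine LFL.ex_mul_nat s (fun j _ => h.conv_nat hy j) ?_
  simpa using h.conv_nat hy 1

theorem OK.ex_div_pow (h : c.OK) {y : K} (hy : ‖y‖ * ‖(c.q : K)‖ ^ k ≤ c.a0) (s : ℕ) :
    ex (y * ((s : K) / c.q)) ^ c.q = ex y ^ s := by
  rw [← h.ex_mul_nat hy s, ← LFL.ex_mul_nat c.q (fun j _ => ?_) (h.conv hy s), mul_assoc,
    div_mul_cancel₀ _ h.q_ne]
  have h1 := h.conv hy (s * j)
  rwa [Nat.cast_mul, mul_div_right_comm, ← mul_assoc] at h1

theorem OK.H_nonneg (h : c.OK) (k : ℕ) : 0 ≤ c.H k := by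
  unfold H
  positivity

theorem OK.Y_ge (h : c.OK) : 8 ≤ c.Y := by
  unfold Y
  have h1 := h.W2
  have h2 := h.Y00
  have h3 : (0 : ℝ) ≤ c.L0 := Nat.cast_nonneg _
  have h4 : (0 : ℝ) ≤ c.T := Nat.cast_nonneg _
  nlinarith

theorem mu_i0 (c : Ctx ι K) (lam : ι → ℤ) : c.mu lam c.i0 = 0 := by
  simp [mu]

theorem Good.abs_le (hg : c.Good k st) {lam : ι → ℤ} (hl : lam ∈ st.Ls) (i : ι) :
    |(lam i : ℝ)| * Real.log (c.α i) * (c.q : ℝ) ^ k ≤ c.L := by
  simpa using hg.diam lam hl 0 hg.zero_mem i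

theorem OK.one_le_qpow (h : c.OK) (k : ℕ) : (1 : ℝ) ≤ (c.q : ℝ) ^ k :=
  one_le_pow₀ (by exact_mod_cast h.base.prime.one_le)

theorem Good.abs_le_exp (h : c.OK) (hg : c.Good k st) {lam : ι → ℤ} (hl : lam ∈ st.Ls) (i : ι) :
    |(lam i : ℝ)| ≤ 2 * Real.exp c.W := by
  have h1 := hg.abs_le hl i
  have h2 := half_lt_log (h.prime i)
  have h3 := h.one_le_qpow k
  have h4 := h.LW
  have h5 : 0 ≤ |(lam i : ℝ)| := abs_nonneg _
  have h6 : |(lam i : ℝ)| * Real.log (c.α i) ≤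
      |(lam i : ℝ)| * Real.log (c.α i) * (c.q : ℝ) ^ k :=
    le_mul_of_one_le_right (by positivity) h3
  nlinarith

theorem Good.norm_lin (hg : c.Good k st) {lam : ι → ℤ} (hl : lam ∈ st.Ls) :
    ‖lin c.lg lam‖ * ‖(c.q : K)‖ ^ k ≤ c.a0 := by
  simpa [lin_zero] using hg.near lam hl 0 hg.zero_mem

theorem Good.norm_lin_le (h : c.OK) (hg : c.Good k st) {lam : ι → ℤ} (hl : lam ∈ st.Ls) :
    ‖lin c.lg lam‖ ≤ Real.exp c.W :=
  (le_mul_of_one_le_right (norm_nonneg _) (one_le_pow₀ h.base.one_le)).trans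
    ((hg.norm_lin hl).trans h.aW)

theorem Good.height (h : c.OK) (hg : c.Good k st) {lam : ι → ℤ} (hl : lam ∈ st.Ls) :
    ∑ i, |(lam i : ℝ)| * Real.log (c.α i) ≤ c.H k := by
  have h3 := h.one_le_qpow k
  calc ∑ i, |(lam i : ℝ)| * Real.log (c.α i) ≤ ∑ _i : ι, (c.L : ℝ) / (c.q : ℝ) ^ k :=
        sum_le_sum fun i _ => by
          rw [le_div_iff₀ (by positivity)]
          exact hg.abs_le hl i
    _ = c.H k := by
        rw [sum_const, card_univ, nsmul_eq_mul, H, mul_div_assoc]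

theorem OK.four_le (h : c.OK) : 4 ≤ Real.exp c.W := by
  have h1 := Real.add_one_le_exp (c.W / 2)
  have h2 : Real.exp c.W = Real.exp (c.W / 2) * Real.exp (c.W / 2) := by
    rw [← Real.exp_add]; ring_nf
  have h3 := h.W2
  nlinarith

/-- Stated for any vector with entries at most `2 e^W`. -/
theorem OK.mon_le (h : c.OK) {lam : ι → ℤ} (hl : ∀ i, |(lam i : ℝ)| ≤ 2 * Real.exp c.W)
    {t : ι → ℕ} (ht : ∑ i, t i ≤ c.T) : |(c.mon t lam : ℝ)| ≤ Real.exp (3 * c.W * c.T) := by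
  have hW := h.W2
  have h4 := h.four_le
  have hm : ∀ i, |(c.mu lam i : ℝ)| ≤ Real.exp (3 * c.W) := by
    intro i
    have e : Real.exp (3 * c.W) = Real.exp c.W * Real.exp c.W * Real.exp c.W := by
      rw [← Real.exp_add, ← Real.exp_add]; ring_nf
    have h1 : |(c.b c.i0 : ℝ) * lam i| ≤ Real.exp c.W * (2 * Real.exp c.W) := by
      rw [abs_mul]
      exact mul_le_mul (h.bW _) (hl _) (abs_nonneg _) (Real.exp_pos _).le
    have h2 : |(c.b i : ℝ) * lam c.i0| ≤ Real.exp c.W * (2 * Real.exp c.W) := by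
      rw [abs_mul]
      exact mul_le_mul (h.bW _) (hl _) (abs_nonneg _) (Real.exp_pos _).le
    have h3 := abs_sub ((c.b c.i0 : ℝ) * lam i) ((c.b i : ℝ) * lam c.i0)
    have h5 : 0 < Real.exp c.W * Real.exp c.W := by positivity
    rw [mu, e]
    push_cast
    nlinarith
  have h1 : (1 : ℝ) ≤ Real.exp (3 * c.W) := Real.one_le_exp (by linarith)
  rw [mon]
  push_cast
  rw [abs_prod]
  calc ∏ i ∈ univ.erase c.i0, |(c.mu lam i : ℝ) ^ t i|
      ≤ ∏ i ∈ univ.erase c.i0, Real.exp (3 * c.W) ^ t i :=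
        prod_le_prod (fun _ _ => abs_nonneg _) fun i _ => by
          rw [abs_pow]
          exact pow_le_pow_left₀ (abs_nonneg _) (hm i) _
    _ = Real.exp (3 * c.W) ^ (∑ i ∈ univ.erase c.i0, t i) := prod_pow_eq_pow_sum _ _ _
    _ ≤ Real.exp (3 * c.W) ^ c.T :=
        pow_le_pow_right₀ h1 ((sum_le_sum_of_subset (erase_subset _ _)).trans ht)
    _ = _ := by rw [← Real.exp_nat_mul, mul_comm]

theorem Good.size_le (h : c.OK) (hg : c.Good k st) (hk : k ≤ c.Kl) :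
    ∑ lam ∈ st.Ls, ∑ l ∈ range (c.L0 + 1), |(st.P lam l : ℝ)| ≤ Real.exp c.Y0 := by
  refine hg.size.trans (le_trans ?_ h.PY)
  refine mul_le_mul_of_nonneg_left (pow_le_pow_right₀ ?_ (Nat.mul_le_mul_right _ hk)) h.P0
  exact_mod_cast h.base.prime.one_le

theorem Good.ex_nat (h : c.OK) (hg : c.Good k st) {lam : ι → ℤ} (hl : lam ∈ st.Ls) (s : ℕ) :
    ex (lin c.lg lam * s) = ((((st.u lam : ℚ) * apow c.α lam) ^ s : ℚ) : K) := by
  rw [h.ex_mul_nat (hg.norm_lin hl) s, hg.exp_eq lam hl, Rat.cast_pow]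

theorem Good.norm_ex_le (h : c.OK) (hg : c.Good k st) {lam : ι → ℤ} (hl : lam ∈ st.Ls) (s : ℕ) :
    ‖ex (lin c.lg lam * s)‖ ≤ Real.exp (s * c.H k) := by
  rw [hg.ex_nat h hl s, Rat.cast_pow, norm_pow, Real.exp_nat_mul]
  refine pow_le_pow_left₀ (norm_nonneg _) ?_ _
  have h1 := h.base.norm_apow_le (fun i => (h.prime i).pos) lam
  have h2 : ‖(((st.u lam : ℚ) * apow c.α lam : ℚ) : K)‖ = ‖((apow c.α lam : ℚ) : K)‖ := by
    rcases (hg.sign lam hl).1 with e | e <;> simp [e]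
  rw [h2]
  exact h1.trans (Real.exp_le_exp.2 (hg.height h hl))

theorem Good.Fn_nat (h : c.OK) (hg : c.Good k st) (t : ι → ℕ) (s : ℕ) :
    c.Fn st t (s : K) = ((c.Phi st t s : ℚ) : K) := by
  rw [Fn, Phi, Rat.cast_sum]
  refine sum_congr rfl fun lam hl => ?_
  rw [Rat.cast_sum]
  refine sum_congr rfl fun l _ => ?_
  rw [hg.ex_nat h hl s]
  push_cast
  rfl

theorem Van.mono {T1 T2 S1 S2 : ℕ} (hv : c.Van st T2 S2) (hT : T1 ≤ T2) (hS : S1 ≤ S2) :
    c.Van st T1 S1 := fun s h1 h2 h3 t ht => hv s h1 (h2.trans hS) h3 t (ht.trans hT)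

/-- A common denominator: `Den * apow α (m • lam)` is a natural number for all `lam ∈ Ls`
and `0 ≤ m ≤ s`; more generally for all vectors `v` with `|v i| ≤ s * |lam i|`. -/
theorem Good.exists_den (h : c.OK) (hg : c.Good k st) (s : ℕ) :
    ∃ Den : ℕ, 0 < Den ∧ (Den : ℝ) ≤ Real.exp (s * c.H k) ∧
      ∀ lam ∈ st.Ls, ∀ v : ι → ℤ, (∀ i, |v i| ≤ s * |lam i|) →
        ∃ m : ℕ, (Den : ℚ) * apow c.α v = m ∧ (m : ℝ) ≤ Real.exp (2 * s * c.H k) := by
  have hα : ∀ i, 0 < c.α i := fun i => (h.prime i).pos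
  have hq := h.one_le_qpow k
  have hD : ∀ i, ∃ D : ℕ, (D : ℝ) * Real.log (c.α i) ≤ c.L / (c.q : ℝ) ^ k ∧
      ∀ lam ∈ st.Ls, (lam i).natAbs ≤ D := by
    intro i
    obtain ⟨lam, hl, hmax⟩ := exists_max_image st.Ls (fun lam => (lam i).natAbs) ⟨0, hg.zero_mem⟩
    refine ⟨(lam i).natAbs, ?_, hmax⟩
    rw [le_div_iff₀ (by positivity), Nat.cast_natAbs, Int.cast_abs]
    exact hg.abs_le hl i
  choose D hD1 hD2 using hD
  have key : ∀ (e : ι → ℕ) (a : ℕ), (∀ i, e i ≤ a * D i) →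
      ((∏ i, c.α i ^ e i : ℕ) : ℝ) ≤ Real.exp (a * c.H k) := by
    intro e a he
    have e1 : (a : ℝ) * c.H k = ∑ _i : ι, a * ((c.L : ℝ) / (c.q : ℝ) ^ k) := by
      rw [sum_const, card_univ, nsmul_eq_mul, H]
      ring
    rw [e1, Real.exp_sum]
    push_cast
    refine prod_le_prod (fun i _ => by positivity) fun i _ => ?_
    have hpos : (0 : ℝ) < c.α i := by exact_mod_cast hα i
    have hl := half_lt_log (h.prime i)
    rw [← Real.exp_log hpos, ← Real.exp_nat_mul, Real.exp_le_exp]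
    have h1 : (e i : ℝ) ≤ a * D i := by exact_mod_cast he i
    calc (e i : ℝ) * Real.log (c.α i) ≤ a * D i * Real.log (c.α i) := by gcongr
      _ = a * (D i * Real.log (c.α i)) := by ring
      _ ≤ _ := by gcongr; exact hD1 i
  refine ⟨∏ i, c.α i ^ (s * D i), prod_pos fun i _ => pow_pos (hα i) _,
    key _ s fun _ => le_rfl, fun lam hl v hv => ?_⟩
  have hb : ∀ i, |v i| ≤ (s * D i : ℕ) := by
    intro i
    refine (hv i).trans ?_
    have h1 : |lam i| ≤ (D i : ℤ) := by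
      rw [← Int.natCast_natAbs]
      exact_mod_cast hD2 i lam hl
    push_cast
    gcongr
  refine ⟨∏ i, c.α i ^ (((s * D i : ℕ) : ℤ) + v i).toNat, ?_, ?_⟩
  · rw [apow]
    push_cast
    rw [← prod_mul_distrib]
    refine prod_congr rfl fun i _ => ?_
    have h1 := _root_.abs_le.1 (hb i)
    have h2 : (c.α i : ℚ) ≠ 0 := by exact_mod_cast (hα i).ne'
    rw [← zpow_natCast, ← zpow_add₀ h2, ← zpow_natCast, Int.toNat_of_nonneg]
    · push_cast
      rfl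
    · push_cast at h1
      linarith [h1.1]
  · have h1 := key (fun i => (((s * D i : ℕ) : ℤ) + v i).toNat) (2 * s) fun i => by
      have h1 := _root_.abs_le.1 (hb i)
      rw [Int.toNat_le]
      push_cast at h1 ⊢
      linarith [h1.2]
    simpa using h1

end Ctx

end LFL
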