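import Pool.Agent.P.MP_7aad9f_nt.LFL.Basic

set_option autoImplicit false

namespace LFL
open Finset

open Polynomial in
theorem trace_root {E : Type} [Field E] [CharZero E] [FiniteDimensional ℚ E] {q : ℕ}
    (hq : q.Prime) {x : E} {a : ℚ} (hx : x ^ q = (a : E)) (ha : ∀ y : ℚ, y ^ q ≠ a) :
    Algebra.trace ℚ E x = 0 := by
  have h2 := hq.two_le
  have e : X ^ q - C a = minpoly ℚ x :=
    minpoly.eq_of_irreducible_of_monic (X_pow_sub_C_irreducible_of_prime hq ha) (by simp [hx])
      (monic_X_pow_sub_C a hq.ne_zero)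
  rw [trace_eq_finrank_mul_minpoly_nextCoeff, ← e,
    nextCoeff_of_natDegree_pos (by rw [natDegree_X_pow_sub_C]; omega), natDegree_X_pow_sub_C,
    coeff_sub, coeff_X_pow, coeff_C, if_neg (by omega), if_neg (by omega)]
  simp

/-- `q`-th roots of rationals that are not `q`-th powers have trace zero. -/
theorem trace_extract {F I : Type} [Field F] [CharZero F] {q : ℕ} (hq : q.Prime) (s : Finset I)
    (c : I → ℚ) (φ : I → F) (a : I → ℚ) (hφ : ∀ j ∈ s, φ j ^ q = (a j : F))
    (ha : ∀ j ∈ s, ∀ y : ℚ, y ^ q ≠ a j) (c0 : ℚ)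
    (h : (c0 : F) + ∑ j ∈ s, (c j : F) * φ j = 0) : c0 = 0 := by
  have hint : ∀ x ∈ φ '' s, IsIntegral ℚ x := by
    rintro _ ⟨j, hj, rfl⟩
    refine IsIntegral.of_pow hq.pos ?_
    rw [hφ j hj]
    exact isIntegral_algebraMap
  have : Finite (φ '' s) := (s.finite_toSet.image φ).to_subtype
  have := IntermediateField.finiteDimensional_adjoin hint
  set E := IntermediateField.adjoin ℚ (φ '' s)
  let ψ : s → E := fun j => ⟨φ j, IntermediateField.subset_adjoin _ _ ⟨j, j.2, rfl⟩⟩
  have h1 : algebraMap ℚ E c0 + ∑ j : s, c j • ψ j = 0 := by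
    refine (algebraMap E F).injective ?_
    rw [map_zero, ← h, map_add, map_sum, ← sum_coe_sort s]
    simp [ψ, Rat.smul_def]
  have h2 := congrArg (Algebra.trace ℚ E) h1
  rw [map_add, map_sum, map_zero, Algebra.trace_algebraMap, sum_eq_zero, add_zero,
    smul_eq_zero] at h2
  · exact h2.resolve_left Module.finrank_pos.ne'
  · intro j _
    rw [map_smul, trace_root hq (a := a j) ?_ (ha j j.2), smul_zero]
    refine (algebraMap E F).injective ?_
    simpa [ψ] using hφ j j.2

theorem padicValRat_apow {ι : Type} [Fintype ι] {α : ι → ℕ} (hα : ∀ i, (α i).Prime)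
    (hinj : Function.Injective α) (x : ι → ℤ) (i : ι) : padicValRat (α i) (apow α x) = x i := by
  classical
  have := fun j => Fact.mk (hα j)
  have h0 : ∀ j, (α j : ℚ) ^ x j ≠ 0 := fun j => zpow_ne_zero _ (by exact_mod_cast (hα j).ne_zero)
  have key : ∀ S : Finset ι, padicValRat (α i) (∏ j ∈ S, (α j : ℚ) ^ x j) =
      if i ∈ S then x i else 0 := by
    intro S
    induction S using Finset.induction_on with
    | empty => simp
    | insert j S hj ih =>
      rw [prod_insert hj, padicValRat.mul (h0 j) (prod_ne_zero_iff.2 fun k _ => h0 k), ih,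
        padicValRat.zpow, padicValRat.of_nat]
      by_cases e : i = j
      · subst e
        simp [hj]
      · simp [e, padicValNat_primes (hinj.ne e)]
  simpa [apow] using key univ

theorem not_pow {ι : Type} [Fintype ι] {q : ℕ} (hq : q.Prime) (α : ι → ℕ)
    (hα : ∀ i, (α i).Prime) (hinj : Function.Injective α) (lam lam0 : ι → ℤ) (u u0 : ℤ)
    (hu : (u = 1 ∨ u = -1) ∧ u ^ q = 1) (hu0 : (u0 = 1 ∨ u0 = -1) ∧ u0 ^ q = 1)
    (s : ℕ) (hs : ¬ q ∣ s) (hne : ¬ (u = u0 ∧ ∀ i, (q : ℤ) ∣ lam i - lam0 i)) (y : ℚ) :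
    y ^ q ≠ (((u : ℚ) * apow α lam) / ((u0 : ℚ) * apow α lam0)) ^ s := by
  intro h
  have hpos : ∀ i, 0 < α i := fun i => (hα i).pos
  have hp := apow_pos hpos (lam - lam0)
  rw [mul_div_mul_comm, ← apow_sub hpos] at h
  have hv : (u : ℚ) / u0 = 1 ∨ (u : ℚ) / u0 = -1 := by
    rcases hu.1 with rfl | rfl <;> rcases hu0.1 with rfl | rfl <;> simp
  refine hne ⟨?_, fun i => ?_⟩
  · by_contra hn
    have h1 : (u : ℚ) / u0 = -1 ∧ (-1 : ℤ) ^ q = 1 := by
      obtain ⟨rfl | rfl, a⟩ := hu <;> obtain ⟨rfl | rfl, b⟩ := hu0 <;> simp_all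
    have h2 : Even q := (neg_one_pow_eq_one_iff_even (by norm_num)).1 h1.2
    have h3 : Odd s := by
      rw [hq.even_iff.1 h2] at hs
      exact Nat.not_even_iff_odd.1 fun h => hs h.two_dvd
    rw [h1.1, neg_one_mul, h3.neg_pow] at h
    have := h2.pow_nonneg y
    have := pow_pos hp s
    linarith
  · have := Fact.mk (hα i)
    have h1 : padicValRat (α i) ((u : ℚ) / u0 * apow α (lam - lam0)) = lam i - lam0 i := by
      rcases hv with e | e <;> simp [e, padicValRat_apow hα hinj]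
    have h2 := congrArg (padicValRat (α i)) h
    rw [padicValRat.pow, padicValRat.pow, h1] at h2
    exact ((Nat.prime_iff_prime_int.1 hq).dvd_or_dvd ⟨_, h2.symm⟩).resolve_left
      (by exact_mod_cast hs)

end LFL
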