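import Mathlib

set_option autoImplicit false

namespace LFL
open Finset

section
variable {F ι I : Type} [Field F] [Fintype ι] [DecidableEq ι]

/-- Vanishing for monomials gives vanishing for all polynomials. -/
theorem van_poly (i0 : ι) (s : Finset I) (c : I → ℕ → F) (m : I → ι → F)
    (hm : ∀ j ∈ s, m j i0 = 0) (T : ℕ)
    (h : ∀ t : ι → ℕ, ∑ i, t i ≤ T →
      ∑ j ∈ s, c j (t i0) * ∏ i ∈ univ.erase i0, m j i ^ t i = 0)
    (t0 : ℕ) (Q : MvPolynomial ι F) (hQ : t0 + Q.totalDegree ≤ T) :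
    ∑ j ∈ s, c j t0 * MvPolynomial.eval (m j) Q = 0 := by
  simp only [MvPolynomial.eval_eq', Finset.mul_sum]
  rw [Finset.sum_comm]
  apply Finset.sum_eq_zero
  intro e he
  by_cases h0 : e i0 = 0
  · have hdeg : ∑ i, e i ≤ Q.totalDegree := by
      have h1 := MvPolynomial.le_totalDegree he
      rwa [Finsupp.sum_fintype _ _ (fun _ => rfl)] at h1
    have hsum : ∑ i, Function.update e i0 t0 i ≤ T := by
      rw [Finset.sum_update_of_mem (Finset.mem_univ i0)]
      have : ∑ i ∈ univ \ {i0}, e i ≤ ∑ i, e i :=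
        Finset.sum_le_sum_of_subset (Finset.subset_univ _)
      omega
    have h2 := h _ hsum
    rw [Function.update_self] at h2
    have h3 : ∀ j ∈ s, c j t0 * (MvPolynomial.coeff e Q * ∏ i, m j i ^ e i) =
        MvPolynomial.coeff e Q *
          (c j t0 * ∏ i ∈ univ.erase i0, m j i ^ Function.update e i0 t0 i) := by
      intro j _
      rw [← Finset.mul_prod_erase univ (fun i => m j i ^ e i) (Finset.mem_univ i0), h0, pow_zero,
        one_mul]
      have : ∏ i ∈ univ.erase i0, m j i ^ Function.update e i0 t0 i =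
          ∏ i ∈ univ.erase i0, m j i ^ e i :=
        Finset.prod_congr rfl fun i hi => by
          rw [Function.update_of_ne (Finset.ne_of_mem_erase hi)]
      rw [this]
      ring
    rw [Finset.sum_congr rfl h3, ← Finset.mul_sum, h2, mul_zero]
  · apply Finset.sum_eq_zero
    intro j hj
    rw [Finset.prod_eq_zero (Finset.mem_univ i0) (by rw [hm j hj, zero_pow h0])]
    simp

theorem van_deg_prod (i0 : ι) (t : ι → ℕ) (P : ι → MvPolynomial ι F)
    (hP : ∀ i, (P i).totalDegree ≤ 1) :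
    t i0 + (∏ i ∈ univ.erase i0, P i ^ t i).totalDegree ≤ ∑ i, t i := by
  rw [← Finset.add_sum_erase univ t (Finset.mem_univ i0)]
  refine Nat.add_le_add_left ((MvPolynomial.totalDegree_finsetProd _ _).trans
    (Finset.sum_le_sum fun i _ => ?_)) _
  exact (MvPolynomial.totalDegree_pow _ _).trans (by simpa using Nat.mul_le_mul_left _ (hP i))

theorem van_lin (i0 : ι) (s : Finset I) (c : I → ℕ → F) (m : I → ι → F)
    (hm : ∀ j ∈ s, m j i0 = 0) (T : ℕ)
    (h : ∀ t : ι → ℕ, ∑ i, t i ≤ T →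
      ∑ j ∈ s, c j (t i0) * ∏ i ∈ univ.erase i0, m j i ^ t i = 0)
    (t : ι → ℕ) (a e : ℕ) (w : ι → F) (ht : ∑ i, t i + a + e ≤ T) :
    ∑ j ∈ s, c j (t i0 + a) * (∏ i ∈ univ.erase i0, m j i ^ t i) * (∑ i, w i * m j i) ^ e = 0 := by
  have h1 := van_deg_prod (F := F) i0 t (fun i => MvPolynomial.X i)
    (fun i => (MvPolynomial.totalDegree_X i).le)
  have h2 : (∑ i, MvPolynomial.C (w i) * MvPolynomial.X i : MvPolynomial ι F).totalDegree ≤ 1 := by
    apply MvPolynomial.totalDegree_finsetSum_le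
    intro i _
    exact (MvPolynomial.totalDegree_mul _ _).trans (by simp)
  have h3 : ((∑ i, MvPolynomial.C (w i) * MvPolynomial.X i : MvPolynomial ι F) ^ e).totalDegree
      ≤ e :=
    (MvPolynomial.totalDegree_pow _ _).trans (by simpa using Nat.mul_le_mul_left e h2)
  have h4 := MvPolynomial.totalDegree_mul
    (∏ i ∈ univ.erase i0, (MvPolynomial.X i : MvPolynomial ι F) ^ t i)
    ((∑ i, MvPolynomial.C (w i) * MvPolynomial.X i : MvPolynomial ι F) ^ e)
  have h5 := van_poly i0 s c m hm T h (t i0 + a)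
    ((∏ i ∈ univ.erase i0, (MvPolynomial.X i : MvPolynomial ι F) ^ t i) *
      (∑ i, MvPolynomial.C (w i) * MvPolynomial.X i : MvPolynomial ι F) ^ e) (by omega)
  simpa [mul_assoc] using h5

theorem van_aff (i0 : ι) (s : Finset I) (c : I → ℕ → F) (m : I → ι → F)
    (hm : ∀ j ∈ s, m j i0 = 0) (T : ℕ)
    (h : ∀ t : ι → ℕ, ∑ i, t i ≤ T →
      ∑ j ∈ s, c j (t i0) * ∏ i ∈ univ.erase i0, m j i ^ t i = 0)
    (t : ι → ℕ) (κ : F) (m0 : ι → F) (ht : ∑ i, t i ≤ T) :
    ∑ j ∈ s, c j (t i0) * ∏ i ∈ univ.erase i0, (κ * (m j i - m0 i)) ^ t i = 0 := by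
  have h1 := van_deg_prod (F := F) i0 t
    (fun i => MvPolynomial.C κ * (MvPolynomial.X i - MvPolynomial.C (m0 i))) (fun i => by
      refine (MvPolynomial.totalDegree_mul _ _).trans ?_
      rw [MvPolynomial.totalDegree_C, zero_add]
      exact (MvPolynomial.totalDegree_sub_C_le _ _).trans (MvPolynomial.totalDegree_X i).le)
  have h5 := van_poly i0 s c m hm T h (t i0) _ (h1.trans ht)
  simpa using h5

end

end LFL
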