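import Pool.Agent.P.MP_7aad9f_nt.LFL.BasicC
import Pool.Agent.P.MP_7aad9f_nt.LFL.Indep
import Pool.Agent.P.MP_7aad9f_nt.LFL.VanPoly

set_option autoImplicit false

namespace LFL
open Finset

section
variable {ι K : Type} [Fintype ι] [DecidableEq ι] [NormedField K] [CharZero K] [CompleteSpace K]

/-- The vector `lam0 + q lam'`. -/
def dscUp (c : Ctx ι K) (lam0 lam' : ι → ℤ) : ι → ℤ := lam0 + (c.q : ℤ) • lam'

/-- Membership in the class of `lam0`. -/
def dscCl (c : Ctx ι K) (st : St ι) (lam0 lam : ι → ℤ) : Prop :=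
  st.u lam = st.u lam0 ∧ ∀ i, (c.q : ℤ) ∣ lam i - lam0 i

open Classical in
/-- The auxiliary function at the next level. -/
noncomputable def dscSt (c : Ctx ι K) (st : St ι) (lam0 : ι → ℤ) : St ι where
  Ls := (st.Ls.filter (dscCl c st lam0)).image fun lam i => (lam i - lam0 i) / c.q
  P := fun lam' l => st.P (dscUp c lam0 lam') l * (c.q : ℤ) ^ (c.L0 - l)
  u := fun lam' => if ex (lin c.lg lam') = ((apow c.α lam' : ℚ) : K) then 1 else -1

variable {c : Ctx ι K} {st : St ι} {lam0 : ι → ℤ} {k : ℕ}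

omit [Fintype ι] [DecidableEq ι] [NormedField K] [CharZero K] [CompleteSpace K] in
theorem dscUp_dn {lam : ι → ℤ} (hl : dscCl c st lam0 lam) :
    dscUp c lam0 (fun i => (lam i - lam0 i) / c.q) = lam := by
  funext i
  simp only [dscUp, Pi.add_apply, Pi.smul_apply, smul_eq_mul]
  rw [Int.mul_ediv_cancel' (hl.2 i)]; ring

omit [Fintype ι] [DecidableEq ι] [NormedField K] [CharZero K] [CompleteSpace K] in
theorem dsc_dn_up (hq : c.q ≠ 0) (lam' : ι → ℤ) :
    (fun i => (dscUp c lam0 lam' i - lam0 i) / c.q) = lam' := by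
  funext i
  simp only [dscUp, Pi.add_apply, Pi.smul_apply, smul_eq_mul, add_sub_cancel_left]
  exact Int.mul_ediv_cancel_left _ (by exact_mod_cast hq)

omit [CompleteSpace K] in
theorem dsc_mem (hq : c.q ≠ 0) {lam' : ι → ℤ} :
    lam' ∈ (dscSt c st lam0).Ls ↔
      dscUp c lam0 lam' ∈ st.Ls ∧ dscCl c st lam0 (dscUp c lam0 lam') := by
  classical
  simp only [dscSt, mem_image, mem_filter]
  constructor
  · rintro ⟨lam, ⟨h1, h2⟩, rfl⟩
    rw [dscUp_dn h2]; exact ⟨h1, h2⟩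
  · rintro ⟨h1, h2⟩
    exact ⟨_, ⟨h1, h2⟩, dsc_dn_up hq lam'⟩

open Classical in
omit [CompleteSpace K] in
theorem dsc_sum {M : Type} [AddCommMonoid M] (hq : c.q ≠ 0) (f : (ι → ℤ) → M) :
    ∑ lam ∈ st.Ls.filter (dscCl c st lam0), f lam =
      ∑ lam' ∈ (dscSt c st lam0).Ls, f (dscUp c lam0 lam') := by
  refine Finset.sum_bij' (fun lam _ => fun i => (lam i - lam0 i) / c.q)
    (fun lam' _ => dscUp c lam0 lam') ?_ ?_ ?_ ?_ ?_
  · intro lam hl
    have h2 := mem_filter.1 hl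
    rw [dsc_mem hq, dscUp_dn h2.2]; exact h2
  · intro lam' hl
    exact mem_filter.2 ((dsc_mem hq).1 hl)
  · intro lam hl
    exact dscUp_dn (mem_filter.1 hl).2
  · intro lam' _
    exact dsc_dn_up hq lam'
  · intro lam hl
    rw [dscUp_dn (mem_filter.1 hl).2]

omit [DecidableEq ι] [CharZero K] [CompleteSpace K] in
theorem dsc_lin (lam' : ι → ℤ) :
    lin c.lg (dscUp c lam0 lam') = lin c.lg lam0 + lin c.lg lam' * (c.q : K) := by
  rw [dscUp, lin_add, lin_smul]; push_cast; ring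

omit [CompleteSpace K] in
theorem dsc_near (h : c.OK) (hg : c.Good k st) {a b : ι → ℤ} (ha : a ∈ (dscSt c st lam0).Ls)
    (hb : b ∈ (dscSt c st lam0).Ls) :
    ‖lin c.lg a - lin c.lg b‖ * ‖(c.q : K)‖ ^ (k + 1) ≤ c.a0 := by
  have hq := h.base.prime.ne_zero
  have h1 := hg.near _ ((dsc_mem hq).1 ha).1 _ ((dsc_mem hq).1 hb).1
  rw [dsc_lin, dsc_lin, add_sub_add_left_eq_sub, ← sub_mul, norm_mul] at h1
  rw [pow_succ', ← mul_assoc]; exact h1

omit [CompleteSpace K] in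
theorem dsc_zero (h : c.OK) (h0 : lam0 ∈ st.Ls) : (0 : ι → ℤ) ∈ (dscSt c st lam0).Ls := by
  rw [dsc_mem h.base.prime.ne_zero]
  have : dscUp c lam0 0 = lam0 := by simp [dscUp]
  rw [this]
  exact ⟨h0, rfl, fun i => by simp⟩

omit [CompleteSpace K] in
theorem dsc_norm (h : c.OK) (hg : c.Good k st) (h0 : lam0 ∈ st.Ls) {a : ι → ℤ}
    (ha : a ∈ (dscSt c st lam0).Ls) : ‖lin c.lg a‖ * ‖(c.q : K)‖ ^ (k + 1) ≤ c.a0 := by
  have := dsc_near h hg ha (dsc_zero h h0)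
  rwa [lin_zero, sub_zero] at this

omit [CompleteSpace K] in
theorem dsc_ne (h : c.OK) (hg : c.Good k st) {lam : ι → ℤ} (hl : lam ∈ st.Ls) :
    (st.u lam : ℚ) * apow c.α lam ≠ 0 := by
  refine mul_ne_zero ?_ (apow_pos (fun i => (h.prime i).pos) lam).ne'
  rcases (hg.sign lam hl).1 with h1 | h1 <;> rw [h1] <;> norm_num

theorem dsc_root (h : c.OK) (hg : c.Good k st) (h0 : lam0 ∈ st.Ls) {a : ι → ℤ}
    (ha : a ∈ (dscSt c st lam0).Ls) :
    (ex (lin c.lg a) / ((apow c.α a : ℚ) : K)) ^ c.q = 1 := by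
  have hq := h.base.prime.ne_zero
  have hp : ∀ i, 0 < c.α i := fun i => (h.prime i).pos
  obtain ⟨h1, h2⟩ := (dsc_mem hq).1 ha
  have h3 := hg.exp_eq _ h1
  have c1 : Conv (lin c.lg lam0) := by
    have := h.conv_nat (hg.norm_lin h0) 1
    rwa [Nat.cast_one, mul_one] at this
  rw [dsc_lin, ex_add c1 (h.conv_nat (dsc_norm h hg h0 ha) c.q),
    h.ex_mul_nat (dsc_norm h hg h0 ha), hg.exp_eq _ h0, h2.1, dscUp, apow_add hp, apow_smul,
    zpow_natCast, ← mul_assoc, Rat.cast_mul (_ * _), Rat.cast_pow] at h3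
  have h4 := mul_left_cancel₀ (Rat.cast_ne_zero.2 (dsc_ne h hg h0)) h3
  have h5 : ((apow c.α a : ℚ) : K) ≠ 0 := Rat.cast_ne_zero.2 (apow_pos hp a).ne'
  rw [div_pow, h4, div_self (pow_ne_zero _ h5)]

theorem dsc_sign (h : c.OK) (hg : c.Good k st) (h0 : lam0 ∈ st.Ls) {a : ι → ℤ}
    (ha : a ∈ (dscSt c st lam0).Ls) :
    (((dscSt c st lam0).u a = 1 ∨ (dscSt c st lam0).u a = -1) ∧
      (dscSt c st lam0).u a ^ c.q = 1) ∧
    ex (lin c.lg a) = ((((dscSt c st lam0).u a : ℚ) * apow c.α a : ℚ) : K) := by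
  have h1 := dsc_root h hg h0 ha
  have h5 : ((apow c.α a : ℚ) : K) ≠ 0 :=
    Rat.cast_ne_zero.2 (apow_pos (fun i => (h.prime i).pos) a).ne'
  by_cases he : ex (lin c.lg a) = ((apow c.α a : ℚ) : K)
  · have : (dscSt c st lam0).u a = 1 := if_pos he
    rw [this]
    exact ⟨⟨Or.inl rfl, one_pow _⟩, by rw [he]; simp⟩
  · have : (dscSt c st lam0).u a = -1 := if_neg he
    rw [this]
    rcases h.base.roots _ h1 with h2 | h2
    · exact absurd ((div_eq_one_iff_eq h5).1 h2) he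
    · rw [h2] at h1
      refine ⟨⟨Or.inr rfl, ?_⟩, ?_⟩
      · have h3 : (((-1 : ℤ) ^ c.q : ℤ) : K) = ((1 : ℤ) : K) := by push_cast; exact h1
        exact Int.cast_injective h3
      · rw [div_eq_iff h5] at h2
        rw [h2]; push_cast; ring

theorem dsc_good (h : c.OK) (hg : c.Good k st) (h0 : lam0 ∈ st.Ls) {l0 : ℕ} (hl0 : l0 ≤ c.L0)
    (hP : st.P lam0 l0 ≠ 0) : c.Good (k + 1) (dscSt c st lam0) := by
  classical
  have hq := h.base.prime.ne_zero
  have hq1 : (1 : ℝ) ≤ c.q := by exact_mod_cast h.base.prime.one_le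
  refine ⟨dsc_zero h h0, ⟨0, dsc_zero h h0, l0, hl0, ?_⟩, fun a ha b hb i => ?_,
    fun a ha b hb => dsc_near h hg ha hb, fun a ha => (dsc_sign h hg h0 ha).1,
    fun a ha => (dsc_sign h hg h0 ha).2, ?_⟩
  · have : dscUp c lam0 0 = lam0 := by simp [dscUp]
    simp only [dscSt, this]
    exact mul_ne_zero hP (pow_ne_zero _ (by exact_mod_cast hq))
  · have h1 := hg.diam _ ((dsc_mem hq).1 ha).1 _ ((dsc_mem hq).1 hb).1 i
    have h2 : dscUp c lam0 a i - dscUp c lam0 b i = (c.q : ℤ) * (a i - b i) := by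
      simp only [dscUp, Pi.add_apply, Pi.smul_apply, smul_eq_mul]; ring
    rw [h2, Int.cast_mul, abs_mul, Int.cast_natCast, Nat.abs_cast] at h1
    refine le_trans (le_of_eq ?_) h1
    ring
  · have h1 : ∑ a ∈ (dscSt c st lam0).Ls, ∑ l ∈ range (c.L0 + 1),
        |((dscSt c st lam0).P a l : ℝ)| ≤ ∑ a ∈ (dscSt c st lam0).Ls,
          (∑ l ∈ range (c.L0 + 1), |(st.P (dscUp c lam0 a) l : ℝ)|) * (c.q : ℝ) ^ c.L0 := by
      refine sum_le_sum fun a _ => ?_
      rw [sum_mul]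
      refine sum_le_sum fun l _ => ?_
      simp only [dscSt]
      rw [Int.cast_mul, abs_mul, Int.cast_pow, Int.cast_natCast, abs_pow, Nat.abs_cast]
      exact mul_le_mul_of_nonneg_left (pow_le_pow_right₀ hq1 (Nat.sub_le _ _)) (abs_nonneg _)
    refine h1.trans ?_
    rw [← sum_mul, ← dsc_sum hq fun lam => ∑ l ∈ range (c.L0 + 1), |(st.P lam l : ℝ)|]
    have h2 : ∑ lam ∈ st.Ls.filter (dscCl c st lam0), ∑ l ∈ range (c.L0 + 1), |(st.P lam l : ℝ)| ≤
        c.P1 * (c.q : ℝ) ^ (k * c.L0) :=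
      (sum_le_sum_of_subset_of_nonneg (filter_subset _ _) fun _ _ _ =>
        sum_nonneg fun _ _ => abs_nonneg _).trans hg.size
    refine (mul_le_mul_of_nonneg_right h2 (by positivity)).trans (le_of_eq ?_)
    rw [add_mul, one_mul, pow_add, mul_assoc]

/-- The polynomial part of the auxiliary function at `s / q`. -/
def dscCf (c : Ctx ι K) (st : St ι) (s : ℕ) (lam : ι → ℤ) (t0 : ℕ) : ℚ :=
  ∑ l ∈ range (c.L0 + 1), (st.P lam l : ℚ) * (l.choose t0 : ℚ) * ((s : ℚ) / c.q) ^ (l - t0)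

omit [CompleteSpace K] in
theorem dsc_Fn (t : ι → ℕ) (s : ℕ) : c.Fn st t ((s : K) / c.q) =
    ∑ lam ∈ st.Ls, ((dscCf c st s lam (t c.i0) * (c.mon t lam : ℚ) : ℚ) : K) *
      ex (lin c.lg lam * ((s : K) / c.q)) := by
  unfold Ctx.Fn dscCf
  refine sum_congr rfl fun lam _ => ?_
  push_cast
  rw [sum_mul, sum_mul]

theorem dsc_class (h : c.OK) (hg : c.Good k st) (h0 : lam0 ∈ st.Ls) {s : ℕ} (hs : ¬ c.q ∣ s)
    {t : ι → ℕ} (hz : c.Fn st t ((s : K) / c.q) = 0) :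
    ∑ a ∈ (dscSt c st lam0).Ls, dscCf c st s (dscUp c lam0 a) (t c.i0) *
      (((dscSt c st lam0).u a : ℚ) * apow c.α a) ^ s * (c.mon t (dscUp c lam0 a) : ℚ) = 0 := by
  classical
  have hq := h.base.prime.ne_zero
  have hqK : (c.q : K) ≠ 0 := by exact_mod_cast hq
  set E : (ι → ℤ) → K := fun lam => ex (lin c.lg lam * ((s : K) / c.q)) with hE
  have hEq : ∀ lam ∈ st.Ls, E lam ^ c.q = ((((st.u lam : ℚ) * apow c.α lam) ^ s : ℚ) : K) := by
    intro lam hl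
    rw [hE]
    simp only
    rw [h.ex_div_pow (hg.norm_lin hl), hg.exp_eq _ hl, Rat.cast_pow]
  have hE0 : E lam0 ≠ 0 := fun h1 => by
    have h2 := hEq lam0 h0
    rw [h1, zero_pow hq] at h2
    exact pow_ne_zero s (dsc_ne h hg h0) (Rat.cast_eq_zero.1 h2.symm)
  have hEup : ∀ a ∈ (dscSt c st lam0).Ls, E (dscUp c lam0 a) =
      E lam0 * (((((dscSt c st lam0).u a : ℚ) * apow c.α a) ^ s : ℚ) : K) := by
    intro a ha
    have h1 : lin c.lg (dscUp c lam0 a) * ((s : K) / c.q) =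
        lin c.lg lam0 * ((s : K) / c.q) + lin c.lg a * s := by
      rw [dsc_lin]; field_simp
    rw [hE]
    simp only
    rw [h1, ex_add (h.conv (hg.norm_lin h0) s) (h.conv_nat (dsc_norm h hg h0 ha) s),
      h.ex_mul_nat (dsc_norm h hg h0 ha), (dsc_sign h hg h0 ha).2, Rat.cast_pow]
  rw [dsc_Fn, ← sum_filter_add_sum_filter_not _ (dscCl c st lam0), dsc_sum hq] at hz
  refine trace_extract (F := K) h.base.prime (st.Ls.filter fun lam => ¬ dscCl c st lam0 lam)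
    (fun lam => dscCf c st s lam (t c.i0) * (c.mon t lam : ℚ)) (fun lam => E lam / E lam0)
    (fun lam => (((st.u lam : ℚ) * apow c.α lam) / ((st.u lam0 : ℚ) * apow c.α lam0)) ^ s)
    (fun lam hl => ?_) (fun lam hl y => ?_) _ ?_
  · rw [div_pow, hEq _ (mem_filter.1 hl).1, hEq _ h0, div_pow, Rat.cast_div]
  · exact not_pow h.base.prime c.α h.prime h.inj lam lam0 _ _ (hg.sign _ (mem_filter.1 hl).1)
      (hg.sign _ h0) s hs (mem_filter.1 hl).2 y
  · refine mul_left_cancel₀ hE0 ?_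
    rw [mul_zero, ← hz, mul_add, Rat.cast_sum, mul_sum, mul_sum]
    congr 1
    · refine sum_congr rfl fun a ha => ?_
      have := hEup a ha
      simp only [hE] at this ⊢
      rw [this]; push_cast; ring
    · refine sum_congr rfl fun lam _ => ?_
      have : E lam0 * (E lam / E lam0) = E lam := by field_simp
      rw [mul_left_comm, this]

theorem dsc_van (h : c.OK) (hg : c.Good k st) (h0 : lam0 ∈ st.Ls) (T' S1 : ℕ)
    (hz : ∀ s : ℕ, 1 ≤ s → s ≤ S1 → ¬ c.q ∣ s → ∀ t : ι → ℕ, ∑ i, t i ≤ T' →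
      c.Fn st t ((s : K) / c.q) = 0) : c.Van (dscSt c st lam0) T' S1 := by
  intro s h1 h2 h3 t ht
  have hq : (c.q : ℚ) ≠ 0 := by exact_mod_cast h.base.prime.ne_zero
  have h4 := van_aff (F := ℚ) c.i0 (dscSt c st lam0).Ls
    (fun a t0 => dscCf c st s (dscUp c lam0 a) t0 *
      (((dscSt c st lam0).u a : ℚ) * apow c.α a) ^ s)
    (fun a i => (c.mu (dscUp c lam0 a) i : ℚ)) (fun a _ => by rw [Ctx.mu_i0]; simp) T'
    (fun t' ht' => by
      have := dsc_class h hg h0 h3 (hz s h1 h2 h3 t' ht')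
      simpa only [Ctx.mon, Int.cast_prod, Int.cast_pow] using this)
    t (1 / c.q) (fun i => (c.mu lam0 i : ℚ)) ht
  have h5 : ∀ a i, 1 / (c.q : ℚ) * ((c.mu (dscUp c lam0 a) i : ℚ) - (c.mu lam0 i : ℚ)) =
      (c.mu a i : ℚ) := by
    intro a i
    simp only [Ctx.mu, dscUp, Pi.add_apply, Pi.smul_apply, smul_eq_mul]
    push_cast
    field_simp
    ring
  simp only [h5] at h4
  have h6 := congrArg (fun x => (c.q : ℚ) ^ (c.L0 - t c.i0) * x) h4
  simp only [mul_zero] at h6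
  rw [← h6, mul_sum]
  unfold Ctx.Phi
  refine sum_congr rfl fun a _ => ?_
  unfold dscCf
  rw [sum_mul, sum_mul, mul_sum]
  refine sum_congr rfl fun l hl => ?_
  have hl' : l ≤ c.L0 := Nat.lt_succ_iff.1 (mem_range.1 hl)
  have hm : (c.mon t a : ℚ) = ∏ i ∈ univ.erase c.i0, (c.mu a i : ℚ) ^ t i := by
    simp only [Ctx.mon, Int.cast_prod, Int.cast_pow]
  have hP : ((dscSt c st lam0).P a l : ℚ) =
      (st.P (dscUp c lam0 a) l : ℚ) * (c.q : ℚ) ^ (c.L0 - l) := by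
    simp only [dscSt]; push_cast; ring
  rw [hm, hP]
  rcases lt_or_ge l (t c.i0) with h7 | h7
  · rw [Nat.choose_eq_zero_of_lt h7]; simp
  · have h8 : c.L0 - t c.i0 = (c.L0 - l) + (l - t c.i0) := by omega
    rw [h8, pow_add, div_pow]
    field_simp

end

/-- The Kummer descent from level `k` to level `k + 1`. -/
theorem descent {ι K : Type} [Fintype ι] [DecidableEq ι] [NormedField K] [CharZero K]
    [CompleteSpace K] (c : Ctx ι K) (h : c.OK) {k : ℕ} (st : St ι) (hg : c.Good k st)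
    (T' S1 : ℕ)
    (hz : ∀ s : ℕ, 1 ≤ s → s ≤ S1 → ¬ c.q ∣ s → ∀ t : ι → ℕ, ∑ i, t i ≤ T' →
      c.Fn st t ((s : K) / c.q) = 0) :
    ∃ st' : St ι, c.Good (k + 1) st' ∧ c.Van st' T' S1 := by
  obtain ⟨lam0, h0, l0, hl0, hP⟩ := hg.ne
  exact ⟨dscSt c st lam0, dsc_good h hg h0 hl0 hP, dsc_van h hg h0 T' S1 hz⟩

end LFL
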