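import Pool.Agent.P.MP_7aad9f_nt.LFL.Defs

set_option autoImplicit false

namespace LFL
open Finset

theorem liou_seq {K : Type} [NormedField K] {q : ℕ} (hK : Base K q) (ξ : K) (hξ : ξ ≠ 0)
    (h1 : ‖ξ‖ ≤ 1) (B : ℝ) : ∀ (n : ℕ) (a : ℕ → ℤ), (∃ k < n, a k ≠ 0) →
      ∑ k ∈ range n, (a k : K) * ξ ^ k = 0 → ∑ k ∈ range n, |(a k : ℝ)| ≤ B →
      1 ≤ ‖ξ‖ * B ^ 2 := by
  intro n
  induction n with
  | zero => rintro a ⟨k, hk, -⟩; omega
  | succ n ih =>
    rintro a ⟨k, hk, hak⟩ hs hB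
    rw [sum_range_succ'] at hs hB
    have hs' : ξ * ∑ k ∈ range n, (a (k + 1) : K) * ξ ^ k + a 0 = 0 := by
      rw [mul_sum]
      rw [← hs]
      simp only [pow_zero, mul_one]
      congr 1
      refine sum_congr rfl fun k _ => ?_
      ring
    have hnn : 0 ≤ ∑ k ∈ range n, |(a (k + 1) : ℝ)| := sum_nonneg fun _ _ => abs_nonneg _
    by_cases h0 : a 0 = 0
    · refine ih (fun k => a (k + 1)) ?_ ?_ ?_
      · cases k with
        | zero => exact absurd h0 hak
        | succ k => exact ⟨k, by omega, hak⟩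
      · rw [h0] at hs'
        simpa [hξ] using hs'
      · have := abs_nonneg (a 0 : ℝ)
        linarith
    · have e1 : ((a 0 : ℤ) : K) = -(ξ * ∑ k ∈ range n, (a (k + 1) : K) * ξ ^ k) := by
        linear_combination hs'
      have e2 : ‖∑ k ∈ range n, (a (k + 1) : K) * ξ ^ k‖ ≤ ∑ k ∈ range n, |(a (k + 1) : ℝ)| := by
        refine (norm_sum_le _ _).trans (sum_le_sum fun k _ => ?_)
        rw [norm_mul, norm_pow]
        have h2 : ‖ξ‖ ^ k ≤ 1 := pow_le_one₀ (norm_nonneg _) h1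
        have h3 := hK.norm_le (a (k + 1))
        calc ‖((a (k + 1) : ℤ) : K)‖ * ‖ξ‖ ^ k ≤ ‖((a (k + 1) : ℤ) : K)‖ * 1 :=
              mul_le_mul_of_nonneg_left h2 (norm_nonneg _)
          _ ≤ _ := by linarith
      have hab := abs_nonneg (a 0 : ℝ)
      have e3 : ‖((a 0 : ℤ) : K)‖ ≤ ‖ξ‖ * B := by
        rw [e1, norm_neg, norm_mul]
        exact mul_le_mul_of_nonneg_left (by linarith) (norm_nonneg _)
      have e4 : |(a 0 : ℝ)| ≤ B := by linarith
      have e5 := hK.norm_ge (a 0) h0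
      calc (1 : ℝ) ≤ ‖((a 0 : ℤ) : K)‖ * |(a 0 : ℝ)| := e5
        _ ≤ (‖ξ‖ * B) * B := mul_le_mul e3 e4 hab (le_trans (norm_nonneg _) e3)
        _ = ‖ξ‖ * B ^ 2 := by ring

theorem charpoly_root {R d : Type} [Field R] [Fintype d] [DecidableEq d] (M : Matrix d d ℤ)
    (z : R) : (M.charpoly.map (Int.castRingHom R)).eval z = 0 ↔
      ∃ v : d → R, v ≠ 0 ∧ ∀ i, ∑ j, (M i j : R) * v j = z * v i := by
  rw [← Matrix.charpoly_map, Matrix.eval_charpoly, ← Matrix.exists_mulVec_eq_zero_iff]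
  refine exists_congr fun v => and_congr Iff.rfl ?_
  rw [Matrix.sub_mulVec, sub_eq_zero, funext_iff]
  refine forall_congr' fun i => ?_
  have e1 : (Matrix.scalar d z).mulVec v i = z * v i := by
    simp [Matrix.scalar_apply, Matrix.mulVec_diagonal]
  have e2 : (M.map (Int.castRingHom R)).mulVec v i = ∑ j, (M i j : R) * v j := by
    simp [Matrix.mulVec, dotProduct]
  rw [e1, e2]
  exact eq_comm

theorem charpoly_coeff_sum {d : Type} [Fintype d] [DecidableEq d] (M : Matrix d d ℤ) (h : ℝ)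
    (hh : ∀ i, ∑ j, |(M i j : ℝ)| ≤ h) :
    ∑ k ∈ range (Fintype.card d + 1), |(M.charpoly.coeff k : ℝ)| ≤ (1 + h) ^ Fintype.card d := by
  have hroots : ∀ z ∈ (M.charpoly.map (Int.castRingHom ℂ)).roots, ‖z‖ ≤ h := by
    intro z hz
    have hz' : (M.charpoly.map (Int.castRingHom ℂ)).eval z = 0 := (Polynomial.mem_roots'.1 hz).2
    obtain ⟨v, hv, hM⟩ := (charpoly_root M z).1 hz'
    obtain ⟨i0, hi0⟩ := Function.ne_iff.1 hv
    obtain ⟨i, -, hi⟩ := exists_max_image univ (fun i => ‖v i‖) ⟨i0, mem_univ _⟩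
    have hpos : 0 < ‖v i‖ := lt_of_lt_of_le (norm_pos_iff.2 hi0) (hi i0 (mem_univ _))
    have e1 : ‖z‖ * ‖v i‖ ≤ h * ‖v i‖ := by
      rw [← norm_mul, ← hM i]
      refine (norm_sum_le _ _).trans ?_
      refine le_trans ?_ (mul_le_mul_of_nonneg_right (hh i) hpos.le)
      rw [sum_mul]
      refine sum_le_sum fun j _ => ?_
      rw [norm_mul, Complex.norm_intCast]
      exact mul_le_mul_of_nonneg_left (hi j (mem_univ _)) (abs_nonneg _)
    exact le_of_mul_le_mul_right e1 hpos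
  have hc : ∀ k, |(M.charpoly.coeff k : ℝ)| ≤
      h ^ (Fintype.card d - k) * (Fintype.card d).choose k := by
    intro k
    have hm : (M.charpoly.map (Int.castRingHom ℂ)).Monic := M.charpoly_monic.map _
    have := Polynomial.coeff_le_of_roots_le (f := RingHom.id ℂ) (B := h) k hm
      (IsAlgClosed.splits _) (by simpa using hroots)
    rw [Polynomial.map_id, Polynomial.coeff_map, M.charpoly_monic.natDegree_map,
      Matrix.charpoly_natDegree_eq_dim] at this
    simpa [Complex.norm_intCast] using this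
  rw [add_pow]
  refine sum_le_sum fun k _ => ?_
  simpa using hc k

/-- Liouville inequality for an eigenvalue in `K` of an integer matrix. -/
theorem liouville_matrix {K d : Type} [NormedField K] [CharZero K] [Fintype d] [DecidableEq d]
    {q : ℕ} (hK : Base K q) (M : Matrix d d ℤ) (h : ℝ) (hh : ∀ i, ∑ j, |(M i j : ℝ)| ≤ h)
    (h0 : 0 ≤ h) (v : d → K) (hv : v ≠ 0) (ξ : K) (hξ : ξ ≠ 0)
    (hM : ∀ i, ∑ j, (M i j : K) * v j = ξ * v i) :
    1 ≤ ‖ξ‖ * (1 + h) ^ (2 * Fintype.card d) := by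
  by_cases h1 : ‖ξ‖ ≤ 1
  · have hr := (charpoly_root M ξ).2 ⟨v, hv, hM⟩
    have hdeg : (M.charpoly.map (Int.castRingHom K)).natDegree < Fintype.card d + 1 := by
      rw [M.charpoly_monic.natDegree_map, Matrix.charpoly_natDegree_eq_dim]
      omega
    rw [Polynomial.eval_eq_sum_range' hdeg] at hr
    have := liou_seq hK ξ hξ h1 ((1 + h) ^ Fintype.card d) (Fintype.card d + 1)
      (fun k => M.charpoly.coeff k) ⟨Fintype.card d, by omega, ?_⟩ (by simpa using hr)
      (charpoly_coeff_sum M h hh)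
    · rwa [← pow_mul, mul_comm (Fintype.card d) 2] at this
    · have hm := M.charpoly_monic
      rw [Polynomial.Monic, Polynomial.leadingCoeff, Matrix.charpoly_natDegree_eq_dim] at hm
      simp [hm]
  · have h2 : (1 : ℝ) ≤ (1 + h) ^ (2 * Fintype.card d) := one_le_pow₀ (by linarith)
    nlinarith [not_le.1 h1]

/-- Liouville inequality for an integer combination of `q`-th roots of `± ∏ α i ^ r i`. -/
theorem liouville_roots {K ι I : Type} [NormedField K] [CharZero K] [Fintype ι] [DecidableEq ι]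
    {q : ℕ} (hK : Base K q) (α : ι → ℕ) (hα : ∀ i, 0 < α i) (s : Finset I) (c : I → ℤ)
    (x : I → K)
    (hx : ∀ j ∈ s, ∃ e : ℤ, (e = 1 ∨ e = -1) ∧ ∃ r : ι → ℕ, (∀ i, r i < q) ∧
      x j ^ q = (e : K) * ∏ i, (α i : K) ^ r i)
    (H : ℝ) (hH : ∑ j ∈ s, |(c j : ℝ)| ≤ H) (hξ : ∑ j ∈ s, (c j : K) * x j ≠ 0) :
    1 ≤ ‖∑ j ∈ s, (c j : K) * x j‖ * (1 + H * ∏ i, (α i : ℝ)) ^ (4 * q ^ (Fintype.card ι + 1)) := by
  classical
  have hq : 0 < q := hK.prime.pos
  -- the finite set of roots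
  let P : K → Prop := fun y => ∃ e : ℤ, (e = 1 ∨ e = -1) ∧ ∃ r : ι → ℕ, (∀ i, r i < q) ∧
      y ^ q = (e : K) * ∏ i, (α i : K) ^ r i
  let Γ : Finset K := (({1, -1} : Finset ℤ) ×ˢ Fintype.piFinset fun _ : ι => range q).biUnion
    fun er => (Polynomial.nthRoots q ((er.1 : K) * ∏ i, (α i : K) ^ er.2 i)).toFinset
  have hΓ : ∀ y, y ∈ Γ ↔ P y := by
    intro y
    simp only [Γ, P, mem_biUnion, mem_product, mem_insert, mem_singleton, Fintype.mem_piFinset,
      mem_range, Multiset.mem_toFinset, Polynomial.mem_nthRoots hq, Prod.exists]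
    constructor
    · rintro ⟨e, r, ⟨he, hr⟩, hy⟩
      exact ⟨e, he, r, hr, hy⟩
    · rintro ⟨e, he, r, hr, hy⟩
      exact ⟨e, r, ⟨he, hr⟩, hy⟩
  have hcard : Γ.card ≤ 2 * q ^ (Fintype.card ι + 1) := by
    refine (card_biUnion_le_card_mul _ _ q fun er _ => ?_).trans ?_
    · exact (Multiset.toFinset_card_le _).trans (Polynomial.card_nthRoots _ _)
    · rw [card_product, Fintype.card_piFinset]
      simp only [card_range, prod_const, card_univ]
      rw [pow_succ, mul_assoc]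
      exact Nat.mul_le_mul_right _ (card_le_two)
  have hαK : ∀ i, (α i : K) ≠ 0 := fun i => Nat.cast_ne_zero.2 (hα i).ne'
  have key : ∀ y y' : K, P y → P y' → ∃ m : ℕ, m ≤ ∏ i, α i ∧ ∃ z, P z ∧ y * y' = m * z := by
    rintro y y' ⟨e, he, r, hr, hy⟩ ⟨e', he', r', hr', hy'⟩
    refine ⟨∏ i, α i ^ ((r i + r' i) / q), ?_, y * y' / ∏ i, (α i : K) ^ ((r i + r' i) / q),
      ⟨e * e', ?_, fun i => (r i + r' i) % q, fun i => Nat.mod_lt _ hq, ?_⟩, ?_⟩
    · refine prod_le_prod' fun i _ => ?_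
      have h2 : (r i + r' i) / q ≤ 1 := by
        have : (r i + r' i) / q < 2 := by
          rw [Nat.div_lt_iff_lt_mul hq]
          have := hr i
          have := hr' i
          omega
        omega
      calc α i ^ ((r i + r' i) / q) ≤ α i ^ 1 := Nat.pow_le_pow_right (hα i) h2
        _ = α i := pow_one _
    · rcases he with rfl | rfl <;> rcases he' with rfl | rfl <;> simp
    · have hne : (∏ i, (α i : K) ^ ((r i + r' i) / q)) ^ q ≠ 0 :=
        pow_ne_zero _ (prod_ne_zero_iff.2 fun i _ => pow_ne_zero _ (hαK i))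
      rw [div_pow, div_eq_iff hne, mul_pow, hy, hy', ← prod_pow]
      have : (∏ i, (α i : K) ^ r i) * ∏ i, (α i : K) ^ r' i =
          (∏ i, (α i : K) ^ ((r i + r' i) % q)) * ∏ i, ((α i : K) ^ ((r i + r' i) / q)) ^ q := by
        rw [← prod_mul_distrib, ← prod_mul_distrib]
        refine prod_congr rfl fun i _ => ?_
        rw [← pow_mul, ← pow_add, ← pow_add, Nat.mod_add_div']
      push_cast
      linear_combination (e : K) * (e' : K) * this
    · have hne : (∏ i, (α i : K) ^ ((r i + r' i) / q)) ≠ 0 :=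
        prod_ne_zero_iff.2 fun i _ => pow_ne_zero _ (hαK i)
      push_cast
      field_simp
  have key2 : ∀ j : I, ∀ y : Γ, ∃ m : ℕ, ∃ z : Γ, j ∈ s → m ≤ ∏ i, α i ∧
      x j * (y : K) = m * (z : K) := by
    intro j y
    by_cases hj : j ∈ s
    · obtain ⟨m, hm, z, hz, e⟩ := key (x j) y (hx j hj) ((hΓ _).1 y.2)
      exact ⟨m, ⟨z, (hΓ _).2 hz⟩, fun _ => ⟨hm, e⟩⟩
    · exact ⟨0, y, fun h => absurd h hj⟩
  choose m z hmz using key2
  have hH0 : 0 ≤ H := le_trans (sum_nonneg fun _ _ => abs_nonneg _) hH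
  have hA0 : 0 ≤ ∏ i, (α i : ℝ) := prod_nonneg fun _ _ => Nat.cast_nonneg _
  have h1 : (1 : K) ∈ Γ := (hΓ _).2 ⟨1, Or.inl rfl, fun _ => 0, fun _ => hq, by simp⟩
  let M : Matrix Γ Γ ℤ := fun y w => ∑ j ∈ s, if z j y = w then c j * m j y else 0
  have main := liouville_matrix hK M (H * ∏ i, (α i : ℝ)) ?_ (mul_nonneg hH0 hA0)
    (fun y => (y : K)) ?_ _ hξ ?_
  · refine main.trans (mul_le_mul_of_nonneg_left ?_ (norm_nonneg _))
    refine pow_le_pow_right₀ (by nlinarith [mul_nonneg hH0 hA0]) ?_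
    rw [Fintype.card_coe]
    omega
  · intro y
    calc ∑ w, |(M y w : ℝ)|
        ≤ ∑ w, ∑ j ∈ s, if z j y = w then |(c j : ℝ)| * ∏ i, (α i : ℝ) else 0 := by
          refine sum_le_sum fun w _ => ?_
          simp only [M]
          push_cast
          refine (abs_sum_le_sum_abs _ _).trans (sum_le_sum fun j hj => ?_)
          split_ifs
          · rw [abs_mul, Nat.abs_cast]
            refine mul_le_mul_of_nonneg_left ?_ (abs_nonneg _)
            exact_mod_cast (hmz j y hj).1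
          · simp
      _ = ∑ j ∈ s, |(c j : ℝ)| * ∏ i, (α i : ℝ) := by
          rw [sum_comm]
          refine sum_congr rfl fun j _ => ?_
          simp
      _ ≤ H * ∏ i, (α i : ℝ) := by
          rw [← sum_mul]
          exact mul_le_mul_of_nonneg_right hH hA0
  · intro h
    have := congrFun h ⟨1, h1⟩
    simp at this
  · intro y
    simp only [M]
    push_cast
    simp only [sum_mul]
    rw [sum_comm]
    refine sum_congr rfl fun j hj => ?_
    rw [mul_assoc, (hmz j y hj).2]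
    simp only [ite_mul, zero_mul]
    rw [sum_ite_eq]
    simp [mul_assoc]

end LFL
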