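import Pool.Agent.P.MP_7aad9f_nt.LFL.Upper
import Pool.Agent.P.MP_7aad9f_nt.LFL.Liou

set_option autoImplicit false

namespace LFL
open Finset

namespace KummerA

theorem abs_ediv_le {q s S0 : ℕ} (hq : 0 < q) (hs : s ≤ q * S0) (a : ℤ) :
    |(s : ℤ) * a / q| ≤ S0 * |a| := by
  have hq' : (0 : ℤ) < q := by exact_mod_cast hq
  have h1 : |(s : ℤ) * a| ≤ S0 * |a| * q := by
    have h2 : (s : ℤ) ≤ q * S0 := by exact_mod_cast hs
    rw [abs_mul, Nat.abs_cast]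
    nlinarith [abs_nonneg a]
  rw [abs_le] at h1 ⊢
  exact ⟨Int.le_ediv_of_mul_le hq' (by linarith [h1.1]), Int.ediv_le_of_le_mul hq' h1.2⟩

theorem apow_split {ι : Type} [Fintype ι] {α : ι → ℕ} (hα : ∀ i, 0 < α i) {q : ℕ} (hq : 0 < q)
    (s : ℕ) (lam : ι → ℤ) : apow α lam ^ s = apow α (fun i => (s : ℤ) * lam i / q) ^ q *
      ∏ i, (α i : ℚ) ^ ((s : ℤ) * lam i % q).toNat := by
  unfold apow
  rw [← prod_pow, ← prod_pow, ← prod_mul_distrib]
  refine prod_congr rfl fun i _ => ?_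
  have h0 : (α i : ℚ) ≠ 0 := by exact_mod_cast (hα i).ne'
  have hq' : (q : ℤ) ≠ 0 := by exact_mod_cast hq.ne'
  rw [← zpow_natCast, ← zpow_natCast, ← zpow_natCast, ← zpow_mul, ← zpow_mul, ← zpow_add₀ h0,
    Int.toNat_of_nonneg (Int.emod_nonneg _ hq'), Int.ediv_mul_add_emod, mul_comm]

theorem pow_le_exp {a W : ℝ} (h0 : 0 ≤ a) (h : a ≤ Real.exp W) (m : ℕ) :
    a ^ m ≤ Real.exp (W * m) := by
  rw [mul_comm, Real.exp_nat_mul]
  exact pow_le_pow_left₀ h0 h m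

theorem count {q : ℕ} (hq : q ≤ 3) (n : ℕ) : 4 * q ^ (n + 1) + 1 ≤ 2 ^ (2 * n + 4) := by
  have h1 : q ^ n ≤ 4 ^ n := Nat.pow_le_pow_left (by omega) n
  have h2 : 0 < 4 ^ n := by positivity
  have h3 : q ^ n * q ≤ 4 ^ n * 3 := Nat.mul_le_mul h1 hq
  rw [pow_add 2, pow_mul, pow_succ]
  norm_num
  omega

end KummerA

open KummerA

section
variable {ι K : Type} [Fintype ι] [DecidableEq ι] [NormedField K] [CharZero K] [CompleteSpace K]

theorem liouville_kummer (c : Ctx ι K) (h : c.OK) {k : ℕ} (hk : k ≤ c.Kl) (st : St ι)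
    (hg : c.Good k st) (t : ι → ℕ) (ht : ∑ i, t i ≤ c.T) (S0 : ℕ)
    (hS : (S0 : ℝ) ≤ Real.exp c.W) (s : ℕ) (hs : s ≤ c.q * S0)
    (hne : c.Fn st t ((s : K) / c.q) ≠ 0) :
    Real.exp (-(2 ^ (2 * Fintype.card ι + 4) * (c.Y + 2 * S0 * c.H k))) ≤
      ‖c.Fn st t ((s : K) / c.q)‖ := by
  have hq : 0 < c.q := h.base.prime.pos
  have hqK : (c.q : K) ≠ 0 := by exact_mod_cast hq.ne'
  have hα : ∀ i, 0 < c.α i := fun i => (h.prime i).pos
  have hW := h.W2
  have hH := h.H_nonneg k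
  have hY0 := h.Y00
  have e3 : (3 : ℝ) ≤ Real.exp c.W := by linarith [Real.add_one_le_exp c.W]
  have q3 : (c.q : ℝ) ≤ 3 := by exact_mod_cast h.base.le3
  have hq2 : (c.q : ℝ) ≤ Real.exp (2 * c.W) :=
    (q3.trans e3).trans (Real.exp_le_exp.2 (by linarith))
  have hs2 : (s : ℝ) ≤ Real.exp (2 * c.W) := by
    have h1 : (s : ℝ) ≤ c.q * S0 := by exact_mod_cast hs
    rw [two_mul, Real.exp_add]
    exact h1.trans (mul_le_mul (q3.trans e3) hS (Nat.cast_nonneg _) (Real.exp_pos _).le)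
  obtain ⟨Den, hD0, hD1, hD⟩ := hg.exists_den h S0
  choose! m hm hm' using fun lam (hl : lam ∈ st.Ls) =>
    hD lam hl (fun i => (s : ℤ) * lam i / c.q) fun i => abs_ediv_le hq hs (lam i)
  have ha : ∀ v : ι → ℤ, ((apow c.α v : ℚ) : K) ≠ 0 := fun v => by
    exact_mod_cast (apow_pos hα v).ne'
  set x : (ι → ℤ) × ℕ → K := fun j => ex (lin c.lg j.1 * ((s : K) / c.q)) /
    ((apow c.α (fun i => (s : ℤ) * j.1 i / c.q) : ℚ) : K) with hx
  set cf : (ι → ℤ) × ℕ → ℤ := fun j => st.P j.1 j.2 * ((j.2.choose (t c.i0) : ℕ) *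
    ((s : ℤ) ^ (j.2 - t c.i0) * (c.q : ℤ) ^ (c.L0 - (j.2 - t c.i0))) * c.mon t j.1 * m j.1)
    with hcf
  have key : ∑ j ∈ st.Ls ×ˢ range (c.L0 + 1), (cf j : K) * x j =
      ((Den * c.q ^ c.L0 : ℕ) : K) * c.Fn st t ((s : K) / c.q) := by
    rw [sum_product, Ctx.Fn, mul_sum]
    refine sum_congr rfl fun lam hl => ?_
    rw [mul_sum]
    refine sum_congr rfl fun l hl' => ?_
    have h1 : (m lam : K) = Den * ((apow c.α (fun i => (s : ℤ) * lam i / c.q) : ℚ) : K) := by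
      have h2 := congrArg (fun y : ℚ => (y : K)) (hm lam hl)
      simpa using h2.symm
    have h2 : (c.q : K) ^ c.L0 = c.q ^ (l - t c.i0) * c.q ^ (c.L0 - (l - t c.i0)) := by
      rw [← pow_add, Nat.add_sub_cancel' (by have := mem_range.1 hl'; omega)]
    have h3 := ha fun i => (s : ℤ) * lam i / c.q
    simp only [hx, hcf]
    push_cast
    rw [h1, h2, div_pow]
    field_simp
  have hB : ∑ j ∈ st.Ls ×ˢ range (c.L0 + 1), |(cf j : ℝ)| ≤
      Real.exp (c.Y0 + (3 * c.W * c.L0 + 3 * c.W * c.T + 2 * S0 * c.H k)) := by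
    rw [Real.exp_add, sum_product]
    refine le_trans ?_ (mul_le_mul_of_nonneg_right (hg.size_le h hk) (Real.exp_pos _).le)
    rw [sum_mul]
    refine sum_le_sum fun lam hl => ?_
    rw [sum_mul]
    refine sum_le_sum fun l hl' => ?_
    have hl2 : l ≤ c.L0 := Nat.lt_succ_iff.1 (mem_range.1 hl')
    have h1 : (l.choose (t c.i0) : ℝ) ≤ Real.exp (c.W * c.L0) := by
      have h2 : l.choose (t c.i0) ≤ 2 ^ c.L0 :=
        (Nat.choose_le_two_pow _ _).trans (Nat.pow_le_pow_right two_pos hl2)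
      have h3 : (l.choose (t c.i0) : ℝ) ≤ 2 ^ c.L0 := by exact_mod_cast h2
      exact h3.trans (pow_le_exp zero_le_two (by linarith) _)
    have h2 : (s : ℝ) ^ (l - t c.i0) * (c.q : ℝ) ^ (c.L0 - (l - t c.i0)) ≤
        Real.exp (2 * c.W * c.L0) := by
      refine (mul_le_mul (pow_le_exp (Nat.cast_nonneg _) hs2 _)
        (pow_le_exp (Nat.cast_nonneg _) hq2 _) (by positivity) (Real.exp_pos _).le).trans ?_
      rw [← Real.exp_add, ← mul_add, ← Nat.cast_add, Nat.add_sub_cancel' (by omega)]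
    have h3 := h.mon_le (fun i => hg.abs_le_exp h hl i) ht
    simp only [hcf]
    push_cast
    rw [abs_mul, abs_mul, abs_mul, abs_of_nonneg (a := (l.choose (t c.i0) : ℝ) * _) (by positivity),
      Nat.abs_cast, show 3 * c.W * c.L0 = c.W * c.L0 + 2 * c.W * c.L0 by ring, Real.exp_add,
      Real.exp_add, Real.exp_add]
    have h4 := hm' lam hl
    gcongr
  have hx' : ∀ j ∈ st.Ls ×ˢ range (c.L0 + 1), ∃ e : ℤ, (e = 1 ∨ e = -1) ∧ ∃ r : ι → ℕ,
      (∀ i, r i < c.q) ∧ x j ^ c.q = (e : K) * ∏ i, (c.α i : K) ^ r i := by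
    intro j hj
    have hl := (mem_product.1 hj).1
    have hq' : (0 : ℤ) < c.q := by exact_mod_cast hq
    refine ⟨st.u j.1 ^ s, ?_, fun i => ((s : ℤ) * j.1 i % c.q).toNat, fun i => ?_, ?_⟩
    · rcases (hg.sign _ hl).1 with h1 | h1 <;> rw [h1]
      · exact Or.inl (one_pow _)
      · exact neg_one_pow_eq_or ℤ s
    · have h1 := Int.emod_lt_of_pos ((s : ℤ) * j.1 i) hq'
      have h2 := Int.emod_nonneg ((s : ℤ) * j.1 i) hq'.ne'
      beta_reduce
      omega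
    · have h1 := congrArg (fun y : ℚ => (y : K)) (apow_split hα hq s j.1)
      have h2 := ha fun i => (s : ℤ) * j.1 i / c.q
      simp only [hx]
      rw [div_pow, h.ex_div_pow (hg.norm_lin hl), hg.exp_eq _ hl]
      push_cast at h1 ⊢
      rw [mul_pow, h1]
      field_simp
  have hDK : ((Den * c.q ^ c.L0 : ℕ) : K) ≠ 0 := by
    exact_mod_cast (Nat.mul_pos hD0 (pow_pos hq _)).ne'
  have hL := liouville_roots h.base c.α hα _ cf x hx' _ hB (key ▸ mul_ne_zero hDK hne)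
  set A := c.Y + 2 * S0 * c.H k with hA
  have p1 : 0 ≤ c.W * c.L0 := by positivity
  have p2 : 0 ≤ c.W * c.T := by positivity
  have p3 : 0 ≤ S0 * c.H k := by positivity
  have hY : c.Y = c.Y0 + 4 * (c.W * c.L0) + 11 * (c.W * c.T) + 4 * c.W := by rw [Ctx.Y]; ring
  have b1 : ‖((Den * c.q ^ c.L0 : ℕ) : K)‖ ≤ Real.exp A := by
    refine (h.base.norm_nat_le _).trans ?_
    push_cast
    refine (mul_le_mul hD1 (pow_le_exp (Nat.cast_nonneg _) (q3.trans e3) _) (by positivity)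
      (Real.exp_pos _).le).trans ?_
    rw [← Real.exp_add, Real.exp_le_exp]
    linarith
  have b2 : ∏ i, (c.α i : ℝ) ≤ Real.exp c.W := by
    refine le_trans (le_of_eq ?_) (Real.exp_le_exp.2 h.AW)
    rw [Real.exp_sum]
    exact prod_congr rfl fun i _ => (Real.exp_log (by exact_mod_cast hα i)).symm
  have b3 : 1 + Real.exp (c.Y0 + (3 * c.W * c.L0 + 3 * c.W * c.T + 2 * S0 * c.H k)) *
      ∏ i, (c.α i : ℝ) ≤ Real.exp A := by
    set Z := c.Y0 + (3 * c.W * c.L0 + 3 * c.W * c.T + 2 * S0 * c.H k) with hZ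
    have h1 : Real.exp Z * ∏ i, (c.α i : ℝ) ≤ Real.exp (Z + c.W) := by
      rw [Real.exp_add Z]; gcongr
    have h2 : 1 ≤ Real.exp (Z + c.W) := Real.one_le_exp (by linarith)
    have h3 : Real.exp (Z + c.W) * Real.exp c.W ≤ Real.exp A := by
      rw [← Real.exp_add, Real.exp_le_exp]; linarith
    nlinarith
  have hA0 : 0 ≤ A := by linarith
  have b4 : A + A * (4 * c.q ^ (Fintype.card ι + 1) : ℕ) ≤ 2 ^ (2 * Fintype.card ι + 4) * A := by
    have h1 : ((4 * c.q ^ (Fintype.card ι + 1) : ℕ) : ℝ) + 1 ≤ 2 ^ (2 * Fintype.card ι + 4) := by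
      exact_mod_cast count h.base.le3 (Fintype.card ι)
    nlinarith
  rw [key, norm_mul] at hL
  rw [Real.exp_neg, inv_le_iff_one_le_mul₀ (Real.exp_pos _)]
  refine hL.trans ?_
  calc _ ≤ Real.exp A * ‖c.Fn st t ((s : K) / c.q)‖ *
        Real.exp (A * (4 * c.q ^ (Fintype.card ι + 1) : ℕ)) :=
        mul_le_mul (mul_le_mul_of_nonneg_right b1 (norm_nonneg _))
          (pow_le_exp (by positivity) b3 _) (by positivity) (by positivity)
    _ = ‖c.Fn st t ((s : K) / c.q)‖ *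
        Real.exp (A + A * (4 * c.q ^ (Fintype.card ι + 1) : ℕ)) := by rw [Real.exp_add A]; ring
    _ ≤ _ := mul_le_mul_of_nonneg_left (Real.exp_le_exp.2 b4) (norm_nonneg _)

/-- Extrapolation to the points `s / q`. -/
theorem kummer_zero (c : Ctx ι K) (h : c.OK) {k : ℕ} (hk : k ≤ c.Kl) (st : St ι)
    (hg : c.Good k st) (T' S0 S' τ : ℕ) (hT : T' + τ ≤ c.T) (hS1 : 1 ≤ S0)
    (hS' : S' = 2 ^ (2 * Fintype.card ι + 4) * S0)
    (hSW : 3 * Real.exp c.g * S' ≤ Real.exp c.W) (hv : c.Van st (T' + τ) S')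
    (h1 : (2 ^ (2 * Fintype.card ι + 4) + 1) * c.Y + 5 * S' * c.H k + 2 ≤ c.g * S' * τ / 2)
    (h2 : (2 ^ (2 * Fintype.card ι + 4) + 1) * c.Y + 3 * S' * c.H k + 4 * c.W * S' * τ + 1 ≤ c.U)
    (s : ℕ) (hs : s ≤ c.q * S0) (t : ι → ℕ) (ht : ∑ i, t i ≤ T') :
    c.Fn st t ((s : K) / c.q) = 0 := by
  by_contra hne
  have a1 : S0 ≤ S' := hS' ▸ Nat.le_mul_of_pos_left _ (by positivity)
  have a2 : (S0 : ℝ) ≤ Real.exp c.W := by
    have h3 : (S0 : ℝ) ≤ S' := by exact_mod_cast a1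
    have h4 := Real.one_le_exp h.g0
    have h5 : (0 : ℝ) ≤ S' := Nat.cast_nonneg _
    nlinarith
  have a3 : s ≤ 2 * c.q * S' := hs.trans (Nat.mul_le_mul (by omega) a1)
  have lo := liouville_kummer c h hk st hg t (by omega) S0 a2 s hs hne
  have up := upper c h hk st hg (T' + τ) S' τ hT (hS1.trans a1) hSW hv t (by omega) s a3
  have a4 : (S' : ℝ) = 2 ^ (2 * Fintype.card ι + 4) * S0 := by exact_mod_cast hS'
  set B := -(2 ^ (2 * Fintype.card ι + 4) * (c.Y + 2 * S0 * c.H k)) with hB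
  have a5 : B = -(2 ^ (2 * Fintype.card ι + 4) * c.Y + 2 * S' * c.H k) := by rw [hB, a4]; ring
  have u1 : Real.exp (c.Y + 3 * S' * c.H k + 1 - c.g * S' * τ / 2) ≤ Real.exp (B - 1) :=
    Real.exp_le_exp.2 (by linarith)
  have u2 : Real.exp (c.Y + S' * c.H k + 4 * c.W * S' * τ - c.U) ≤ Real.exp (B - 1) :=
    Real.exp_le_exp.2 (by linarith)
  have u3 : Real.exp B = Real.exp (B - 1) * Real.exp 1 := by rw [← Real.exp_add, sub_add_cancel]
  have u4 := Real.add_one_lt_exp (one_ne_zero (α := ℝ))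
  nlinarith [Real.exp_pos (B - 1)]

end

end LFL
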