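import Pool.Agent.P.MP_7aad9f_nt.LFL.Double
import Pool.Agent.P.MP_7aad9f_nt.LFL.Kummer
import Pool.Agent.P.MP_7aad9f_nt.LFL.Descent

set_option autoImplicit false

namespace LFL
open Finset

section
variable {ι K : Type} [Fintype ι] [DecidableEq ι] [NormedField K] [CharZero K] [CompleteSpace K]

theorem level (c : Ctx ι K) (h : c.OK) {k : ℕ} (hk : k ≤ c.Kl) (st : St ι) (hg : c.Good k st)
    (T' S0 τ : ℕ) (hT : T' + (2 * Fintype.card ι + 5) * τ ≤ c.T) (hS1 : 1 ≤ S0)
    (hv : c.Van st (T' + (2 * Fintype.card ι + 5) * τ) S0)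
    (h1 : 36 * c.H k ≤ c.g * τ) (h2 : 8 * c.Y + 8 ≤ c.g * S0 * τ)
    (h3 : 2 ^ (2 * Fintype.card ι + 4) * (2 * c.Y + 7 * S0 * c.H k + 4 * c.W * S0 * τ) + 1 ≤ c.U)
    (h4 : 3 * Real.exp c.g * (2 ^ (2 * Fintype.card ι + 4) * S0) ≤ Real.exp c.W) :
    ∃ st' : St ι, c.Good (k + 1) st' ∧ c.Van st' T' (c.q * S0) := by
  set J : ℕ := 2 * Fintype.card ι + 4 with hJ
  have hY : 8 ≤ c.Y := h.Y_ge
  have hH : 0 ≤ c.H k := h.H_nonneg k
  have hW : 0 ≤ c.W := by linarith [h.W2]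
  have hS0 : (1 : ℝ) ≤ S0 := by exact_mod_cast hS1
  have hτ : (0 : ℝ) ≤ τ := Nat.cast_nonneg τ
  have hE : 0 < Real.exp c.g := Real.exp_pos _
  have hA : 0 ≤ 7 * S0 * c.H k + 4 * c.W * S0 * τ := by positivity
  have hJ5 : 2 * Fintype.card ι + 5 = J + 1 := by omega
  rw [hJ5] at hT hv
  have hpw : ∀ j : ℕ, j ≤ J → (1 : ℝ) ≤ 2 ^ j ∧ (2 : ℝ) ^ j ≤ 2 ^ J := fun j hj =>
    ⟨one_le_pow₀ (by norm_num), pow_le_pow_right₀ (by norm_num) hj⟩
  have hq1 : ∀ m : ℝ, 0 ≤ m → 36 * (m * S0 * c.H k) ≤ c.g * (m * S0) * τ := by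
    intro m hm
    have h5 : 0 ≤ m * S0 := by positivity
    nlinarith [mul_le_mul_of_nonneg_left h1 h5]
  have hq2 : ∀ m : ℝ, 0 ≤ m → m * (8 * c.Y + 8) ≤ c.g * (m * S0) * τ := by
    intro m hm
    nlinarith [mul_le_mul_of_nonneg_left h2 hm]
  have key : ∀ j : ℕ, j ≤ J → c.Van st (T' + (J + 1 - j) * τ) (2 ^ j * S0) := by
    intro j
    induction j with
    | zero => intro _; simpa using hv
    | succ j ih =>
      intro hj
      have ih' := ih (by omega)
      have e1 : T' + (J + 1 - j) * τ = (T' + (J + 1 - (j + 1)) * τ) + τ := by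
        have : J + 1 - j = (J + 1 - (j + 1)) + 1 := by omega
        rw [this]; ring
      rw [e1] at ih'
      obtain ⟨p1, p2⟩ := hpw j (by omega)
      have e2 : 2 ^ (j + 1) * S0 = 2 * (2 ^ j * S0) := by ring
      rw [e2]
      have a1 := hq1 (2 ^ j) (by positivity)
      have a2 := hq2 (2 ^ j) (by positivity)
      refine double c h hk st hg _ _ τ ?_ ?_ ?_ ih' ?_ ?_
      · rw [← e1]
        have : (J + 1 - j) * τ ≤ (J + 1) * τ := Nat.mul_le_mul_right _ (by omega)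
        omega
      · exact Nat.mul_pos (by positivity) hS1
      · push_cast
        refine le_trans ?_ h4
        gcongr
      · push_cast
        nlinarith [mul_le_mul_of_nonneg_right p1 (by linarith : (0 : ℝ) ≤ 8 * c.Y + 8)]
      · push_cast
        refine le_trans ?_ h3
        have b1 := mul_le_mul_of_nonneg_right p2 hA
        have b2 := mul_le_mul_of_nonneg_right (p1.trans p2) (by linarith : (0 : ℝ) ≤ 2 * c.Y)
        nlinarith
  have hJv := key J le_rfl
  have e3 : J + 1 - J = 1 := by omega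
  rw [e3, one_mul] at hJv
  obtain ⟨p1, -⟩ := hpw J le_rfl
  have a1 := hq1 (2 ^ J) (by positivity)
  have a2 := hq2 (2 ^ J) (by positivity)
  have a3 : 0 ≤ (2 : ℝ) ^ J * S0 * c.H k := by positivity
  have a4 := mul_le_mul_of_nonneg_right p1 (by linarith : (0 : ℝ) ≤ c.Y)
  refine descent c h st hg T' (c.q * S0) fun s _ hs _ t ht => ?_
  refine kummer_zero c h hk st hg T' S0 (2 ^ J * S0) τ ?_ hS1 rfl ?_ hJv ?_ ?_ s hs t ht
  · have : τ ≤ (J + 1) * τ := Nat.le_mul_of_pos_left _ (by omega)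
    omega
  · push_cast
    exact h4
  · push_cast
    rw [← hJ]
    nlinarith
  · push_cast
    rw [← hJ]
    refine le_trans ?_ h3
    nlinarith

theorem last_level (c : Ctx ι K) (h : c.OK) {k : ℕ} (st : St ι) (hg : c.Good k st)
    (hL : 2 * c.L < c.q ^ k) (S1 : ℕ) (hS : 2 * c.L0 < S1) (hv : c.Van st 0 S1) : False := by
  have hq2 : 2 ≤ c.q := h.base.prime.two_le
  have hLr : 2 * (c.L : ℝ) < (c.q : ℝ) ^ k := by exact_mod_cast hL
  have hqk : (0 : ℝ) < (c.q : ℝ) ^ k := by positivity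
  have hz : ∀ lam ∈ st.Ls, lam = 0 := by
    intro lam hl
    funext i
    by_contra hne
    have a1 : (1 : ℝ) ≤ |(lam i : ℝ)| := by
      have : (1 : ℤ) ≤ |lam i| := Int.one_le_abs hne
      exact_mod_cast this
    have a2 := hg.abs_le hl i
    have a3 := half_lt_log (h.prime i)
    have a4 : (1 / 2 : ℝ) ≤ |(lam i : ℝ)| * Real.log (c.α i) := by nlinarith
    nlinarith [mul_le_mul_of_nonneg_right a4 hqk.le]
  have hLs : st.Ls = {0} := by
    ext lam
    rw [mem_singleton]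
    exact ⟨hz lam, fun e => e ▸ hg.zero_mem⟩
  obtain ⟨lam, hl, l, hl0, hP⟩ := hg.ne
  obtain rfl := hz lam hl
  let p : Polynomial ℚ := ∑ j ∈ range (c.L0 + 1), Polynomial.monomial j (st.P 0 j : ℚ)
  have hdeg : p.natDegree ≤ c.L0 := by
    refine Polynomial.natDegree_sum_le_of_forall_le _ _ fun j hj => ?_
    exact (Polynomial.natDegree_monomial_le _).trans (Nat.lt_succ_iff.1 (mem_range.1 hj))
  have hu : (st.u 0 : ℚ) ≠ 0 := by
    rcases (hg.sign 0 hl).1 with e | e <;> simp [e]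
  let N : Finset ℕ := (Icc 1 S1).filter fun x => ¬ c.q ∣ x
  have hN : c.L0 < N.card := by
    have := card_nodes hq2 S1
    change S1 ≤ 2 * N.card at this
    omega
  have hroot : ∀ x ∈ N.image (fun s : ℕ => (s : ℚ)), p.eval x = 0 := by
    intro x hx
    obtain ⟨s, hs, rfl⟩ := mem_image.1 hx
    obtain ⟨hs1, hs2⟩ := mem_filter.1 hs
    obtain ⟨hs3, hs4⟩ := mem_Icc.1 hs1
    have e := hv s hs3 hs4 hs2 0 (by simp)
    have e2 : c.Phi st 0 s = p.eval (s : ℚ) * (st.u 0 : ℚ) ^ s := by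
      simp only [Ctx.Phi, hLs, sum_singleton, p, Polynomial.eval_finsetSum,
        Polynomial.eval_monomial, sum_mul, Ctx.mon, apow_zero]
      refine sum_congr rfl fun j _ => ?_
      simp
    rw [e2] at e
    exact (mul_eq_zero.1 e).resolve_right (pow_ne_zero _ hu)
  have hp0 : p = 0 := by
    refine Polynomial.eq_zero_of_natDegree_lt_card_of_eval_eq_zero' p _ hroot ?_
    rw [card_image_of_injective _ Nat.cast_injective]
    omega
  have hc : p.coeff l = (st.P 0 l : ℚ) := by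
    simp only [p, Polynomial.finsetSum_coeff, Polynomial.coeff_monomial]
    rw [sum_ite_eq' (range (c.L0 + 1)) l]
    simp [hl0]
  rw [hp0, Polynomial.coeff_zero] at hc
  exact hP (by exact_mod_cast hc.symm)

theorem core (c : Ctx ι K) (h : c.OK) (st : St ι) (hg : c.Good 0 st) (S τ : ℕ) (hS1 : 1 ≤ S)
    (hv : c.Van st c.T S)
    (hT : (2 * Fintype.card ι + 5) * ∑ k ∈ range c.Kl, (τ / c.q ^ k + 1) ≤ c.T)
    (h1 : 36 * (Fintype.card ι * c.L : ℝ) ≤ c.g * τ) (h2 : 8 * c.Y + 8 ≤ c.g * S * τ)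
    (h3 : 2 ^ (2 * Fintype.card ι + 4) * (2 * c.Y + 7 * S * (Fintype.card ι * c.L) +
      4 * c.W * S * (τ + c.q ^ c.Kl)) + 1 ≤ c.U)
    (h4 : 3 * Real.exp c.g * (2 ^ (2 * Fintype.card ι + 4) * (c.q ^ c.Kl * S)) ≤ Real.exp c.W)
    (hL : 2 * c.L < c.q ^ c.Kl) (hL0 : 2 * c.L0 < c.q ^ c.Kl * S) : False := by
  have hq2 : 2 ≤ c.q := h.base.prime.two_le
  have hqr : (1 : ℝ) ≤ c.q := by exact_mod_cast (by omega : 1 ≤ c.q)
  have hW : 0 ≤ c.W := by linarith [h.W2]
  have hg0 := h.g0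
  have hSr : (0 : ℝ) ≤ S := Nat.cast_nonneg S
  have key : ∀ k : ℕ, k ≤ c.Kl → ∃ st' : St ι, c.Good k st' ∧
      c.Van st' ((2 * Fintype.card ι + 5) * ∑ j ∈ Ico k c.Kl, (τ / c.q ^ j + 1))
        (c.q ^ k * S) := by
    intro k
    induction k with
    | zero =>
      intro _
      refine ⟨st, hg, hv.mono ?_ (by simp)⟩
      rwa [← range_eq_Ico]
    | succ k ih =>
      intro hk
      obtain ⟨st1, hg1, hv1⟩ := ih (by omega)
      have e1 : (2 * Fintype.card ι + 5) * ∑ j ∈ Ico k c.Kl, (τ / c.q ^ j + 1) =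
          (2 * Fintype.card ι + 5) * ∑ j ∈ Ico (k + 1) c.Kl, (τ / c.q ^ j + 1) +
            (2 * Fintype.card ι + 5) * (τ / c.q ^ k + 1) := by
        rw [sum_eq_sum_Ico_succ_bot (by omega : k < c.Kl)]
        ring
      rw [e1] at hv1
      have e2 : c.q ^ (k + 1) * S = c.q * (c.q ^ k * S) := by ring
      rw [e2]
      have hqk : 0 < c.q ^ k := by positivity
      have hqkr : (0 : ℝ) < (c.q : ℝ) ^ k := by positivity
      have hle : (c.q : ℝ) ^ k ≤ (c.q : ℝ) ^ c.Kl := pow_le_pow_right₀ hqr (by omega)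
      set m : ℕ := τ / c.q ^ k + 1 with hm
      have b1 : (τ : ℝ) ≤ (c.q : ℝ) ^ k * m := by
        have : τ ≤ c.q ^ k * m := by
          rw [hm, mul_add, mul_one]
          exact (Nat.lt_mul_div_succ τ hqk).le.trans (by rw [mul_add, mul_one])
        exact_mod_cast this
      have b2 : (c.q : ℝ) ^ k * m ≤ τ + (c.q : ℝ) ^ c.Kl := by
        have : c.q ^ k * m ≤ τ + c.q ^ k := by
          rw [hm, mul_add, mul_one]
          exact Nat.add_le_add_right (Nat.mul_div_le τ _) _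
        have h' : (c.q : ℝ) ^ k * m ≤ τ + (c.q : ℝ) ^ k := by exact_mod_cast this
        linarith
      have b3 : (c.q : ℝ) ^ k * c.H k = Fintype.card ι * c.L := by
        rw [Ctx.H]; field_simp
      refine level c h (by omega) st1 hg1 _ _ m ?_ (Nat.mul_pos hqk hS1) hv1 ?_ ?_ ?_ ?_
      · rw [← e1]
        refine le_trans (Nat.mul_le_mul_left _ ?_) hT
        refine sum_le_sum_of_subset fun j hj => ?_
        exact mem_range.2 (mem_Ico.1 hj).2
      · refine le_of_mul_le_mul_left ?_ hqkr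
        have := mul_le_mul_of_nonneg_left b1 hg0
        nlinarith
      · push_cast
        have := mul_le_mul_of_nonneg_left b1 (mul_nonneg hg0 hSr)
        nlinarith
      · push_cast
        refine le_trans ?_ h3
        have c1 : 7 * ((c.q : ℝ) ^ k * S) * c.H k = 7 * S * (Fintype.card ι * c.L) := by
          rw [← b3]; ring
        have c2 : 4 * c.W * ((c.q : ℝ) ^ k * S) * m ≤ 4 * c.W * S * (τ + (c.q : ℝ) ^ c.Kl) := by
          have := mul_le_mul_of_nonneg_left b2 (by positivity : 0 ≤ 4 * c.W * S)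
          nlinarith
        rw [c1]
        gcongr
      · push_cast
        refine le_trans ?_ h4
        gcongr
  obtain ⟨st1, hg1, hv1⟩ := key c.Kl le_rfl
  rw [Ico_self, sum_empty, mul_zero] at hv1
  exact last_level c h st1 hg1 hL _ hL0 hv1

end

end LFL
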