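import Mathlib

set_option autoImplicit false

namespace LFL
open Finset

/-- Multi-indices of total degree at most `T`. -/
def tset (ι : Type) [Fintype ι] [DecidableEq ι] (T : ℕ) : Finset (ι → ℕ) :=
  (Fintype.piFinset fun _ : ι => range (T + 1)).filter fun t => ∑ i, t i ≤ T

theorem mem_tset {ι : Type} [Fintype ι] [DecidableEq ι] {T : ℕ} {t : ι → ℕ} :
    t ∈ tset ι T ↔ ∑ i, t i ≤ T := by
  unfold tset
  rw [mem_filter, Fintype.mem_piFinset]
  refine ⟨fun h => h.2, fun h => ⟨fun i => ?_, h⟩⟩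
  rw [mem_range, Nat.lt_succ_iff]
  exact (single_le_sum (f := t) (fun j _ => Nat.zero_le _) (mem_univ i)).trans h

theorem count_aux (T n : ℕ) (hn : 0 < n) :
    (1 : ℝ) ≤ ((T : ℝ) / (T + n)) ^ T * 3 ^ n := by
  rcases Nat.eq_zero_or_pos T with rfl | hT
  · simp only [pow_zero, one_mul]
    exact one_le_pow₀ (by norm_num)
  · have hT' : (0 : ℝ) < T := by exact_mod_cast hT
    have hn' : (0 : ℝ) < n := by exact_mod_cast hn
    have h1 : ((T : ℝ) + n) / T ≤ Real.exp (n / T) := by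
      have := Real.add_one_le_exp ((n : ℝ) / T)
      rwa [show (n : ℝ) / T + 1 = (T + n) / T by field_simp; ring] at this
    have h2 : (((T : ℝ) + n) / T) ^ T ≤ Real.exp n := by
      refine (pow_le_pow_left₀ (by positivity) h1 T).trans ?_
      rw [← Real.exp_nat_mul]
      rw [show (T : ℝ) * (n / T) = n by field_simp]
    have h3 : Real.exp n ≤ 3 ^ n := by
      have : Real.exp n = Real.exp 1 ^ n := by rw [← Real.exp_nat_mul, mul_one]
      rw [this]
      exact pow_le_pow_left₀ (Real.exp_pos 1).le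
        (le_of_lt (lt_trans Real.exp_one_lt_d9 (by norm_num))) n
    have h4 : ((T : ℝ) / (T + n)) ^ T * (((T : ℝ) + n) / T) ^ T = 1 := by
      rw [← mul_pow, show (T : ℝ) / (T + n) * ((T + n) / T) = 1 by field_simp, one_pow]
    calc (1 : ℝ) = ((T : ℝ) / (T + n)) ^ T * (((T : ℝ) + n) / T) ^ T := h4.symm
      _ ≤ _ := mul_le_mul_of_nonneg_left (h2.trans h3) (by positivity)

theorem card_tset_le (ι : Type) [Fintype ι] [DecidableEq ι] [Nonempty ι] (T : ℕ) :
    ((tset ι T).card : ℝ) ≤ (3 * (T + Fintype.card ι) / Fintype.card ι) ^ Fintype.card ι := by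
  have hn : 0 < Fintype.card ι := Fintype.card_pos
  set n := Fintype.card ι with hndef
  have hn' : (0 : ℝ) < n := by exact_mod_cast hn
  have hT' : (0 : ℝ) ≤ T := Nat.cast_nonneg T
  set x : ℝ := (T : ℝ) / (T + n) with hx
  have hx0 : 0 ≤ x := by positivity
  have hx1 : x < 1 := by rw [hx, div_lt_one (by positivity)]; linarith
  have h1 : ((tset ι T).card : ℝ) * x ^ T ≤ ∑ t ∈ tset ι T, ∏ i, x ^ t i := by
    rw [← nsmul_eq_mul, ← sum_const]
    refine sum_le_sum fun t ht => ?_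
    rw [prod_pow_eq_pow_sum]
    exact pow_le_pow_of_le_one hx0 hx1.le (mem_tset.1 ht)
  have h2 : ∑ t ∈ tset ι T, ∏ i, x ^ t i ≤
      ∑ t ∈ Fintype.piFinset (fun _ : ι => range (T + 1)), ∏ i, x ^ t i :=
    sum_le_sum_of_subset_of_nonneg (filter_subset _ _)
      fun t _ _ => prod_nonneg fun i _ => pow_nonneg hx0 _
  have h3 : ∑ t ∈ Fintype.piFinset (fun _ : ι => range (T + 1)), ∏ i, x ^ t i =
      (∑ j ∈ range (T + 1), x ^ j) ^ n := by
    rw [← prod_univ_sum (fun _ : ι => range (T + 1)) (fun _ j => x ^ j), prod_const, card_univ]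
  have h4 : ∑ j ∈ range (T + 1), x ^ j ≤ (T + n) / n := by
    have h5 : (∑ j ∈ range (T + 1), x ^ j) * (1 - x) = 1 - x ^ (T + 1) := by
      have := geom_sum_mul x (T + 1)
      linarith
    have h6 : (1 - x) * ((T + n) / n) = 1 := by
      rw [hx]; field_simp; ring
    have h7 : 0 ≤ x ^ (T + 1) := pow_nonneg hx0 _
    have h8 : (0 : ℝ) < (T + n) / n := by positivity
    calc ∑ j ∈ range (T + 1), x ^ j
        = (∑ j ∈ range (T + 1), x ^ j) * (1 - x) * ((T + n) / n) := by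
          rw [mul_assoc, h6, mul_one]
      _ ≤ 1 * ((T + n) / n) := by
          rw [h5]; exact mul_le_mul_of_nonneg_right (by linarith) h8.le
      _ = _ := one_mul _
  have h5 : ((tset ι T).card : ℝ) * x ^ T ≤ (((T : ℝ) + n) / n) ^ n :=
    h1.trans (h2.trans (h3.le.trans
      (pow_le_pow_left₀ (sum_nonneg fun j _ => pow_nonneg hx0 _) h4 n)))
  have h6 := count_aux T n hn
  rw [← hx] at h6
  calc ((tset ι T).card : ℝ) = (tset ι T).card * 1 := (mul_one _).symm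
    _ ≤ (tset ι T).card * (x ^ T * 3 ^ n) := mul_le_mul_of_nonneg_left h6 (Nat.cast_nonneg _)
    _ = ((tset ι T).card * x ^ T) * 3 ^ n := by ring
    _ ≤ (((T : ℝ) + n) / n) ^ n * 3 ^ n := mul_le_mul_of_nonneg_right h5 (by positivity)
    _ = _ := by rw [← mul_pow]; congr 1; ring

theorem card_nodes {q : ℕ} (hq : 2 ≤ q) (S : ℕ) :
    S ≤ 2 * ((Icc 1 S).filter fun x => ¬ q ∣ x).card := by
  have h1 : ((Icc 1 S).filter fun x => q ∣ x).card ≤
      ((Icc 1 S).filter fun x => ¬ q ∣ x).card := by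
    refine card_le_card_of_injOn (fun x => x - 1) ?_ ?_
    · intro x hx
      simp only [coe_filter, mem_Icc, Set.mem_ofPred_eq] at hx ⊢
      have h2 : q ≤ x := Nat.le_of_dvd (by omega) hx.2
      refine ⟨⟨by omega, by omega⟩, fun h => ?_⟩
      have h3 : q ∣ x - (x - 1) := Nat.dvd_sub hx.2 h
      rw [show x - (x - 1) = 1 by omega] at h3
      have := Nat.le_of_dvd one_pos h3
      omega
    · intro x hx y hy hxy
      simp only [coe_filter, mem_Icc, Set.mem_ofPred_eq] at hx hy hxy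
      omega
  have h2 := card_filter_add_card_filter_not (s := Icc 1 S) (fun x => q ∣ x)
  rw [Nat.card_Icc] at h2
  omega

/-- The box of exponent vectors and its size. -/
theorem card_box_ge {ι : Type} [Fintype ι] [DecidableEq ι] (A : ι → ℝ) (hA : ∀ i, 0 < A i)
    (L : ℕ) : (L : ℝ) ^ Fintype.card ι ≤
      ((Fintype.piFinset fun i => Icc (0 : ℤ) ⌊(L : ℝ) / A i⌋).card : ℝ) * ∏ i, A i := by
  rw [Fintype.card_piFinset, Nat.cast_prod, ← prod_mul_distrib, ← card_univ, ← prod_const]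
  refine prod_le_prod (fun i _ => Nat.cast_nonneg L) fun i _ => ?_
  have h0 : 0 ≤ ⌊(L : ℝ) / A i⌋ := Int.floor_nonneg.2 (div_nonneg (Nat.cast_nonneg L) (hA i).le)
  have h1 : (((Icc (0 : ℤ) ⌊(L : ℝ) / A i⌋).card : ℕ) : ℝ) = (⌊(L : ℝ) / A i⌋ : ℝ) + 1 := by
    have h2 : (((Icc (0 : ℤ) ⌊(L : ℝ) / A i⌋).card : ℕ) : ℤ) = ⌊(L : ℝ) / A i⌋ + 1 := by
      rw [Int.card_Icc, Int.toNat_of_nonneg (by omega)]; ring
    rw [← Int.cast_natCast, h2, Int.cast_add, Int.cast_one]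
  rw [h1, ← div_le_iff₀ (hA i)]
  exact (Int.lt_floor_add_one _).le

/-- Pigeonhole: a large fibre, translated so that it contains `0`. -/
theorem exists_fibre {ι β : Type} [Fintype ι] [DecidableEq ι] [DecidableEq β] (A : ι → ℝ)
    (hA : ∀ i, 0 < A i) (L : ℕ) (f : (ι → ℤ) → β) (t : Finset β) (pi : ℝ) (ht : (t.card : ℝ) ≤ pi)
    (hf : ∀ lam : ι → ℤ, (∀ i, 0 ≤ lam i ∧ (lam i : ℝ) * A i ≤ L) → f lam ∈ t) :
    ∃ Ls : Finset (ι → ℤ), ∃ v : ι → ℤ, (0 : ι → ℤ) ∈ Ls ∧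
      (L : ℝ) ^ Fintype.card ι ≤ Ls.card * ((∏ i, A i) * pi) ∧
      ∀ lam ∈ Ls, (∀ i, 0 ≤ (lam + v) i ∧ ((lam + v) i : ℝ) * A i ≤ L) ∧ f (lam + v) = f v := by
  set B := Fintype.piFinset fun i => Icc (0 : ℤ) ⌊(L : ℝ) / A i⌋ with hB
  have hmem : ∀ lam ∈ B, ∀ i, 0 ≤ lam i ∧ (lam i : ℝ) * A i ≤ L := by
    intro lam hl i
    have h1 := mem_Icc.1 (Fintype.mem_piFinset.1 hl i)
    exact ⟨h1.1, (le_div_iff₀ (hA i)).1 (Int.le_floor.1 h1.2)⟩
  have h0 : (0 : ι → ℤ) ∈ B := Fintype.mem_piFinset.2 fun i => mem_Icc.2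
    ⟨le_rfl, Int.floor_nonneg.2 (div_nonneg (Nat.cast_nonneg L) (hA i).le)⟩
  obtain ⟨v, hv, hmax⟩ := exists_max_image B (fun w => (B.filter fun lam => f lam = f w).card)
    ⟨0, h0⟩
  set F := B.filter fun lam => f lam = f v with hF
  have hcard : B.card ≤ t.card * F.card := by
    rw [card_eq_sum_card_fiberwise (f := f) (s := B) (t := t) fun lam hl => hf lam (hmem lam hl)]
    rw [← smul_eq_mul, ← sum_const]
    refine sum_le_sum fun b _ => ?_
    rcases (B.filter fun lam => f lam = b).eq_empty_or_nonempty with h | ⟨w, hw⟩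
    · rw [h]; exact Nat.zero_le _
    · obtain ⟨hw1, hw2⟩ := mem_filter.1 hw
      rw [← hw2]
      exact hmax w hw1
  refine ⟨F.image fun lam => lam - v, v, mem_image.2 ⟨v, mem_filter.2 ⟨hv, rfl⟩, sub_self v⟩, ?_, ?_⟩
  · rw [card_image_of_injective _ (sub_left_injective)]
    have hP : 0 ≤ ∏ i, A i := prod_nonneg fun i _ => (hA i).le
    have h1 : (B.card : ℝ) ≤ pi * F.card := by
      have h2 : (B.card : ℝ) ≤ (t.card : ℝ) * F.card := by exact_mod_cast hcard
      exact h2.trans (mul_le_mul_of_nonneg_right ht (Nat.cast_nonneg _))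
    calc (L : ℝ) ^ Fintype.card ι ≤ (B.card : ℝ) * ∏ i, A i := card_box_ge A hA L
      _ ≤ (pi * F.card) * ∏ i, A i := mul_le_mul_of_nonneg_right h1 hP
      _ = _ := by ring
  · intro lam hl
    obtain ⟨w, hw, rfl⟩ := mem_image.1 hl
    obtain ⟨hw1, hw2⟩ := mem_filter.1 hw
    rw [sub_add_cancel]
    exact ⟨hmem w hw1, hw2⟩

end LFL
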