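import Pool.Agent.P.MP_7aad9f_nt.LFL.Num

set_option autoImplicit false

namespace LFL
open Finset

namespace CritAux

theorem log_le_cbrt (r : ℕ) : Real.log r ≤ 3 * (r : ℝ) ^ (1 / 3 : ℝ) := by
  have := Real.log_le_rpow_div (x := r) (ε := 1 / 3) (Nat.cast_nonneg r) (by norm_num)
  linarith

theorem prod_pos' {s : Finset ℕ} (hs : ∀ r ∈ s, r.Prime) : 0 < ∏ r ∈ s, r :=
  prod_pos fun r hr => (hs r hr).pos

theorem prod_le {R : ℝ} {s0 : Finset ℕ} {p : ℕ} (hp : p.Prime)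
    (hR : ((p * ∏ r ∈ s0, r : ℕ) : ℝ) ≤ R) : ((∏ r ∈ s0, r : ℕ) : ℝ) ≤ R :=
  le_trans (by exact_mod_cast Nat.le_mul_of_pos_left _ hp.pos) hR

theorem sum_log_le {R : ℝ} {s0 : Finset ℕ} (hs : ∀ r ∈ s0, r.Prime)
    (hR : ((∏ r ∈ s0, r : ℕ) : ℝ) ≤ R) : ∑ r ∈ s0, Real.log r ≤ Real.log R := by
  rw [← Real.log_prod fun r hr => by exact_mod_cast (hs r hr).ne_zero, ← Nat.cast_prod]
  exact Real.log_le_log (by exact_mod_cast prod_pos' hs) hR

/-- The product over the given primes. -/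
theorem core {R a b : ℝ} {s0 : Finset ℕ} {p py pz : ℕ} (hs : ∀ r ∈ s0, r.Prime) (hp : p.Prime)
    (hy : py ∈ s0) (hz : pz ∈ s0) (hyz : py ≠ pz) (h1 : p ≤ py) (h2 : p ≤ pz)
    (hR : ((p * ∏ r ∈ s0, r : ℕ) : ℝ) ≤ R) (ha : 0 ≤ a) (hab : 3 * a ≤ b) (hb : b ≤ 1) :
    p * ∏ r ∈ s0, (a * Real.log r) ≤ R ^ (1 / 3 : ℝ) * Real.log R ^ 2 * b ^ (s0.card - 2) := by
  have hz' : pz ∈ s0.erase py := mem_erase.2 ⟨hyz.symm, hz⟩
  have hl : ∀ r : ℕ, 0 ≤ Real.log r := fun r => Real.log_natCast_nonneg r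
  have hsum := sum_log_le hs (prod_le hp hR)
  have hL : ∀ r ∈ s0, a * Real.log r ≤ Real.log R := fun r hr => by
    have := single_le_sum (f := fun r : ℕ => Real.log r) (fun r _ => hl r) hr
    have h3 := hl r
    nlinarith
  set t := (s0.erase py).erase pz with ht
  have hc : t.card = s0.card - 2 := by
    rw [ht, card_erase_of_mem hz', card_erase_of_mem hy]; omega
  have e1 : ∀ f : ℕ → ℝ, ∏ r ∈ s0, f r = f py * (f pz * ∏ r ∈ t, f r) := fun f => by
    rw [mul_prod_erase _ f hz', mul_prod_erase _ f hy]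
  have h3 : ∏ r ∈ t, (a * Real.log r) ≤ b ^ (s0.card - 2) * (∏ r ∈ t, (r : ℝ)) ^ (1 / 3 : ℝ) := by
    rw [← hc, ← Real.finsetProd_rpow _ _ fun r _ => Nat.cast_nonneg r, ← prod_const,
      ← prod_mul_distrib]
    refine prod_le_prod (fun r _ => mul_nonneg ha (hl r)) fun r _ => ?_
    have h4 := log_le_cbrt r
    have h5 : 0 ≤ (r : ℝ) ^ (1 / 3 : ℝ) := by positivity
    nlinarith
  have hT : 0 ≤ ∏ r ∈ t, (r : ℝ) := by positivity
  have h4 : p * (∏ r ∈ t, (r : ℝ)) ^ (1 / 3 : ℝ) ≤ R ^ (1 / 3 : ℝ) := by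
    have e2 : (p : ℝ) = ((p : ℝ) ^ 3) ^ (1 / 3 : ℝ) := by
      rw [← Real.rpow_natCast, ← Real.rpow_mul (Nat.cast_nonneg p)]; norm_num
    rw [e2, ← Real.mul_rpow (by positivity) hT]
    refine Real.rpow_le_rpow (by positivity) (le_trans ?_ hR) (by norm_num)
    push_cast
    rw [e1 fun r => (r : ℝ)]
    have h5 : (p : ℝ) ≤ py := by exact_mod_cast h1
    have h6 : (p : ℝ) ≤ pz := by exact_mod_cast h2
    calc (p : ℝ) ^ 3 * ∏ r ∈ t, (r : ℝ) = p * (p * (p * ∏ r ∈ t, (r : ℝ))) := by ring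
      _ ≤ _ := by gcongr
  have hb0 : 0 ≤ b := by linarith
  have hL0 : 0 ≤ Real.log R := (mul_nonneg ha (hl py)).trans (hL py hy)
  have hP : 0 ≤ ∏ r ∈ t, (a * Real.log r) := prod_nonneg fun r _ => mul_nonneg ha (hl r)
  rw [e1]
  calc (p : ℝ) * (a * Real.log py * (a * Real.log pz * ∏ r ∈ t, (a * Real.log r)))
      ≤ p * (Real.log R * (Real.log R *
        (b ^ (s0.card - 2) * (∏ r ∈ t, (r : ℝ)) ^ (1 / 3 : ℝ)))) := by
        have := mul_nonneg ha (hl pz)
        gcongr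
        · exact hL py hy
        · exact hL pz hz
    _ = p * (∏ r ∈ t, (r : ℝ)) ^ (1 / 3 : ℝ) * Real.log R ^ 2 * b ^ (s0.card - 2) := by ring
    _ ≤ _ := by gcongr

/-- Rewriting the bound as a product. -/
theorem to_prod {C L : ℝ} (hC : 1 ≤ C) (hL : 0 < L) (s : Finset ℕ) {p : ℕ}
    (hp : L / 4 ≤ Real.log p) :
    C ^ s.card * (p * (∏ r ∈ s, Real.log r) * (s.card / max (s.card : ℝ) (Real.log p)) ^ s.card) ≤
      p * ∏ r ∈ s, (4 * C * s.card / L * Real.log r) := by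
  have hl : 0 ≤ ∏ r ∈ s, Real.log r := prod_nonneg fun r _ => Real.log_natCast_nonneg r
  have h1 : (s.card : ℝ) / max (s.card : ℝ) (Real.log p) ≤ s.card / (L / 4) :=
    div_le_div_of_nonneg_left (Nat.cast_nonneg _) (by linarith) (hp.trans (le_max_right _ _))
  have h2 : 0 ≤ (s.card : ℝ) / max (s.card : ℝ) (Real.log p) :=
    div_nonneg (Nat.cast_nonneg _) ((Nat.cast_nonneg _).trans (le_max_left _ _))
  rw [prod_mul_distrib, prod_const]
  calc _ ≤ C ^ s.card * (p * (∏ r ∈ s, Real.log r) * (s.card / (L / 4)) ^ s.card) := by gcongr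
    _ = _ := by
      rw [show 4 * C * s.card / L = C * (s.card / (L / 4)) by field_simp, mul_pow]; ring

theorem pow_le {C R : ℝ} (hR : 0 < R) (hC : 1 ≤ C) {n : ℕ} (h : 4 * C * n ≤ Real.log R) :
    C ^ n ≤ R ^ (1 / 4 : ℝ) := by
  rw [Real.rpow_def_of_pos hR]
  calc C ^ n ≤ Real.exp C ^ n := by
        gcongr
        linarith [Real.add_one_le_exp C]
    _ = Real.exp (n * C) := (Real.exp_nat_mul C n).symm
    _ ≤ _ := Real.exp_le_exp.2 (by linarith)

end CritAux

open CritAux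

/-- The estimate for the critical prime, with auxiliary primes. -/
theorem critical (C : ℝ) (hC : 1 ≤ C) : ∃ κ : ℝ, 0 < κ ∧ ∃ K : ℝ, 1 ≤ K ∧ ∃ R0 : ℝ,
    ∀ (R : ℝ) (s0 : Finset ℕ) (p py pz : ℕ), R0 ≤ R → (∀ r ∈ s0, r.Prime) → p.Prime → p ∉ s0 →
      py ∈ s0 → pz ∈ s0 → py ≠ pz → p ≤ py → p ≤ pz → R ^ (1 / 4 : ℝ) ≤ p →
      ((p * ∏ r ∈ s0, r : ℕ) : ℝ) ≤ R →
      ∃ s : Finset ℕ, s0 ⊆ s ∧ (∀ r ∈ s, r.Prime) ∧ p ∉ s ∧
        ∑ r ∈ s, Real.log r ≤ 2 * Real.log R ∧ C ^ s.card ≤ K * R ^ (1 / 4 : ℝ) ∧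
        C ^ s.card * (p * (∏ r ∈ s, Real.log r) *
          (s.card / max (s.card : ℝ) (Real.log p)) ^ s.card) ≤
          K * R ^ (1 / 3 : ℝ) * Real.log R ^ 2 * sav κ R := by
  set e := Real.exp 1 with he
  have he2 : 2 ≤ e := by linarith [Real.add_one_le_exp 1]
  have hCe : 2 ≤ C * e := by nlinarith
  obtain ⟨K1, hK1, hK⟩ := prod_log_le (Real.exp (12 * (C * e))) (1 / 2)
    (Real.one_le_exp (by linarith)) (by norm_num)
  have hE : 1 ≤ Real.exp 2 := Real.one_le_exp (by norm_num)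
  refine ⟨1 / (24 * (C * e)), by positivity, Real.exp 2, hE, max (K1 ^ 2) (Real.exp e),
    fun R s0 p py pz hR hs hp hps hy hz hyz h1 h2 hp4 hpR => ?_⟩
  set κ := 1 / (24 * (C * e)) with hκ
  have hκ0 : 0 < κ := by positivity
  have hκ1 : 24 * (C * e) * κ = 1 := by rw [hκ]; field_simp
  have hR0 : 0 < R := (Real.exp_pos e).trans_le ((le_max_right _ _).trans hR)
  have hL : e ≤ Real.log R := (Real.le_log_iff_exp_le hR0).2 ((le_max_right _ _).trans hR)
  have hsum := sum_log_le hs (prod_le hp hpR)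
  have hpL : Real.log R / 4 ≤ Real.log p := by
    have := Real.log_le_log (by positivity) hp4
    rw [Real.log_rpow hR0] at this
    linarith
  have hR4 : 0 ≤ R ^ (1 / 4 : ℝ) := by positivity
  have hR3 : 0 ≤ R ^ (1 / 3 : ℝ) := by positivity
  have hcore := fun a b => core (a := a) (b := b) hs hp hy hz hyz h1 h2 hpR
  have hsav : sav κ R = Real.exp (-(κ * Real.log R / Real.log (Real.log R))) := rfl
  have hn0 : 12 * (C * e) * s0.card ≤ Real.log R := by
    rw [Real.le_log_iff_exp_le hR0, mul_comm, Real.exp_nat_mul]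
    have a1 : (1 : ℝ) ≤ ∏ r ∈ s0, (1 + Real.log r) :=
      le_trans (by rw [prod_const_one]) (prod_le_prod (f := fun _ => (1 : ℝ))
        (fun _ _ => zero_le_one) fun r _ => by linarith [Real.log_natCast_nonneg r])
    have a2 : K1 ≤ R ^ (1 / 2 : ℝ) := by
      rw [← Real.sqrt_eq_rpow]
      exact Real.le_sqrt_of_sq_le ((le_max_left _ _).trans hR)
    calc Real.exp (12 * (C * e)) ^ s0.card
        ≤ Real.exp (12 * (C * e)) ^ s0.card * ∏ r ∈ s0, (1 + Real.log r) :=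
          le_mul_of_one_le_right (by positivity) a1
      _ ≤ K1 * ((∏ r ∈ s0, r : ℕ) : ℝ) ^ (1 / 2 : ℝ) := hK s0 fun r hr => (hs r hr).pos
      _ ≤ R ^ (1 / 2 : ℝ) * R ^ (1 / 2 : ℝ) := by
          gcongr
          exact prod_le hp hpR
      _ = R := by rw [← Real.rpow_add hR0]; norm_num
  have hc2 : 2 ≤ s0.card := one_lt_card.2 ⟨py, hy, pz, hz, hyz⟩
  set L := Real.log R with hLd
  have hL0 : 0 < L := by linarith
  have hl : 1 ≤ Real.log L := (Real.le_log_iff_exp_le hL0).2 hL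
  set l := Real.log L with hld
  set y := κ * L / l with hyd
  have hyl : y * l = κ * L := by rw [hyd]; field_simp
  have hn : (0 : ℝ) ≤ s0.card := Nat.cast_nonneg _
  clear_value y l κ e
  by_cases hcase : y ≤ s0.card
  · refine ⟨s0, subset_rfl, hs, hps, by linarith, ?_, (to_prod hC hL0 s0 hpL).trans ?_⟩
    · refine (pow_le hR0 hC ?_).trans (le_mul_of_one_le_left hR4 hE)
      have : 0 ≤ C * s0.card := by positivity
      linarith [mul_le_mul_of_nonneg_left he2 this]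
    · refine (hcore _ e⁻¹ (by positivity) ?_ (inv_le_one_of_one_le₀ (by linarith))).trans ?_
      · rw [← one_div, ← mul_div_assoc, div_le_div_iff₀ hL0 (by linarith)]
        linarith
      · have : e⁻¹ ^ (s0.card - 2) ≤ Real.exp 2 * sav κ R := by
          rw [hsav, he, ← Real.exp_neg, ← Real.exp_nat_mul, ← Real.exp_add, Nat.cast_sub hc2]
          exact Real.exp_le_exp.2 (by push_cast; linarith)
        calc _ ≤ R ^ (1 / 3 : ℝ) * L ^ 2 * (Real.exp 2 * sav κ R) := by gcongr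
          _ = _ := by ring
  · rw [not_le] at hcase
    have hy2 : 2 < y := lt_of_le_of_lt (by exact_mod_cast hc2) hcase
    obtain ⟨t, htc, htd, ht⟩ := exists_aux_primes (insert p s0) ⌈y⌉₊
    have hk1 : y ≤ ⌈y⌉₊ := Nat.le_ceil y
    have hk2 : (⌈y⌉₊ : ℝ) ≤ y + 1 := (Nat.ceil_lt_add_one (by linarith)).le
    have hd : Disjoint s0 t := (htd.mono_right (subset_insert p s0)).symm
    have hcard : ((s0 ∪ t).card : ℝ) = s0.card + ⌈y⌉₊ := by
      rw [card_union_of_disjoint hd, htc, Nat.cast_add]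
    have hyκ : y ≤ κ * L := hyl ▸ le_mul_of_one_le_right (by linarith) hl
    have hκ2 : κ ≤ 1 / 48 := by linarith [mul_le_mul_of_nonneg_right hCe hκ0.le]
    have hyL : y ≤ L / 48 := by linarith [mul_le_mul_of_nonneg_right hκ2 hL0.le]
    have hlog : ∀ r ∈ t, Real.log r ≤ 2 * l := fun r hr => by
      have a1 : (r : ℝ) ≤ 2 * (s0.card + 1 + ⌈y⌉₊) ^ 2 := by
        have := (Nat.cast_le (α := ℝ)).2 (ht r hr).2
        rw [card_insert_of_notMem hps] at this
        push_cast at this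
        exact this
      have a2 : ((s0.card : ℝ) + 1 + ⌈y⌉₊) ^ 2 ≤ (L / 2) ^ 2 := by
        gcongr
        linarith
      have a3 : Real.log r ≤ Real.log (L ^ 2) :=
        Real.log_le_log (by exact_mod_cast (ht r hr).1.pos) (by linarith [sq_nonneg L])
      rwa [Real.log_pow, Nat.cast_ofNat, ← hld] at a3
    have hn3 : ((s0 ∪ t).card : ℝ) ≤ 3 * y := by rw [hcard]; linarith
    have hN : (0 : ℝ) ≤ (s0 ∪ t).card := Nat.cast_nonneg _
    have key : 4 * C * (s0 ∪ t).card * (2 * l) * e ≤ L := by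
      calc 4 * C * (s0 ∪ t).card * (2 * l) * e ≤ 4 * C * (3 * y) * (2 * l) * e := by gcongr
        _ = 24 * (C * e) * (y * l) := by ring
        _ = L := by rw [hyl, ← mul_assoc, hκ1, one_mul]
    have key2 : 3 * (4 * C * (s0 ∪ t).card) ≤ L := by
      have a1 : 0 ≤ 4 * C * (s0 ∪ t).card := by positivity
      have a2 : 3 ≤ 2 * l * e := by linarith [mul_le_mul hl he2 zero_le_two (by linarith)]
      linarith [mul_le_mul_of_nonneg_left a2 a1]
    refine ⟨s0 ∪ t, subset_union_left, fun r hr => (mem_union.1 hr).elim (hs r) fun h => (ht r h).1,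
      fun h => (mem_union.1 h).elim hps fun h => disjoint_left.1 htd h (mem_insert_self _ _),
      ?_, ?_, (to_prod hC hL0 _ hpL).trans ?_⟩
    · rw [sum_union hd]
      have a1 := sum_le_card_nsmul t _ _ hlog
      rw [htc, nsmul_eq_mul] at a1
      have a2 : (⌈y⌉₊ : ℝ) * (2 * l) ≤ 2 * y * (2 * l) := by
        gcongr
        linarith
      linarith [mul_le_mul_of_nonneg_right hκ2 hL0.le]
    · refine (pow_le hR0 hC ?_).trans (le_mul_of_one_le_left hR4 hE)
      have a1 : 0 ≤ 4 * C * (s0 ∪ t).card := by positivity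
      linarith
    · set a := 4 * C * (s0 ∪ t).card / L with had
      have ha0 : 0 ≤ a := by positivity
      have a1 := hcore a 1 ha0 (by rw [had, ← mul_div_assoc, div_le_one hL0]; exact key2) le_rfl
      rw [one_pow, mul_one] at a1
      have a2 : ∏ r ∈ t, (a * Real.log r) ≤ sav κ R := by
        calc ∏ r ∈ t, (a * Real.log r) ≤ ∏ _r ∈ t, e⁻¹ :=
              prod_le_prod (fun r _ => mul_nonneg ha0 (Real.log_natCast_nonneg r)) fun r hr => by
                refine (mul_le_mul_of_nonneg_left (hlog r hr) ha0).trans ?_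
                rw [had, div_mul_eq_mul_div, ← one_div, div_le_div_iff₀ hL0 (by linarith)]
                linarith
          _ ≤ _ := by
              rw [prod_const, htc, hsav, he, ← Real.exp_neg, ← Real.exp_nat_mul]
              exact Real.exp_le_exp.2 (by linarith)
      have a3 : 0 ≤ ∏ r ∈ t, (a * Real.log r) :=
        prod_nonneg fun r _ => mul_nonneg ha0 (Real.log_natCast_nonneg r)
      have a4 : 0 ≤ sav κ R := (Real.exp_pos _).le
      rw [prod_union hd, ← mul_assoc]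
      calc _ ≤ R ^ (1 / 3 : ℝ) * L ^ 2 * sav κ R := by gcongr
        _ = 1 * R ^ (1 / 3 : ℝ) * L ^ 2 * sav κ R := by rw [one_mul]
        _ ≤ _ := by gcongr

end LFL
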