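import Mathlib

/-! Linear forms in logarithms of distinct primes (archimedean and p-adic): definitions. -/

set_option autoImplicit false

namespace LFL
open Finset

/-- The exponential series in a normed field. -/
noncomputable def ex {K : Type} [NormedField K] (y : K) : K :=
  ∑' k : ℕ, y ^ k / (k.factorial : K)

/-- Absolute convergence of the exponential series. -/
def Conv {K : Type} [NormedField K] (y : K) : Prop :=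
  Summable fun k : ℕ => ‖y ^ k / (k.factorial : K)‖

/-- The rational number `∏ α i ^ lam i`. -/
def apow {ι : Type} [Fintype ι] (α : ι → ℕ) (lam : ι → ℤ) : ℚ := ∏ i, (α i : ℚ) ^ lam i

/-- The linear form `∑ lam i * lg i`. -/
def lin {ι K : Type} [Fintype ι] [NormedField K] (lg : ι → K) (lam : ι → ℤ) : K :=
  ∑ i, (lam i : K) * lg i

/-- Properties of the valued field `K` and of the descent prime `q`. -/
structure Base (K : Type) [NormedField K] (q : ℕ) : Prop where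
  prime : q.Prime
  le3 : q ≤ 3
  norm_le : ∀ a : ℤ, ‖(a : K)‖ ≤ |(a : ℝ)|
  norm_ge : ∀ a : ℤ, a ≠ 0 → 1 ≤ ‖(a : K)‖ * |(a : ℝ)|
  one_le : 1 ≤ ‖(q : K)‖
  roots : ∀ u : K, u ^ q = 1 → u = 1 ∨ u = -1

/-- The analytic interface: discs for the Schwarz lemma with gain `g` per zero. -/
def Iface (K : Type) [NormedField K] (q n L : ℕ) (g a0 : ℝ) : Prop :=
  ∀ k S : ℕ, 1 ≤ S → ∃ r ρ D : ℝ, 0 ≤ r ∧ r < ρ ∧ ρ ≤ 3 * Real.exp g * S ∧ 1 ≤ D ∧ D ≤ 2 * S ∧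
    D / (ρ - r) ≤ Real.exp (-g) ∧ (∀ x : ℕ, x ≤ S → ‖(x : K)‖ ≤ r) ∧
    (∀ s : ℕ, s ≤ 2 * q * S → ‖(s : K) / q‖ ≤ ρ ∧ ∀ x : ℕ, x ≤ S → ‖(s : K) / q - x‖ ≤ D) ∧
    ∀ y : K, ‖y‖ * ‖(q : K)‖ ^ k ≤ a0 →
      Summable (fun j : ℕ => ‖y ^ j / (j.factorial : K)‖ * ρ ^ j) ∧
      ∑' j : ℕ, ‖y ^ j / (j.factorial : K)‖ * ρ ^ j ≤ Real.exp (3 * S * (n * L / q ^ k) + 1)

/-- The initial set of exponent vectors. -/
structure Init {ι K : Type} [Fintype ι] [NormedField K] (α : ι → ℕ) (lg : ι → K) (L : ℕ) (a0 : ℝ)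
    (Ls : Finset (ι → ℤ)) : Prop where
  zero_mem : (0 : ι → ℤ) ∈ Ls
  diam : ∀ lam ∈ Ls, ∀ lam' ∈ Ls, ∀ i, |((lam i - lam' i : ℤ) : ℝ)| * Real.log (α i) ≤ L
  near : ∀ lam ∈ Ls, ∀ lam' ∈ Ls, ‖lin lg lam - lin lg lam'‖ ≤ a0
  exp_eq : ∀ lam ∈ Ls, ex (lin lg lam) = ((apow α lam : ℚ) : K)

/-- Data and parameters of the transcendence argument. -/
structure Ctx (ι K : Type) where
  α : ι → ℕ
  b : ι → ℤ
  i0 : ι
  lg : ι → K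
  q : ℕ
  L : ℕ
  L0 : ℕ
  T : ℕ
  Kl : ℕ
  W : ℝ
  g : ℝ
  a0 : ℝ
  P1 : ℝ
  Y0 : ℝ
  U : ℝ

/-- The auxiliary function at one level: exponent set, integer coefficients, signs. -/
structure St (ι : Type) where
  Ls : Finset (ι → ℤ)
  P : (ι → ℤ) → ℕ → ℤ
  u : (ι → ℤ) → ℤ

namespace Ctx
variable {ι K : Type} [Fintype ι] [DecidableEq ι] [NormedField K] (c : Ctx ι K)

/-- `μ_i(λ) = b_{i0} λ_i - b_i λ_{i0}`. -/
def mu (lam : ι → ℤ) (i : ι) : ℤ := c.b c.i0 * lam i - c.b i * lam c.i0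

/-- `∏_{i ≠ i0} μ_i(λ) ^ t i`. -/
def mon (t : ι → ℕ) (lam : ι → ℤ) : ℤ := ∏ i ∈ univ.erase c.i0, c.mu lam i ^ t i

/-- Height per unit of `s` at level `k`. -/
noncomputable def H (k : ℕ) : ℝ := Fintype.card ι * c.L / c.q ^ k

/-- The basic cost. -/
noncomputable def Y : ℝ := c.Y0 + c.W * (4 * c.L0 + 11 * c.T + 4)

/-- The rational values of the auxiliary function at natural numbers. -/
def Phi (st : St ι) (t : ι → ℕ) (s : ℕ) : ℚ :=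
  ∑ lam ∈ st.Ls, ∑ l ∈ range (c.L0 + 1),
    (st.P lam l : ℚ) * (l.choose (t c.i0) : ℚ) * (s : ℚ) ^ (l - t c.i0) * (c.mon t lam : ℚ) *
      ((st.u lam : ℚ) * apow c.α lam) ^ s

/-- The auxiliary function on `K`. -/
noncomputable def Fn (st : St ι) (t : ι → ℕ) (z : K) : K :=
  ∑ lam ∈ st.Ls, ∑ l ∈ range (c.L0 + 1),
    (st.P lam l : K) * (l.choose (t c.i0) : K) * z ^ (l - t c.i0) * (c.mon t lam : K) *
      ex (lin c.lg lam * z)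

/-- Vanishing up to order `T'` at the points `1 ≤ s ≤ S'` prime to `q`. -/
def Van (st : St ι) (T' S' : ℕ) : Prop :=
  ∀ s : ℕ, 1 ≤ s → s ≤ S' → ¬ c.q ∣ s → ∀ t : ι → ℕ, ∑ i, t i ≤ T' → c.Phi st t s = 0

/-- Standing hypotheses. -/
structure OK : Prop where
  base : Base K c.q
  iface : Iface K c.q (Fintype.card ι) c.L c.g c.a0
  prime : ∀ i, (c.α i).Prime
  inj : Function.Injective c.α
  b0 : c.b c.i0 ≠ 0
  bW : ∀ i, |(c.b i : ℝ)| ≤ Real.exp c.W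
  LW : (c.L : ℝ) ≤ Real.exp c.W
  TW : (c.T : ℝ) ≤ Real.exp c.W
  aW : c.a0 ≤ Real.exp c.W
  AW : ∑ i, Real.log (c.α i) ≤ c.W
  W2 : 2 ≤ c.W
  g0 : 0 ≤ c.g
  P0 : 0 ≤ c.P1
  Y00 : 0 ≤ c.Y0
  PY : c.P1 * (c.q : ℝ) ^ (c.Kl * c.L0) ≤ Real.exp c.Y0
  small : ‖lin c.lg c.b‖ ≤ Real.exp (-c.U)
  UW : 3 * c.W ≤ c.U

/-- Invariants of the auxiliary function at level `k`. -/
structure Good (k : ℕ) (st : St ι) : Prop where
  zero_mem : (0 : ι → ℤ) ∈ st.Ls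
  ne : ∃ lam ∈ st.Ls, ∃ l ≤ c.L0, st.P lam l ≠ 0
  diam : ∀ lam ∈ st.Ls, ∀ lam' ∈ st.Ls, ∀ i,
    |((lam i - lam' i : ℤ) : ℝ)| * Real.log (c.α i) * (c.q : ℝ) ^ k ≤ c.L
  near : ∀ lam ∈ st.Ls, ∀ lam' ∈ st.Ls,
    ‖lin c.lg lam - lin c.lg lam'‖ * ‖(c.q : K)‖ ^ k ≤ c.a0
  sign : ∀ lam ∈ st.Ls, (st.u lam = 1 ∨ st.u lam = -1) ∧ st.u lam ^ c.q = 1
  exp_eq : ∀ lam ∈ st.Ls, ex (lin c.lg lam) = (((st.u lam : ℚ) * apow c.α lam : ℚ) : K)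
  size : ∑ lam ∈ st.Ls, ∑ l ∈ range (c.L0 + 1), |(st.P lam l : ℝ)| ≤
    c.P1 * (c.q : ℝ) ^ (k * c.L0)

end Ctx
end LFL
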