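import Pool.Agent.P.MP_7aad9f_nt.LFL.Upper

set_option autoImplicit false

namespace LFL
open Finset

section
variable {ι K : Type} [Fintype ι] [DecidableEq ι] [NormedField K] [CharZero K] [CompleteSpace K]

theorem double_coef {W : ℝ} (hW : 2 ≤ W) {L0 l j s : ℕ} (hl : l ≤ L0)
    (hs : (s : ℝ) ≤ Real.exp (2 * W)) :
    (l.choose j : ℝ) * (s : ℝ) ^ (l - j) ≤ Real.exp (3 * W * L0) := by
  have h1 : (l.choose j : ℝ) ≤ Real.exp W ^ L0 := by
    have a : (l.choose j : ℝ) ≤ 2 ^ l := by exact_mod_cast Nat.choose_le_two_pow l j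
    have b : (2 : ℝ) ≤ Real.exp W := by linarith [Real.add_one_le_exp W]
    calc (l.choose j : ℝ) ≤ 2 ^ l := a
      _ ≤ 2 ^ L0 := pow_le_pow_right₀ (by norm_num) hl
      _ ≤ _ := pow_le_pow_left₀ (by norm_num) b _
  have h2 : (s : ℝ) ^ (l - j) ≤ Real.exp (2 * W) ^ L0 :=
    (pow_le_pow_left₀ (Nat.cast_nonneg s) hs _).trans
      (pow_le_pow_right₀ (Real.one_le_exp (by linarith)) (by omega))
  calc (l.choose j : ℝ) * (s : ℝ) ^ (l - j) ≤ Real.exp W ^ L0 * Real.exp (2 * W) ^ L0 :=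
        mul_le_mul h1 h2 (by positivity) (by positivity)
    _ = _ := by
        rw [← Real.exp_nat_mul, ← Real.exp_nat_mul, ← Real.exp_add]; congr 1; ring

theorem liouville_rat (c : Ctx ι K) (h : c.OK) {k : ℕ} (hk : k ≤ c.Kl) (st : St ι)
    (hg : c.Good k st) (t : ι → ℕ) (ht : ∑ i, t i ≤ c.T) (s : ℕ)
    (hs : (s : ℝ) ≤ Real.exp (2 * c.W)) (hne : c.Phi st t s ≠ 0) :
    Real.exp (-(c.Y + 3 * s * c.H k)) ≤ ‖((c.Phi st t s : ℚ) : K)‖ := by
  obtain ⟨Den, hD, hD1, hD2⟩ := hg.exists_den h s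
  have hex : ∀ lam : ι → ℤ, ∃ m : ℕ, lam ∈ st.Ls →
      (Den : ℚ) * apow c.α lam ^ s = m ∧ (m : ℝ) ≤ Real.exp (2 * s * c.H k) := by
    intro lam
    by_cases hl : lam ∈ st.Ls
    · obtain ⟨m, h1, h2⟩ := hD2 lam hl ((s : ℤ) • lam) fun i => by
        simp [abs_mul]
      rw [apow_smul, zpow_natCast] at h1
      exact ⟨m, fun _ => ⟨h1, h2⟩⟩
    · exact ⟨0, fun h1 => absurd h1 hl⟩
  choose m hm using hex
  refine h.base.norm_rat_ge hne (m := ∑ lam ∈ st.Ls, ∑ l ∈ range (c.L0 + 1),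
    st.P lam l * ((l.choose (t c.i0) : ℤ) * (s : ℤ) ^ (l - t c.i0)) * c.mon t lam *
      st.u lam ^ s * m lam) hD ?_ ?_
  · unfold Ctx.Phi
    push_cast
    rw [mul_sum]
    refine sum_congr rfl fun lam hl => ?_
    rw [mul_sum]
    refine sum_congr rfl fun l _ => ?_
    rw [← (hm lam hl).1]
    ring
  · set E := Real.exp (3 * c.W * c.L0) * Real.exp (3 * c.W * c.T) * Real.exp (2 * s * c.H k)
      with hE
    have hE0 : 0 ≤ E := by positivity
    have h1 : |((∑ lam ∈ st.Ls, ∑ l ∈ range (c.L0 + 1),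
        st.P lam l * ((l.choose (t c.i0) : ℤ) * (s : ℤ) ^ (l - t c.i0)) * c.mon t lam *
          st.u lam ^ s * m lam : ℤ) : ℝ)| ≤
        (∑ lam ∈ st.Ls, ∑ l ∈ range (c.L0 + 1), |(st.P lam l : ℝ)|) * E := by
      push_cast
      rw [sum_mul]
      refine (abs_sum_le_sum_abs _ _).trans (sum_le_sum fun lam hl => ?_)
      rw [sum_mul]
      refine (abs_sum_le_sum_abs _ _).trans (sum_le_sum fun l hl' => ?_)
      have a1 := double_coef (j := t c.i0) h.W2 (Nat.lt_succ_iff.1 (mem_range.1 hl')) hs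
      have a2 := h.mon_le (hg.abs_le_exp h hl) ht
      have a3 : |(st.u lam : ℝ) ^ s| = 1 := by
        rcases (hg.sign lam hl).1 with e | e <;> simp [e]
      have a4 := (hm lam hl).2
      rw [abs_mul, abs_mul, abs_mul, abs_mul, a3, mul_one, Nat.abs_cast,
        abs_of_nonneg (a := (l.choose (t c.i0) : ℝ) * (s : ℝ) ^ (l - t c.i0)) (by positivity), hE,
        mul_assoc, mul_assoc, mul_assoc (Real.exp _)]
      gcongr
    have h2 := hg.size_le h hk
    calc _ ≤ (Real.exp c.Y0 * E) * Real.exp (s * c.H k) :=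
          mul_le_mul (h1.trans (mul_le_mul_of_nonneg_right h2 hE0)) hD1 (Nat.cast_nonneg _)
            (by positivity)
      _ = Real.exp (c.Y0 + 3 * c.W * c.L0 + 3 * c.W * c.T + 3 * s * c.H k) := by
          rw [hE, ← Real.exp_add, ← Real.exp_add, ← Real.exp_add, ← Real.exp_add]; congr 1; ring
      _ ≤ _ := by
          refine Real.exp_le_exp.2 ?_
          have b1 : 0 ≤ c.W * c.L0 := mul_nonneg (by linarith [h.W2]) (Nat.cast_nonneg _)
          have b2 : 0 ≤ c.W * c.T := mul_nonneg (by linarith [h.W2]) (Nat.cast_nonneg _)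
          have := h.W2
          unfold Ctx.Y
          nlinarith

/-- One doubling step. -/
theorem double (c : Ctx ι K) (h : c.OK) {k : ℕ} (hk : k ≤ c.Kl) (st : St ι)
    (hg : c.Good k st) (T' S' τ : ℕ) (hT : T' + τ ≤ c.T) (hS1 : 1 ≤ S')
    (hSW : 3 * Real.exp c.g * S' ≤ Real.exp c.W) (hv : c.Van st (T' + τ) S')
    (h1 : 2 * c.Y + 9 * S' * c.H k + 2 ≤ c.g * S' * τ / 2)
    (h2 : 2 * c.Y + 7 * S' * c.H k + 4 * c.W * S' * τ + 1 ≤ c.U) :
    c.Van st T' (2 * S') := by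
  intro s _ hs2 _ t ht
  by_contra hne
  have hs : (s : ℝ) ≤ 2 * S' := by exact_mod_cast hs2
  have hS0 : (0 : ℝ) ≤ S' := Nat.cast_nonneg _
  have hg1 : 1 ≤ Real.exp c.g := Real.one_le_exp h.g0
  have hsW : (s : ℝ) ≤ Real.exp (2 * c.W) := by
    have : Real.exp c.W ≤ Real.exp (2 * c.W) := Real.exp_le_exp.2 (by linarith [h.W2])
    nlinarith
  have hl := liouville_rat c h hk st hg t (by omega) s hsW hne
  have hu := upper c h hk st hg (T' + τ) S' τ hT hS1 hSW hv t (by omega) (c.q * s)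
    (by rw [mul_comm 2, mul_assoc]; exact Nat.mul_le_mul_left _ hs2)
  have hq : (c.q : K) ≠ 0 := Nat.cast_ne_zero.2 h.base.prime.ne_zero
  rw [Nat.cast_mul, mul_div_cancel_left₀ _ hq, hg.Fn_nat h] at hu
  have hH := h.H_nonneg k
  set A := -(c.Y + 6 * S' * c.H k) with hA
  have a1 : Real.exp A ≤ Real.exp (-(c.Y + 3 * s * c.H k)) :=
    Real.exp_le_exp.2 (by nlinarith [mul_le_mul_of_nonneg_right hs hH])
  have a2 : Real.exp (c.Y + 3 * S' * c.H k + 1 - c.g * S' * τ / 2) ≤ Real.exp (A - 1) :=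
    Real.exp_le_exp.2 (by linarith)
  have a3 : Real.exp (c.Y + S' * c.H k + 4 * c.W * S' * τ - c.U) ≤ Real.exp (A - 1) :=
    Real.exp_le_exp.2 (by linarith)
  have a4 : Real.exp A = Real.exp (A - 1) * Real.exp 1 := by
    rw [← Real.exp_add]; congr 1; ring
  have a5 := Real.exp_one_gt_d9
  have a6 := Real.exp_pos (A - 1)
  nlinarith

end

end LFL
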