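import Mathlib

set_option autoImplicit false

namespace LFL
open Finset

theorem sch_range {K : Type} [NormedField K] (ρ : ℝ) (G : Polynomial K) (n : ℕ)
    (hn : G.natDegree < n) :
    ∑ k ∈ G.support, ‖G.coeff k‖ * ρ ^ k = ∑ k ∈ range n, ‖G.coeff k‖ * ρ ^ k := by
  apply Finset.sum_subset
  · intro k hk
    exact Finset.mem_range.mpr (lt_of_le_of_lt (Polynomial.le_natDegree_of_mem_supp k hk) hn)
  · intro k _ hk
    rw [Polynomial.notMem_support_iff.mp hk]
    simp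

theorem sch_eval {K : Type} [NormedField K] (ρ : ℝ) (G : Polynomial K) (z : K) (hz : ‖z‖ ≤ ρ) :
    ‖G.eval z‖ ≤ ∑ k ∈ G.support, ‖G.coeff k‖ * ρ ^ k := by
  rw [Polynomial.eval_eq_sum, Polynomial.sum_def]
  refine (norm_sum_le _ _).trans (Finset.sum_le_sum fun k _ => ?_)
  rw [norm_mul, norm_pow]
  exact mul_le_mul_of_nonneg_left (pow_le_pow_left₀ (norm_nonneg _) hz k) (norm_nonneg _)

theorem sch_div {K : Type} [NormedField K] (r ρ : ℝ) (hr0 : 0 ≤ r) (hρ : r < ρ)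
    (G G1 : Polynomial K) (a x0 : K) (hx0 : ‖x0‖ ≤ r)
    (hG : G = Polynomial.C a + (Polynomial.X - Polynomial.C x0) * G1) :
    (ρ - r) * ∑ k ∈ G1.support, ‖G1.coeff k‖ * ρ ^ k ≤ ∑ k ∈ G.support, ‖G.coeff k‖ * ρ ^ k := by
  have hρ0 : 0 ≤ ρ := by linarith
  set n := G.natDegree + G1.natDegree + 1 with hn
  have hc : ∀ k, G1.coeff k = G.coeff (k + 1) + x0 * G1.coeff (k + 1) := by
    intro k
    rw [hG, Polynomial.coeff_add, Polynomial.coeff_C_succ, sub_mul, Polynomial.coeff_sub,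
      Polynomial.coeff_X_mul, Polynomial.coeff_C_mul]
    ring
  have h1 := sch_range ρ G1 n (by omega)
  have h2 := sch_range ρ G1 (n + 1) (by omega)
  have h3 := sch_range ρ G (n + 1) (by omega)
  rw [Finset.sum_range_succ'] at h2 h3
  have h4 : ρ * ∑ k ∈ range n, ‖G1.coeff k‖ * ρ ^ k ≤
      ∑ k ∈ range n, ‖G.coeff (k + 1)‖ * ρ ^ (k + 1) +
        r * ∑ k ∈ range n, ‖G1.coeff (k + 1)‖ * ρ ^ (k + 1) := by
    rw [Finset.mul_sum, Finset.mul_sum, ← Finset.sum_add_distrib]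
    apply Finset.sum_le_sum
    intro k _
    have e1 : ‖G1.coeff k‖ ≤ ‖G.coeff (k + 1)‖ + r * ‖G1.coeff (k + 1)‖ := by
      rw [hc k]
      refine (norm_add_le _ _).trans ?_
      rw [norm_mul]
      have := mul_le_mul_of_nonneg_right hx0 (norm_nonneg (G1.coeff (k + 1)))
      linarith
    have e2 := mul_le_mul_of_nonneg_right e1 (pow_nonneg hρ0 (k + 1))
    calc ρ * (‖G1.coeff k‖ * ρ ^ k) = ‖G1.coeff k‖ * ρ ^ (k + 1) := by ring
      _ ≤ _ := e2
      _ = _ := by ring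
  have h5 : 0 ≤ ‖G1.coeff 0‖ * ρ ^ 0 := by positivity
  have h6 : 0 ≤ ‖G.coeff 0‖ * ρ ^ 0 := by positivity
  have h7 : r * ∑ k ∈ range n, ‖G1.coeff (k + 1)‖ * ρ ^ (k + 1) ≤
      r * ∑ k ∈ G1.support, ‖G1.coeff k‖ * ρ ^ k :=
    mul_le_mul_of_nonneg_left (by linarith) hr0
  rw [← h1] at h4
  rw [sub_mul]
  linarith

theorem sch_taylor {K : Type} [NormedField K] (G G1 : Polynomial K) (a x0 x : K)
    (hG : G = Polynomial.C a + (Polynomial.X - Polynomial.C x0) * G1) (j : ℕ) :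
    (Polynomial.hasseDeriv (j + 1) G).eval x = (Polynomial.hasseDeriv j G1).eval x +
      (x - x0) * (Polynomial.hasseDeriv (j + 1) G1).eval x := by
  simp only [← Polynomial.taylor_coeff]
  rw [hG, map_add, Polynomial.taylor_mul, map_sub, Polynomial.taylor_X, Polynomial.taylor_C,
    Polynomial.taylor_C, Polynomial.coeff_add, Polynomial.coeff_C_succ, sub_mul, add_mul,
    Polynomial.coeff_sub, Polynomial.coeff_add, Polynomial.coeff_X_mul, Polynomial.coeff_C_mul,
    Polynomial.coeff_C_mul]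
  ring

theorem sch_aux {K : Type} [NormedField K] (X : Finset K) (r ρ δ D : ℝ) (z : K) (hr0 : 0 ≤ r)
    (hρ : r < ρ) (hδ : 0 < δ) (hδ2 : δ ≤ 2) (hD1 : 1 ≤ D) (hr : ∀ x ∈ X, ‖x‖ ≤ r)
    (hsep : ∀ x ∈ X, ∀ y ∈ X, x ≠ y → δ ≤ ‖x - y‖) (hz : ‖z‖ ≤ ρ) (hD : ∀ x ∈ X, ‖z - x‖ ≤ D)
    (N : ℕ) : ∀ (G : Polynomial K) (m : K → ℕ) (M ε : ℝ), ∑ x ∈ X, m x = N → 0 ≤ ε →
      ∑ k ∈ G.support, ‖G.coeff k‖ * ρ ^ k ≤ M →
      (∀ x ∈ X, ∀ j < m x, ‖(Polynomial.hasseDeriv j G).eval x‖ ≤ ε * (2 / δ) ^ j) →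
      ‖G.eval z‖ ≤ M * (D / (ρ - r)) ^ N + (N : ℝ) * (2 * D / δ) ^ N * ε := by
  classical
  have hη : 1 ≤ 2 / δ := by rw [le_div_iff₀ hδ]; linarith
  have hρr : 0 < ρ - r := by linarith
  induction N with
  | zero =>
    intro G m M ε _ _ hM _
    simpa using (sch_eval ρ G z hz).trans hM
  | succ N ih =>
    intro G m M ε hm hε hM hh
    obtain ⟨x0, hx0, hm0⟩ : ∃ x0 ∈ X, m x0 ≠ 0 :=
      Finset.exists_ne_zero_of_sum_ne_zero (by omega)
    set G1 := G /ₘ (Polynomial.X - Polynomial.C x0) with hG1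
    have hG : G = Polynomial.C (G.eval x0) + (Polynomial.X - Polynomial.C x0) * G1 := by
      rw [← Polynomial.modByMonic_X_sub_C_eq_C_eval, hG1]
      exact (Polynomial.modByMonic_add_div G (Polynomial.X - Polynomial.C x0)).symm
    have hev : ∀ x, G.eval x = G.eval x0 + (x - x0) * G1.eval x := by
      intro x
      conv_lhs => rw [hG]
      simp
    have h0 : ‖G.eval x0‖ ≤ ε := by
      simpa using hh x0 hx0 0 (Nat.pos_of_ne_zero hm0)
    have hm' : ∑ x ∈ X, Function.update m x0 (m x0 - 1) x = N := by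
      rw [Finset.sum_update_of_mem hx0]
      rw [← Finset.add_sum_erase X m hx0, ← Finset.sdiff_singleton_eq_erase] at hm
      omega
    have hM' : ∑ k ∈ G1.support, ‖G1.coeff k‖ * ρ ^ k ≤ M / (ρ - r) := by
      rw [le_div_iff₀ hρr, mul_comm]
      exact (sch_div r ρ hr0 hρ G G1 _ x0 (hr x0 hx0) hG).trans hM
    have hh' : ∀ x ∈ X, ∀ j < Function.update m x0 (m x0 - 1) x,
        ‖(Polynomial.hasseDeriv j G1).eval x‖ ≤ ε * (2 / δ) * (2 / δ) ^ j := by
      intro x hx j hj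
      by_cases hxx : x = x0
      · subst hxx
        rw [Function.update_self] at hj
        have h1 := sch_taylor G G1 _ x x hG j
        rw [sub_self, zero_mul, add_zero] at h1
        rw [← h1]
        have := hh x hx (j + 1) (by omega)
        rw [pow_succ] at this
        linarith
      · rw [Function.update_of_ne hxx] at hj
        have hs := hsep x hx x0 hx0 hxx
        have key : ∀ (c : K) (B : ℝ), ‖(x - x0) * c‖ ≤ 2 * B → ‖c‖ ≤ B * (2 / δ) := by
          intro c B hB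
          rw [norm_mul] at hB
          have h1 := mul_le_mul_of_nonneg_right hs (norm_nonneg c)
          rw [← mul_div_assoc, le_div_iff₀ hδ]
          linarith
        induction j with
        | zero =>
          have h1 : ‖G.eval x‖ ≤ ε := by simpa using hh x hx 0 hj
          have h2 : (x - x0) * G1.eval x = G.eval x - G.eval x0 := by rw [hev x]; ring
          have h3 := key (G1.eval x) ε (by
            rw [h2]
            exact (norm_sub_le _ _).trans (by linarith))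
          simpa using h3
        | succ j ihj =>
          have h1 := hh x hx (j + 1) hj
          have h2 := ihj (by omega)
          have h3 : (x - x0) * (Polynomial.hasseDeriv (j + 1) G1).eval x =
              (Polynomial.hasseDeriv (j + 1) G).eval x - (Polynomial.hasseDeriv j G1).eval x := by
            rw [sch_taylor G G1 _ x0 x hG j]; ring
          have h4 := key _ (ε * (2 / δ) ^ (j + 1)) (by
            rw [h3]
            refine (norm_sub_le _ _).trans ?_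
            rw [pow_succ] at h1 ⊢
            linarith)
          linarith
    have h5 := ih G1 _ (M / (ρ - r)) (ε * (2 / δ)) hm' (by positivity) hM' hh'
    have h6 : ‖G.eval z‖ ≤ ε + D * ‖G1.eval z‖ := by
      rw [hev z]
      refine (norm_add_le _ _).trans ?_
      rw [norm_mul]
      have := mul_le_mul_of_nonneg_right (hD x0 hx0) (norm_nonneg (G1.eval z))
      linarith
    have h7 : 1 ≤ 2 * D / δ := by
      rw [le_div_iff₀ hδ]; linarith
    have h8 : ε ≤ (2 * D / δ) ^ (N + 1) * ε := le_mul_of_one_le_left hε (one_le_pow₀ h7)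
    have h9 := mul_le_mul_of_nonneg_left h5 (by linarith : (0 : ℝ) ≤ D)
    have e : D * (M / (ρ - r) * (D / (ρ - r)) ^ N + (N : ℝ) * (2 * D / δ) ^ N * (ε * (2 / δ))) =
        M * (D / (ρ - r)) ^ (N + 1) + (N : ℝ) * (2 * D / δ) ^ (N + 1) * ε := by
      rw [pow_succ, pow_succ]; ring
    rw [e] at h9
    push_cast
    linarith

/-- Schwarz lemma with approximate zeros (Newton interpolation) for a polynomial over any normed
field, with the weighted `l1` norm of the coefficients. -/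
theorem poly_schwarz {K : Type} [NormedField K] (G : Polynomial K) (X : Finset K) (τ : ℕ)
    (r ρ δ D M ε : ℝ) (z : K) (hr0 : 0 ≤ r) (hρ : r < ρ) (hδ : 0 < δ) (hδ2 : δ ≤ 2)
    (hε0 : 0 ≤ ε) (hD1 : 1 ≤ D) (hr : ∀ x ∈ X, ‖x‖ ≤ r)
    (hsep : ∀ x ∈ X, ∀ y ∈ X, x ≠ y → δ ≤ ‖x - y‖)
    (hM : ∑ k ∈ G.support, ‖G.coeff k‖ * ρ ^ k ≤ M)
    (hε : ∀ x ∈ X, ∀ j < τ, ‖(Polynomial.hasseDeriv j G).eval x‖ ≤ ε)
    (hz : ‖z‖ ≤ ρ) (hD : ∀ x ∈ X, ‖z - x‖ ≤ D) :
    ‖G.eval z‖ ≤ M * (D / (ρ - r)) ^ (X.card * τ) +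
      ((X.card * τ : ℕ) : ℝ) * (2 * D / δ) ^ (X.card * τ) * ε := by
  have hη : 1 ≤ 2 / δ := by rw [le_div_iff₀ hδ]; linarith
  refine sch_aux X r ρ δ D z hr0 hρ hδ hδ2 hD1 hr hsep hz hD (X.card * τ) G (fun _ => τ) M ε
    (by simp) hε0 hM ?_
  intro x hx j hj
  exact (hε x hx j hj).trans (le_mul_of_one_le_right hε0 (one_le_pow₀ hη))

end LFL
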