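import Pool.Agent.P.MP_7aad9f_nt.LFL.Defs
import Pool.Agent.P.MP_7aad9f_nt.LFL.Schwarz

set_option autoImplicit false

namespace LFL
open Finset

/-- Weighted `l1` norm of the coefficients. -/
noncomputable def wnorm {K : Type} [NormedField K] (ρ : ℝ) (G : Polynomial K) : ℝ :=
  ∑ k ∈ G.support, ‖G.coeff k‖ * ρ ^ k

theorem wnorm_eq {K : Type} [NormedField K] (ρ : ℝ) (G : Polynomial K) (S : Finset ℕ)
    (hS : G.support ⊆ S) : wnorm ρ G = ∑ k ∈ S, ‖G.coeff k‖ * ρ ^ k := by
  unfold wnorm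
  apply Finset.sum_subset hS
  intro k _ hk
  rw [Polynomial.notMem_support_iff.mp hk]
  simp

theorem wnorm_add {K : Type} [NormedField K] (ρ : ℝ) (hρ : 0 ≤ ρ) (G H : Polynomial K) :
    wnorm ρ (G + H) ≤ wnorm ρ G + wnorm ρ H := by
  classical
  rw [wnorm_eq ρ (G + H) (G.support ∪ H.support) Polynomial.support_add,
    wnorm_eq ρ G (G.support ∪ H.support) Finset.subset_union_left,
    wnorm_eq ρ H (G.support ∪ H.support) Finset.subset_union_right, ← Finset.sum_add_distrib]
  apply Finset.sum_le_sum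
  intro k _
  rw [Polynomial.coeff_add, ← add_mul]
  exact mul_le_mul_of_nonneg_right (norm_add_le _ _) (pow_nonneg hρ k)

theorem wnorm_sum {K I : Type} [NormedField K] (ρ : ℝ) (hρ : 0 ≤ ρ) (s : Finset I)
    (f : I → Polynomial K) : wnorm ρ (∑ i ∈ s, f i) ≤ ∑ i ∈ s, wnorm ρ (f i) := by
  classical
  induction s using Finset.induction_on with
  | empty => simp [wnorm]
  | insert a s ha ih =>
    rw [Finset.sum_insert ha, Finset.sum_insert ha]
    exact (wnorm_add ρ hρ _ _).trans (by linarith)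

theorem wnorm_monomial {K : Type} [NormedField K] (ρ : ℝ) (n : ℕ) (a : K) :
    wnorm ρ (Polynomial.monomial n a) = ‖a‖ * ρ ^ n := by
  rw [wnorm_eq ρ _ {n} (Polynomial.support_monomial_subset n a)]
  simp

/-- Truncated exponential series. -/
noncomputable def trunc {K : Type} [NormedField K] (l : K) (J : ℕ) : Polynomial K :=
  ∑ k ∈ range J, Polynomial.monomial k (l ^ k / (k.factorial : K))

theorem summable_ex {K : Type} [NormedField K] [CompleteSpace K] (l x : K) (ρ : ℝ)
    (hx : ‖x‖ ≤ ρ) (h : Summable (fun j : ℕ => ‖l ^ j / (j.factorial : K)‖ * ρ ^ j)) :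
    Summable (fun j : ℕ => (l * x) ^ j / (j.factorial : K)) := by
  apply Summable.of_norm_bounded h
  intro j
  have : (l * x) ^ j / (j.factorial : K) = l ^ j / (j.factorial : K) * x ^ j := by
    rw [mul_pow]; ring
  rw [this, norm_mul, norm_pow]
  exact mul_le_mul_of_nonneg_left (pow_le_pow_left₀ (norm_nonneg _) hx j) (norm_nonneg _)

theorem trunc_hasse_tendsto {K : Type} [NormedField K] [CharZero K] [CompleteSpace K]
    (l x : K) (ρ : ℝ) (hx : ‖x‖ ≤ ρ)
    (h : Summable (fun j : ℕ => ‖l ^ j / (j.factorial : K)‖ * ρ ^ j)) (b : ℕ) :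
    Filter.Tendsto (fun J : ℕ => (Polynomial.hasseDeriv b (trunc l J)).eval x) Filter.atTop
      (nhds (l ^ b / (b.factorial : K) * ex (l * x))) := by
  have h1 : HasSum (fun m : ℕ => l ^ b / (b.factorial : K) * ((l * x) ^ m / (m.factorial : K)))
      (l ^ b / (b.factorial : K) * ex (l * x)) :=
    (summable_ex l x ρ hx h).hasSum.mul_left _
  let a : ℕ → K := fun k => (k.choose b : K) * (l ^ k / (k.factorial : K)) * x ^ (k - b)
  have h2 : (fun m : ℕ => a (m + b)) =
      fun m : ℕ => l ^ b / (b.factorial : K) * ((l * x) ^ m / (m.factorial : K)) := by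
    funext m
    have hc : (((m + b).choose b : ℕ) : K) * (m.factorial : K) * (b.factorial : K) =
        ((m + b).factorial : K) := by
      exact_mod_cast Nat.add_choose_mul_factorial_mul_factorial m b
    have hm : (m.factorial : K) ≠ 0 := by exact_mod_cast m.factorial_ne_zero
    have hb : (b.factorial : K) ≠ 0 := by exact_mod_cast b.factorial_ne_zero
    have hmb : ((m + b).factorial : K) ≠ 0 := by exact_mod_cast (m + b).factorial_ne_zero
    have hc' : (((m + b).choose b : ℕ) : K) =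
        ((m + b).factorial : K) / ((m.factorial : K) * (b.factorial : K)) := by
      rw [← hc]; field_simp
    simp only [a, Nat.add_sub_cancel]
    rw [hc', mul_pow, pow_add]
    field_simp
  have h3 : ∑ k ∈ range b, a k = 0 := by
    apply Finset.sum_eq_zero
    intro k hk
    simp [a, Nat.choose_eq_zero_of_lt (Finset.mem_range.mp hk)]
  have h4 : HasSum a (l ^ b / (b.factorial : K) * ex (l * x)) := by
    rw [← hasSum_nat_add_iff' b, h3, sub_zero, h2]
    exact h1
  have h5 : (fun J : ℕ => (Polynomial.hasseDeriv b (trunc l J)).eval x) =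
      fun J : ℕ => ∑ k ∈ range J, a k := by
    funext J
    simp only [trunc, map_sum, Polynomial.hasseDeriv_monomial, Polynomial.eval_finsetSum,
      Polynomial.eval_monomial, a]
  rw [h5]
  exact h4.tendsto_sum_nat

/-- The truncated exponential polynomial. -/
noncomputable def truncG {K I : Type} [NormedField K] (s : Finset I) (c : I → K) (d : I → ℕ)
    (l : I → K) (J : ℕ) : Polynomial K :=
  ∑ i ∈ s, Polynomial.C (c i) * (Polynomial.monomial (d i) 1 * trunc (l i) J)

theorem wnorm_truncG {K I : Type} [NormedField K] (s : Finset I) (c : I → K) (d : I → ℕ)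
    (l : I → K) (J : ℕ) (ρ E : ℝ) (hρ : 0 ≤ ρ)
    (hE : ∀ i ∈ s, Summable (fun j : ℕ => ‖l i ^ j / (j.factorial : K)‖ * ρ ^ j) ∧
      ∑' j : ℕ, ‖l i ^ j / (j.factorial : K)‖ * ρ ^ j ≤ E) :
    wnorm ρ (truncG s c d l J) ≤ (∑ i ∈ s, ‖c i‖ * ρ ^ d i) * E := by
  refine (wnorm_sum ρ hρ s _).trans ?_
  rw [Finset.sum_mul]
  apply Finset.sum_le_sum
  intro i hi
  have e : Polynomial.C (c i) * (Polynomial.monomial (d i) 1 * trunc (l i) J) =
      ∑ k ∈ range J, Polynomial.monomial (d i + k) (c i * (l i ^ k / (k.factorial : K))) := by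
    simp only [trunc, Finset.mul_sum, Polynomial.monomial_mul_monomial, one_mul,
      Polynomial.C_mul_monomial]
  rw [e]
  refine (wnorm_sum ρ hρ _ _).trans ?_
  have e2 : ∑ k ∈ range J,
      wnorm ρ (Polynomial.monomial (d i + k) (c i * (l i ^ k / (k.factorial : K)))) =
      ‖c i‖ * ρ ^ d i * ∑ k ∈ range J, ‖l i ^ k / (k.factorial : K)‖ * ρ ^ k := by
    rw [Finset.mul_sum]
    apply Finset.sum_congr rfl
    intro k _
    rw [wnorm_monomial, norm_mul, pow_add]
    ring
  rw [e2]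
  apply mul_le_mul_of_nonneg_left _ (mul_nonneg (norm_nonneg _) (pow_nonneg hρ _))
  refine le_trans ?_ (hE i hi).2
  exact (hE i hi).1.sum_le_tsum _ (fun k _ => mul_nonneg (norm_nonneg _) (pow_nonneg hρ _))

theorem truncG_hasse_tendsto {K I : Type} [NormedField K] [CharZero K] [CompleteSpace K]
    (s : Finset I) (c : I → K) (d : I → ℕ) (l : I → K) (x : K) (ρ : ℝ) (hx : ‖x‖ ≤ ρ)
    (h : ∀ i ∈ s, Summable (fun j : ℕ => ‖l i ^ j / (j.factorial : K)‖ * ρ ^ j)) (j : ℕ) :
    Filter.Tendsto (fun J : ℕ => (Polynomial.hasseDeriv j (truncG s c d l J)).eval x)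
      Filter.atTop
      (nhds (∑ i ∈ s, c i * ∑ ab ∈ antidiagonal j,
        ((d i).choose ab.1 : K) * x ^ (d i - ab.1) * (l i ^ ab.2 / (ab.2.factorial : K)) *
          ex (l i * x))) := by
  have e : (fun J : ℕ => (Polynomial.hasseDeriv j (truncG s c d l J)).eval x) =
      fun J : ℕ => ∑ i ∈ s, c i * ∑ ab ∈ antidiagonal j,
        ((d i).choose ab.1 : K) * x ^ (d i - ab.1) *
          (Polynomial.hasseDeriv ab.2 (trunc (l i) J)).eval x := by
    funext J
    simp only [truncG, map_sum, Polynomial.eval_finsetSum]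
    apply Finset.sum_congr rfl
    intro i _
    rw [← Polynomial.smul_eq_C_mul, map_smul, Polynomial.eval_smul, smul_eq_mul,
      Polynomial.hasseDeriv_mul, Polynomial.eval_finsetSum]
    congr 1
    apply Finset.sum_congr rfl
    intro ab _
    rw [Polynomial.eval_mul, Polynomial.hasseDeriv_monomial, Polynomial.eval_monomial, mul_one]
  rw [e]
  apply tendsto_finsetSum
  intro i hi
  apply Filter.Tendsto.const_mul
  apply tendsto_finsetSum
  intro ab _
  rw [mul_assoc]
  exact (trunc_hasse_tendsto (l i) x ρ hx (h i hi) ab.2).const_mul _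

/-- The same for exponential polynomials `∑ c i * z ^ d i * ex (l i * z)`. -/
theorem exp_poly_schwarz {K I : Type} [NormedField K] [CharZero K] [CompleteSpace K]
    (s : Finset I) (c : I → K) (d : I → ℕ) (l : I → K) (X : Finset K) (τ : ℕ)
    (r ρ δ D E ε : ℝ) (z : K) (hr0 : 0 ≤ r) (hρ : r < ρ) (hδ : 0 < δ) (hδ2 : δ ≤ 2)
    (hε0 : 0 ≤ ε) (hD1 : 1 ≤ D) (hr : ∀ x ∈ X, ‖x‖ ≤ r)
    (hsep : ∀ x ∈ X, ∀ y ∈ X, x ≠ y → δ ≤ ‖x - y‖)
    (hE : ∀ i ∈ s, Summable (fun j : ℕ => ‖l i ^ j / (j.factorial : K)‖ * ρ ^ j) ∧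
      ∑' j : ℕ, ‖l i ^ j / (j.factorial : K)‖ * ρ ^ j ≤ E)
    (hε : ∀ x ∈ X, ∀ j < τ, ‖∑ i ∈ s, c i * ∑ ab ∈ antidiagonal j,
      ((d i).choose ab.1 : K) * x ^ (d i - ab.1) * (l i ^ ab.2 / (ab.2.factorial : K)) *
        ex (l i * x)‖ ≤ ε)
    (hz : ‖z‖ ≤ ρ) (hD : ∀ x ∈ X, ‖z - x‖ ≤ D) :
    ‖∑ i ∈ s, c i * z ^ d i * ex (l i * z)‖ ≤
      (∑ i ∈ s, ‖c i‖ * ρ ^ d i) * E * (D / (ρ - r)) ^ (X.card * τ) +
      ((X.card * τ : ℕ) : ℝ) * (2 * D / δ) ^ (X.card * τ) * ε := by
  have hρ0 : 0 ≤ ρ := by linarith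
  set B : ℝ := ((X.card * τ : ℕ) : ℝ) * (2 * D / δ) ^ (X.card * τ) with hB
  have hB0 : 0 ≤ B := by
    rw [hB]
    have : 0 ≤ 2 * D / δ := by positivity
    positivity
  have hlim : Filter.Tendsto (fun J : ℕ => ‖(truncG s c d l J).eval z‖) Filter.atTop
      (nhds ‖∑ i ∈ s, c i * z ^ d i * ex (l i * z)‖) := by
    have h0 := truncG_hasse_tendsto s c d l z ρ hz (fun i hi => (hE i hi).1) 0
    have e : ∑ i ∈ s, c i * ∑ ab ∈ antidiagonal 0,
        ((d i).choose ab.1 : K) * z ^ (d i - ab.1) * (l i ^ ab.2 / (ab.2.factorial : K)) *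
          ex (l i * z) = ∑ i ∈ s, c i * z ^ d i * ex (l i * z) := by
      apply Finset.sum_congr rfl
      intro i _
      simp [mul_assoc]
    rw [e] at h0
    simpa using h0.norm
  apply le_of_forall_pos_le_add
  intro η hη
  have hη' : 0 < η / (B + 1) := by positivity
  have hev : ∀ᶠ J : ℕ in Filter.atTop, ∀ x ∈ X, ∀ j ∈ range τ,
      ‖(Polynomial.hasseDeriv j (truncG s c d l J)).eval x‖ ≤ ε + η / (B + 1) := by
    rw [Filter.eventually_all_finset]
    intro x hx
    rw [Filter.eventually_all_finset]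
    intro j hj
    have h0 := (truncG_hasse_tendsto s c d l x ρ ((hr x hx).trans hρ.le)
      (fun i hi => (hE i hi).1) j).norm
    have h1 := hε x hx j (Finset.mem_range.mp hj)
    exact (h0.eventually (gt_mem_nhds (lt_of_le_of_lt h1 (by linarith)))).mono
      (fun J hJ => le_of_lt hJ)
  apply le_of_tendsto hlim
  filter_upwards [hev] with J hJ
  have h2 := poly_schwarz (truncG s c d l J) X τ r ρ δ D
    ((∑ i ∈ s, ‖c i‖ * ρ ^ d i) * E) (ε + η / (B + 1)) z hr0 hρ hδ hδ2 (by linarith) hD1 hr hsep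
    (wnorm_truncG s c d l J ρ E hρ0 hE)
    (fun x hx j hj => hJ x hx j (Finset.mem_range.mpr hj)) hz hD
  have h3 : B * (η / (B + 1)) ≤ η := by
    rw [← mul_div_assoc, div_le_iff₀ (by linarith)]
    nlinarith
  rw [← hB] at h2
  nlinarith

end LFL
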