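import Pool.Agent.P.MP_7aad9f_nt.LFL.Master

set_option autoImplicit false

namespace LFL
open Finset

theorem final : ∃ κ : ℝ, 0 < κ ∧ ∃ K : ℝ, ∀ a b c : ℕ, 0 < a → 0 < b → Nat.Coprime a b →
    a + b = c → Real.log c ≤ K * (rad (a * b * c) : ℝ) ^ (1 / 3 : ℝ) *
      sav κ (rad (a * b * c)) := by
  obtain ⟨κ, hκ, K1, hK1, h1⟩ := master
  obtain ⟨K2, hK2, h2⟩ := rpow_le_sav κ (1 / 3) hκ (by norm_num)
  obtain ⟨K3, hK3, h3⟩ := solve_log
  obtain ⟨K4, hK4, h4⟩ := sav_le κ hκ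
  obtain ⟨K5, hK5, h5⟩ := log_pow_sav_le κ hκ 6
  refine ⟨κ / 2, by positivity, K3 * (K1 * K2) * (5 + Real.log (K1 * K2 * K4)) ^ 4 * K5,
    fun a b c ha hb hab hc => ?_⟩
  have hc2 : 2 ≤ c := by omega
  have hR : 2 ≤ rad (a * b * c) := by
    have h0 : a * b * c ≠ 0 := by positivity
    have hp : c.minFac ∈ (a * b * c).primeFactors :=
      Nat.mem_primeFactors.2 ⟨Nat.minFac_prime (by omega),
        (Nat.minFac_dvd c).trans (dvd_mul_left _ _), h0⟩
    exact (Nat.prime_of_mem_primeFactors hp).two_le.trans (single_le_prod'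
      (f := fun p => p) (fun p hp => (Nat.prime_of_mem_primeFactors hp).one_le) hp)
  have g2 := h2 _ hR
  have g4 := h4 _ hR
  have g5 := h5 _ hR
  have g1 := fun V => h1 a b c V ha hb hab hc
  have hR' : (2 : ℝ) ≤ rad (a * b * c) := by exact_mod_cast hR
  generalize ((rad (a * b * c) : ℕ) : ℝ) = R at *
  have hR0 : 0 < R := by linarith
  have hL : 0 ≤ Real.log R := Real.log_nonneg (by linarith)
  have hy : 0 < Real.log c := Real.log_pos (by exact_mod_cast hc2)
  have hs : 0 < sav κ R := Real.exp_pos _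
  have hr : 0 < R ^ (1 / 3 : ℝ) := by positivity
  have hK : 1 ≤ K1 * K2 * K4 := one_le_mul_of_one_le_of_one_le
    (one_le_mul_of_one_le_of_one_le hK1 hK2) hK4
  have hlK : 0 ≤ Real.log (K1 * K2 * K4) := Real.log_nonneg hK
  have e1 : 1 ≤ K2 * R ^ (1 / 3 : ℝ) * sav κ R := by
    rw [Real.rpow_neg hR0.le, inv_eq_one_div, div_le_iff₀ hr] at g2
    linarith
  set Z := K1 * K2 * R ^ (1 / 3 : ℝ) * (1 + Real.log R) ^ 2 * sav κ R with hZ
  have hZ1 : 1 ≤ Z := by
    rw [show Z = K1 * (1 + Real.log R) ^ 2 * (K2 * R ^ (1 / 3 : ℝ) * sav κ R) by rw [hZ]; ring]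
    exact one_le_mul_of_one_le_of_one_le
      (one_le_mul_of_one_le_of_one_le hK1 (one_le_pow₀ (by linarith))) e1
  have hM : (1 : ℝ) ≤ max 1 (2 * Real.log R) := le_max_left _ _
  have f1 := g1 (max (max 1 (2 * Real.log R)) (Real.log (Real.log c) + 2))
    (hM.trans (le_max_left _ _)) (by
      refine le_trans ?_ (Real.exp_le_exp.2 (le_max_right _ _))
      rw [Real.exp_add, Real.exp_log hy, mul_comm]
      have := Real.add_one_le_exp 2
      exact mul_le_mul_of_nonneg_left (by linarith) hy.le)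
    ((le_max_right _ _).trans (le_max_left _ _))
  have f2 := h3 _ Z _ hy hZ1 hM (f1.trans (mul_le_mul_of_nonneg_right (by
    rw [hZ]
    gcongr
    exact le_mul_of_one_le_right (by linarith) hK2) (by positivity)))
  have f3 : Real.log Z ≤ Real.log (K1 * K2 * K4) + 3 * Real.log R := by
    have a1 : Z ≤ K1 * K2 * K4 * (R ^ (1 / 3 : ℝ) * (1 + Real.log R) ^ 2) := by
      rw [show K1 * K2 * K4 * (R ^ (1 / 3 : ℝ) * (1 + Real.log R) ^ 2) =
        K1 * K2 * R ^ (1 / 3 : ℝ) * (1 + Real.log R) ^ 2 * K4 by ring, hZ]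
      gcongr
    have a2 := Real.log_le_log (by linarith) a1
    have a3 := Real.log_le_sub_one_of_pos (show 0 < 1 + Real.log R by linarith)
    rw [Real.log_mul (x := K1 * K2 * K4) (by linarith) (by positivity),
      Real.log_mul hr.ne' (by positivity),
      Real.log_rpow hR0, Real.log_pow, Nat.cast_ofNat] at a2
    linarith
  have f4 : max 1 (2 * Real.log R) + Real.log Z ≤
      (5 + Real.log (K1 * K2 * K4)) * (1 + Real.log R) := by
    have a1 : max 1 (2 * Real.log R) ≤ 1 + 2 * Real.log R := max_le (by linarith) (by linarith)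
    nlinarith [mul_nonneg hlK hL]
  have f5 : 0 ≤ max 1 (2 * Real.log R) + Real.log Z := by
    have := Real.log_nonneg hZ1
    linarith
  calc Real.log c ≤ K3 * Z * ((5 + Real.log (K1 * K2 * K4)) * (1 + Real.log R)) ^ 4 :=
        f2.trans (by gcongr)
    _ = K3 * (K1 * K2) * (5 + Real.log (K1 * K2 * K4)) ^ 4 * R ^ (1 / 3 : ℝ) *
        ((1 + Real.log R) ^ 6 * sav κ R) := by rw [hZ]; ring
    _ ≤ K3 * (K1 * K2) * (5 + Real.log (K1 * K2 * K4)) ^ 4 * R ^ (1 / 3 : ℝ) *
        (K5 * sav (κ / 2) R) := by gcongr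
    _ = _ := by ring

end LFL
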