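import Pool.Agent.P.MP_7aad9f_nt.LFL.Member

set_option autoImplicit false

namespace LFL
open Finset

theorem master_two_le {m : ℕ} (h : 2 ≤ m) : 2 ≤ rad m := by
  have h1 : m.minFac ∈ m.primeFactors :=
    Nat.mem_primeFactors.2 ⟨Nat.minFac_prime (by omega), Nat.minFac_dvd m, by omega⟩
  exact (Nat.prime_of_mem_primeFactors h1).two_le.trans
    (single_le_prod' (f := fun p => p) (fun p hp => (Nat.prime_of_mem_primeFactors hp).one_le) h1)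

theorem master_rad_le {m n : ℕ} (hn : n ≠ 0) (h : m ∣ n) : rad m ≤ rad n :=
  prod_le_prod_of_subset_of_one_le' (Nat.primeFactors_mono h hn)
    fun _ hp _ => (Nat.prime_of_mem_primeFactors hp).one_le

theorem master_rad_pos (m : ℕ) : 0 < rad m :=
  prod_pos fun _ hp => (Nat.prime_of_mem_primeFactors hp).pos

theorem master_arch : ∃ K : ℝ, 1 ≤ K ∧ ∀ (x y c : ℕ) (V : ℝ), 0 < x → 0 < y → Nat.Coprime x y →
    x + y = c → 1 ≤ V → 3 * Real.log c ≤ Real.exp V → 2 * Real.log (rad (x * y * c)) ≤ V →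
    Real.log c ≤ Real.log x + K * ((rad (x * y * c) : ℝ) ^ (1 / 24 : ℝ) * V ^ 4) := by
  obtain ⟨C, hC, h1⟩ := arch_nat
  obtain ⟨K, hK, h2⟩ := prod_log_le C (1 / 24) hC (by norm_num)
  refine ⟨1 + 2 * K, by linarith, ?_⟩
  intro x y c V hx hy hxy hc hV hcV hRV
  have hc0 : 0 < c := by omega
  have e1 : rad (y * c) ≤ rad (x * y * c) :=
    master_rad_le (by positivity) ⟨x, by ring⟩
  have e1' : (rad (y * c) : ℝ) ≤ rad (x * y * c) := by exact_mod_cast e1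
  have e2 : (1 : ℝ) ≤ rad (y * c) := by exact_mod_cast master_rad_pos (y * c)
  have hp : ∀ r ∈ (y * c).primeFactors, 0 < r := fun r hr => (Nat.prime_of_mem_primeFactors hr).pos
  have hl : ∀ r ∈ (y * c).primeFactors, 0 ≤ Real.log r := fun r _ => Real.log_natCast_nonneg r
  have e3 : ∑ r ∈ (y * c).primeFactors, Real.log r ≤ V := by
    rw [← Real.log_prod fun r hr => by exact_mod_cast (hp r hr).ne', ← Nat.cast_prod]
    have e4 := Real.log_le_log (by linarith) e1'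
    have e5 := Real.log_nonneg e2
    change Real.log (rad (y * c)) ≤ V
    linarith
  have e4 := h1 x y c V hx hy hxy hc hV hcV e3
  have e5 := h2 (y * c).primeFactors hp
  change _ ≤ K * (rad (y * c) : ℝ) ^ (1 / 24 : ℝ) at e5
  have e6 : ∏ r ∈ (y * c).primeFactors, Real.log r ≤
      ∏ r ∈ (y * c).primeFactors, (1 + Real.log r) :=
    prod_le_prod hl fun r _ => by linarith
  have e7 : (1 : ℝ) ≤ ∏ r ∈ (y * c).primeFactors, (1 + Real.log r) :=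
    le_trans (by simp) (prod_le_prod (f := fun _ => (1 : ℝ)) (fun _ _ => zero_le_one)
      fun r hr => by linarith [hl r hr])
  have e8 : (rad (y * c) : ℝ) ^ (1 / 24 : ℝ) ≤ (rad (x * y * c) : ℝ) ^ (1 / 24 : ℝ) :=
    Real.rpow_le_rpow (by linarith) e1' (by norm_num)
  have e9 : (1 : ℝ) ≤ (rad (x * y * c) : ℝ) ^ (1 / 24 : ℝ) :=
    Real.one_le_rpow (by linarith) (by norm_num)
  have e10 : (1 : ℝ) ≤ V ^ 4 := one_le_pow₀ hV
  have e11 : 0 ≤ ∏ r ∈ (y * c).primeFactors, Real.log r := prod_nonneg hl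
  obtain ⟨P, hP⟩ : ∃ P, P = ∏ r ∈ (y * c).primeFactors, (1 + Real.log r) := ⟨_, rfl⟩
  obtain ⟨Q, hQ⟩ : ∃ Q, Q = ∏ r ∈ (y * c).primeFactors, Real.log r := ⟨_, rfl⟩
  rw [← hP] at e5 e6 e7
  rw [← hQ] at e4 e6 e11
  have e12 : Q + V ≤ V * (2 * P) := by nlinarith
  have hC0 : 0 ≤ C ^ (y * c).primeFactors.card := by positivity
  have e13 : C ^ (y * c).primeFactors.card * V ^ 3 * (Q + V) ≤
      2 * K * ((rad (x * y * c) : ℝ) ^ (1 / 24 : ℝ) * V ^ 4) :=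
    calc _ ≤ C ^ (y * c).primeFactors.card * V ^ 3 * (V * (2 * P)) := by gcongr
      _ = 2 * (C ^ (y * c).primeFactors.card * P) * V ^ 4 := by ring
      _ ≤ 2 * (K * (rad (x * y * c) : ℝ) ^ (1 / 24 : ℝ)) * V ^ 4 := by
          have e15 := e5.trans (mul_le_mul_of_nonneg_left e8 (by linarith))
          gcongr
      _ = _ := by ring
  have e14 : (1 : ℝ) ≤ (rad (x * y * c) : ℝ) ^ (1 / 24 : ℝ) * V ^ 4 :=
    one_le_mul_of_one_le_of_one_le e9 e10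
  linarith

theorem master_pick (s t u : Finset ℕ) (T : ℝ) :
    ((∀ p ∈ s, (p : ℝ) ≤ T) ∨ ∃ p ∈ s, ∃ py ∈ t, ∃ pz ∈ u, T < p ∧ p ≤ py ∧ p ≤ pz) ∨
    ((∀ p ∈ t, (p : ℝ) ≤ T) ∨ ∃ p ∈ t, ∃ py ∈ s, ∃ pz ∈ u, T < p ∧ p ≤ py ∧ p ≤ pz) ∨
    ((∀ p ∈ u, (p : ℝ) ≤ T) ∨ ∃ p ∈ u, ∃ py ∈ s, ∃ pz ∈ t, T < p ∧ p ≤ py ∧ p ≤ pz) := by
  by_cases hs : ∀ p ∈ s, (p : ℝ) ≤ T
  · exact Or.inl (Or.inl hs)
  by_cases ht : ∀ p ∈ t, (p : ℝ) ≤ T
  · exact Or.inr (Or.inl (Or.inl ht))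
  by_cases hu : ∀ p ∈ u, (p : ℝ) ≤ T
  · exact Or.inr (Or.inr (Or.inl hu))
  push Not at hs ht hu
  obtain ⟨p, hp, hp'⟩ := hs
  obtain ⟨q, hq, hq'⟩ := ht
  obtain ⟨r, hr, hr'⟩ := hu
  by_cases h1 : p ≤ q ∧ p ≤ r
  · exact Or.inl (Or.inr ⟨p, hp, q, hq, r, hr, hp', h1⟩)
  by_cases h2 : q ≤ p ∧ q ≤ r
  · exact Or.inr (Or.inl (Or.inr ⟨q, hq, p, hp, r, hr, hq', h2⟩))
  exact Or.inr (Or.inr (Or.inr ⟨r, hr, p, hp, q, hq, hr', by omega, by omega⟩))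

theorem master : ∃ κ : ℝ, 0 < κ ∧ ∃ K : ℝ, 1 ≤ K ∧ ∀ (a b c : ℕ) (V : ℝ), 0 < a → 0 < b →
    Nat.Coprime a b → a + b = c → 1 ≤ V → 3 * Real.log c ≤ Real.exp V →
    2 * Real.log (rad (a * b * c)) ≤ V →
    Real.log c ≤ K * (rad (a * b * c) : ℝ) ^ (1 / 3 : ℝ) *
      (1 + Real.log (rad (a * b * c))) ^ 2 * sav κ (rad (a * b * c)) * V ^ 4 := by
  obtain ⟨κ, hκ, K1, hK1, h1⟩ := member_bound
  obtain ⟨K2, hK2, h2⟩ := master_arch
  obtain ⟨K3, hK3, h3⟩ := rpow_le_sav κ (7 / 24) hκ (by norm_num)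
  have hK23 : 1 ≤ K2 * K3 := one_le_mul_of_one_le_of_one_le hK2 hK3
  refine ⟨κ, hκ, K1 + K2 * K3, by linarith, ?_⟩
  intro a b c V ha hb hab hc hV hcV hRV
  have hc0 : 0 < c := by omega
  have hR : 2 ≤ rad (a * b * c) := by
    refine master_two_le (le_trans (by omega : 2 ≤ c) (Nat.le_mul_of_pos_left c (by positivity)))
  have eb : b * a * c = a * b * c := by ring
  have ec : c * a * b = a * b * c := by ring
  have hac : Nat.Coprime a c := by rw [← hc]; simpa using hab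
  have hbc : Nat.Coprime b c := by rw [← hc]; simpa using hab.symm
  have hac' : (a : ℝ) ≤ c := by exact_mod_cast (by omega : a ≤ c)
  have hbc' : (b : ℝ) ≤ c := by exact_mod_cast (by omega : b ≤ c)
  have hcz : (c : ℤ) = a + b := by exact_mod_cast hc.symm
  have ma : Mem a b c c V := ⟨ha, hb, hc0, hbc, Nat.Coprime.mul_right hab hac, by omega,
    ⟨-(a + 2 * b), by rw [hcz]; ring⟩, hbc', le_rfl, hV, hcV, hRV⟩
  have mb : Mem b a c c V := ⟨hb, ha, hc0, hac, Nat.Coprime.mul_right hab.symm hbc, by omega,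
    ⟨-(b + 2 * a), by rw [hcz]; ring⟩, hac', le_rfl, hV, hcV, eb ▸ hRV⟩
  have mc : a ≠ b → Mem c a b c V := fun h => ⟨hc0, ha, hb, hab,
    Nat.Coprime.mul_right hac.symm hbc.symm, h, ⟨a - b, by rw [hcz]; ring⟩, hac', hbc', hV, hcV,
    ec ▸ hRV⟩
  have a1 := h1 a b c c V ma hR
  have a2 := h1 b a c c V mb (eb ▸ hR)
  have a3 := fun h => h1 c a b c V (mc h) (ec ▸ hR)
  have b1 := h2 a b c V ha hb hab hc hV hcV hRV
  have b2 := h2 b a c V hb ha hab.symm (by omega) hV hcV (eb ▸ hRV)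
  rw [eb] at a2 b2
  rw [ec] at a3
  have c1 := h3 _ hR
  have hp := master_pick a.primeFactors b.primeFactors c.primeFactors
    ((rad (a * b * c) : ℝ) ^ (1 / 4 : ℝ))
  have hR' : (2 : ℝ) ≤ rad (a * b * c) := by exact_mod_cast hR
  generalize (rad (a * b * c) : ℝ) = R at *
  have hR0 : 0 < R := by linarith
  have hl : 1 ≤ (1 + Real.log R) ^ 2 :=
    one_le_pow₀ (le_add_of_nonneg_right (Real.log_nonneg (by linarith)))
  have hs : 0 < sav κ R := Real.exp_pos _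
  obtain ⟨E, hE⟩ : ∃ E, E = R ^ (1 / 3 : ℝ) * (1 + Real.log R) ^ 2 * sav κ R * V ^ 4 := ⟨_, rfl⟩
  have hE0 : 0 ≤ E := by rw [hE]; positivity
  have d1 : R ^ (1 / 24 : ℝ) * V ^ 4 ≤ K3 * E := by
    have e1 : R ^ (1 / 24 : ℝ) = R ^ (1 / 3 : ℝ) * R ^ (-(7 / 24) : ℝ) := by
      rw [← Real.rpow_add hR0]; norm_num
    calc _ = R ^ (1 / 3 : ℝ) * 1 * R ^ (-(7 / 24) : ℝ) * V ^ 4 := by rw [e1, mul_one]
      _ ≤ R ^ (1 / 3 : ℝ) * (1 + Real.log R) ^ 2 * (K3 * sav κ R) * V ^ 4 := by gcongr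
      _ = _ := by rw [hE]; ring
  have d2 : K2 * (R ^ (1 / 24 : ℝ) * V ^ 4) ≤ K2 * K3 * E := by
    rw [mul_assoc]; gcongr
  have d3 : ∀ K : ℝ, K * R ^ (1 / 3 : ℝ) * (1 + Real.log R) ^ 2 * sav κ R * V ^ 4 = K * E :=
    fun K => by rw [hE]; ring
  simp only [d3] at a1 a2 a3 ⊢
  have d4 : 0 ≤ K1 * E := by positivity
  have d5 : 0 ≤ K2 * K3 * E := by positivity
  rw [add_mul]
  by_cases h : a = b
  · have e1 : a = 1 := by rw [← h] at hab; simpa using hab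
    rw [e1, Nat.cast_one, Real.log_one] at b1
    linarith
  rcases hp with hp | hp | hp
  · linarith [a1 hp]
  · linarith [a2 hp]
  · linarith [a3 h hp]

end LFL
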