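import Pool.Agent.P.MP_7aad9f_nt.LFL.NatForms
import Pool.Agent.P.MP_7aad9f_nt.LFL.Crit

set_option autoImplicit false

namespace LFL
open Finset

/-- The radical. -/
def rad (m : ℕ) : ℕ := ∏ p ∈ m.primeFactors, p

/-- The hypotheses on one member `x` of the triple, the other two being `y`, `z`. -/
structure Mem (x y z : ℕ) (c V : ℝ) : Prop where
  x0 : 0 < x
  y0 : 0 < y
  z0 : 0 < z
  cyz : Nat.Coprime y z
  cx : Nat.Coprime x (y * z)
  ne : y ≠ z
  dvd : (x : ℤ) ∣ (y : ℤ) ^ 2 - (z : ℤ) ^ 2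
  yc : (y : ℝ) ≤ c
  zc : (z : ℝ) ≤ c
  V1 : 1 ≤ V
  cV : 3 * Real.log c ≤ Real.exp V
  RV : 2 * Real.log (rad (x * y * z)) ≤ V


namespace Mem
variable {x y z : ℕ} {c V : ℝ}

theorem pf_eq (h : Mem x y z c V) :
    (x * y * z).primeFactors = x.primeFactors ∪ (y * z).primeFactors := by
  rw [mul_assoc]
  exact Nat.primeFactors_mul h.x0.ne' (Nat.mul_pos h.y0 h.z0).ne'

theorem disj (h : Mem x y z c V) : Disjoint x.primeFactors (y * z).primeFactors :=
  Nat.Coprime.disjoint_primeFactors h.cx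

theorem rad_eq (h : Mem x y z c V) :
    rad (x * y * z) = (∏ p ∈ x.primeFactors, p) * ∏ r ∈ (y * z).primeFactors, r := by
  unfold rad
  rw [h.pf_eq, prod_union h.disj]

theorem not_mem (h : Mem x y z c V) {p : ℕ} (hp : p ∈ x.primeFactors) :
    p ∉ (y * z).primeFactors :=
  disjoint_left.1 h.disj hp

theorem mul_le_rad (h : Mem x y z c V) {p : ℕ} (hp : p ∈ x.primeFactors) :
    p * ∏ r ∈ (y * z).primeFactors, r ≤ rad (x * y * z) := by
  rw [h.rad_eq]
  refine Nat.mul_le_mul_right _ (Nat.le_of_dvd ?_ (dvd_prod_of_mem _ hp))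
  exact prod_pos fun r hr => (Nat.prime_of_mem_primeFactors hr).pos

end Mem

theorem mb_rad_pos (m : ℕ) : 0 < rad m :=
  prod_pos fun _ hr => (Nat.prime_of_mem_primeFactors hr).pos

theorem mb_prod_pf_pos (m : ℕ) : 0 < ∏ r ∈ m.primeFactors, r := mb_rad_pos m

theorem mb_log_prod_primes (s : Finset ℕ) (hs : ∀ r ∈ s, 0 < r) :
    Real.log ((∏ r ∈ s, r : ℕ) : ℝ) = ∑ r ∈ s, Real.log r := by
  rw [Nat.cast_prod, Real.log_prod]
  intro r hr
  exact_mod_cast (hs r hr).ne'

namespace Mem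
variable {x y z : ℕ} {c V : ℝ}

theorem le_rad (h : Mem x y z c V) {p : ℕ} (hp : p ∈ x.primeFactors) : p ≤ rad (x * y * z) :=
  le_trans (Nat.le_mul_of_pos_right _ (mb_prod_pf_pos _)) (h.mul_le_rad hp)

theorem log_rad_le (h : Mem x y z c V) : Real.log (rad (x * y * z)) ≤ V := by
  have h1 := h.RV
  have h2 := Real.log_natCast_nonneg (rad (x * y * z))
  linarith

theorem log_le (h : Mem x y z c V) {p : ℕ} (hp : p ∈ x.primeFactors) : Real.log p ≤ V := by
  refine le_trans (Real.log_le_log ?_ ?_) h.log_rad_le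
  · exact_mod_cast (Nat.prime_of_mem_primeFactors hp).pos
  · exact_mod_cast h.le_rad hp

theorem sum_log_le (h : Mem x y z c V) : ∑ r ∈ (y * z).primeFactors, Real.log r ≤ V := by
  rw [← mb_log_prod_primes _ fun r hr => (Nat.prime_of_mem_primeFactors hr).pos]
  refine le_trans (Real.log_le_log ?_ ?_) h.log_rad_le
  · exact_mod_cast mb_prod_pf_pos _
  · rw [h.rad_eq]
    exact_mod_cast Nat.le_mul_of_pos_left _ (mb_prod_pf_pos _)

theorem pow_dvd (h : Mem x y z c V) (p : ℕ) :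
    (p : ℤ) ^ x.factorization p ∣ (y : ℤ) ^ 2 - (z : ℤ) ^ 2 := by
  refine dvd_trans ?_ h.dvd
  exact_mod_cast Nat.ordProj_dvd x p

end Mem

theorem mb_ratio_le_one (n : ℕ) {p : ℕ} (hp : p.Prime) :
    ((n : ℝ) / max (n : ℝ) (Real.log p)) ^ n ≤ 1 := by
  have h1 : 0 < Real.log p := Real.log_pos (by exact_mod_cast hp.one_lt)
  have h2 : 0 < max (n : ℝ) (Real.log p) := lt_max_of_lt_right h1
  exact pow_le_one₀ (div_nonneg (Nat.cast_nonneg _) h2.le) ((div_le_one h2).2 (le_max_left _ _))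

theorem mb_one_le_prod_log (s : Finset ℕ) : (1 : ℝ) ≤ ∏ r ∈ s, (1 + Real.log r) := by
  calc (1 : ℝ) = ∏ _r ∈ s, (1 : ℝ) := by simp
    _ ≤ _ := prod_le_prod (fun _ _ => zero_le_one) fun r _ => by
        have := Real.log_natCast_nonneg r
        linarith

theorem mb_sav_pos (κ R : ℝ) : 0 < sav κ R := Real.exp_pos _

theorem mb_rpow_le_third {κ δ K : ℝ} {R : ℕ} (hR : 2 ≤ R) (hK : 1 ≤ K)
    (h : (R : ℝ) ^ (-δ) ≤ K * sav κ R) :
    (R : ℝ) ^ (1 / 3 - δ) ≤ K * ((R : ℝ) ^ (1 / 3 : ℝ) * (1 + Real.log R) ^ 2 * sav κ R) := by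
  have hR0 : (0 : ℝ) < R := by exact_mod_cast (by omega : 0 < R)
  have h1 : (R : ℝ) ^ (1 / 3 - δ) = (R : ℝ) ^ (1 / 3 : ℝ) * (R : ℝ) ^ (-δ) := by
    rw [← Real.rpow_add hR0]
    ring_nf
  have h2 : 0 < (R : ℝ) ^ (1 / 3 : ℝ) := Real.rpow_pos_of_pos hR0 _
  have h3 : (1 : ℝ) ≤ (1 + Real.log R) ^ 2 :=
    one_le_pow₀ (by have := Real.log_natCast_nonneg R; linarith)
  have h4 := mb_sav_pos κ R
  rw [h1]
  calc (R : ℝ) ^ (1 / 3 : ℝ) * (R : ℝ) ^ (-δ) ≤ (R : ℝ) ^ (1 / 3 : ℝ) * (K * sav κ R) :=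
        mul_le_mul_of_nonneg_left h h2.le
    _ = K * ((R : ℝ) ^ (1 / 3 : ℝ) * 1 * sav κ R) := by ring
    _ ≤ K * ((R : ℝ) ^ (1 / 3 : ℝ) * (1 + Real.log R) ^ 2 * sav κ R) := by gcongr

/-- Contribution of the primes `p ≤ P` dividing `x`. -/
theorem small_primes : ∃ K : ℝ, 1 ≤ K ∧ ∀ (x y z : ℕ) (c V P : ℝ), Mem x y z c V → 1 ≤ P →
    ∑ p ∈ x.primeFactors.filter (fun p : ℕ => (p : ℝ) ≤ P), x.factorization p * Real.log p ≤
      K * P * (rad (x * y * z) : ℝ) ^ (1 / 24 : ℝ) * V ^ 4 := by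
  obtain ⟨C, hC, hpad⟩ := padic_nat
  obtain ⟨K, hK, hprod⟩ := prod_log_le (2 * C) (1 / 24) (by linarith) (by norm_num)
  refine ⟨2 * K, by linarith, fun x y z c V P h hP => ?_⟩
  set s := (y * z).primeFactors with hs
  set Q : ℝ := ∏ r ∈ s, (1 + Real.log r) with hQ
  have hV := h.V1
  have hQ1 : 1 ≤ Q := mb_one_le_prod_log _
  have hterm : ∀ p ∈ x.primeFactors.filter (fun p : ℕ => (p : ℝ) ≤ P),
      x.factorization p * Real.log p ≤ C ^ s.card * (2 * P * Q * V ^ 4) := by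
    intro p hp
    obtain ⟨hp1, hp2⟩ := mem_filter.1 hp
    have hpp := Nat.prime_of_mem_primeFactors hp1
    have h1 := hpad y z (x.factorization p) p s c V hpp h.y0 h.z0 h.cyz h.ne
      (fun r hr => Nat.prime_of_mem_primeFactors hr) (h.not_mem hp1) Subset.rfl (h.pow_dvd p)
      h.yc h.zc hV h.cV h.sum_log_le (h.log_le hp1)
    have h2 : ∏ r ∈ s, Real.log r ≤ Q :=
      prod_le_prod (fun r _ => Real.log_natCast_nonneg r) fun r _ => by linarith
    have h3 : 0 ≤ ∏ r ∈ s, Real.log r := prod_nonneg fun r _ => Real.log_natCast_nonneg r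
    have h4 := mb_ratio_le_one s.card hpp
    have h5 : (p : ℝ) * (∏ r ∈ s, Real.log r) *
        (s.card / max (s.card : ℝ) (Real.log p)) ^ s.card ≤ P * Q := by
      calc (p : ℝ) * (∏ r ∈ s, Real.log r) * (s.card / max (s.card : ℝ) (Real.log p)) ^ s.card
          ≤ (p : ℝ) * (∏ r ∈ s, Real.log r) * 1 :=
            mul_le_mul_of_nonneg_left h4 (mul_nonneg (Nat.cast_nonneg _) h3)
        _ = p * ∏ r ∈ s, Real.log r := mul_one _
        _ ≤ P * Q := mul_le_mul hp2 h2 h3 (by linarith)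
    have h6 : 1 ≤ P * Q := one_le_mul_of_one_le_of_one_le hP hQ1
    have h7 : P * Q + V ≤ 2 * P * Q * V := by nlinarith
    calc x.factorization p * Real.log p ≤ _ := h1
      _ ≤ C ^ s.card * V ^ 3 * (2 * P * Q * V) := by
          refine mul_le_mul_of_nonneg_left (by linarith) ?_
          positivity
      _ = C ^ s.card * (2 * P * Q * V ^ 4) := by ring
  have hcard : ((x.primeFactors.filter (fun p : ℕ => (p : ℝ) ≤ P)).card : ℝ) ≤
      2 ^ x.primeFactors.card := by
    have h1 := card_filter_le x.primeFactors (fun p : ℕ => (p : ℝ) ≤ P)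
    have h2 := (Nat.lt_two_pow_self (n := x.primeFactors.card)).le
    exact_mod_cast h1.trans h2
  have hall := hprod (x * y * z).primeFactors
    fun r hr => (Nat.prime_of_mem_primeFactors hr).pos
  have hR : ((∏ r ∈ (x * y * z).primeFactors, r : ℕ) : ℝ) = rad (x * y * z) := rfl
  rw [hR, h.pf_eq, card_union_of_disjoint h.disj, prod_union h.disj, ← hs, ← hQ] at hall
  have hQx : (1 : ℝ) ≤ ∏ r ∈ x.primeFactors, (1 + Real.log r) := mb_one_le_prod_log _
  have hC0 : 0 ≤ C := by linarith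
  have hpow : (2 : ℝ) ^ x.primeFactors.card * C ^ s.card ≤
      (2 * C) ^ (x.primeFactors.card + s.card) := by
    rw [pow_add]
    refine mul_le_mul (pow_le_pow_left₀ (by norm_num) (by linarith) _)
      (pow_le_pow_left₀ hC0 (by linarith) _) (by positivity) (by positivity)
  have hmain : (2 : ℝ) ^ x.primeFactors.card * C ^ s.card * Q ≤
      K * (rad (x * y * z) : ℝ) ^ (1 / 24 : ℝ) := by
    refine le_trans ?_ hall
    refine mul_le_mul hpow (le_mul_of_one_le_left (by linarith) hQx) (by linarith) (by positivity)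
  calc ∑ p ∈ x.primeFactors.filter (fun p : ℕ => (p : ℝ) ≤ P), x.factorization p * Real.log p
      ≤ (x.primeFactors.filter (fun p : ℕ => (p : ℝ) ≤ P)).card •
          (C ^ s.card * (2 * P * Q * V ^ 4)) := sum_le_card_nsmul _ _ _ hterm
    _ ≤ 2 ^ x.primeFactors.card * (C ^ s.card * (2 * P * Q * V ^ 4)) := by
        rw [nsmul_eq_mul]
        refine mul_le_mul_of_nonneg_right hcard ?_
        have : 0 ≤ P := by linarith
        have : 0 ≤ Q := by linarith
        positivity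
    _ = (2 ^ x.primeFactors.card * C ^ s.card * Q) * (2 * P * V ^ 4) := by ring
    _ ≤ (K * (rad (x * y * z) : ℝ) ^ (1 / 24 : ℝ)) * (2 * P * V ^ 4) := by
        refine mul_le_mul_of_nonneg_right hmain ?_
        have : 0 ≤ P := by linarith
        positivity
    _ = 2 * K * P * (rad (x * y * z) : ℝ) ^ (1 / 24 : ℝ) * V ^ 4 := by ring

/-- Contribution of the critical prime. -/
theorem crit_prime : ∃ κ : ℝ, 0 < κ ∧ ∃ K : ℝ, 1 ≤ K ∧ ∀ (x y z : ℕ) (c V : ℝ) (p py pz : ℕ),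
    Mem x y z c V → p ∈ x.primeFactors → py ∈ y.primeFactors → pz ∈ z.primeFactors →
    p ≤ py → p ≤ pz → (rad (x * y * z) : ℝ) ^ (1 / 4 : ℝ) ≤ p →
    x.factorization p * Real.log p ≤
      K * (rad (x * y * z) : ℝ) ^ (1 / 3 : ℝ) * (1 + Real.log (rad (x * y * z))) ^ 2 *
        sav κ (rad (x * y * z)) * V ^ 4 := by
  obtain ⟨C, hC, hpad⟩ := padic_nat
  obtain ⟨κ, hκ, K1, hK1, R0, hcrit⟩ := critical C hC
  obtain ⟨K2, hK2, h2⟩ := rpow_le_sav κ (1 / 12) hκ (by norm_num)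
  obtain ⟨K3, hK3, h3⟩ := small_primes
  obtain ⟨K4, hK4, h4⟩ := rpow_le_sav κ (7 / 24) hκ (by norm_num)
  have hP : 1 ≤ max R0 1 := le_max_right _ _
  have hA : 0 ≤ K1 * K2 := by positivity
  have hB : 0 ≤ K3 * max R0 1 * K4 := by positivity
  refine ⟨κ, hκ, K1 + K1 * K2 + K3 * max R0 1 * K4, by linarith,
    fun x y z c V p py pz h hp hpy hpz hy hz hR => ?_⟩
  have hpp := Nat.prime_of_mem_primeFactors hp
  have hR2 : 2 ≤ rad (x * y * z) := hpp.two_le.trans (h.le_rad hp)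
  have hV := h.V1
  have hV0 : 0 ≤ V := by linarith
  have hV4 : V ^ 3 ≤ V ^ 4 := pow_le_pow_right₀ hV (by norm_num)
  set R := rad (x * y * z) with hRdef
  have hR0 : (0 : ℝ) < R := by exact_mod_cast (by omega : 0 < R)
  have hlog := Real.log_natCast_nonneg R
  have hsav := mb_sav_pos κ R
  set B : ℝ := (R : ℝ) ^ (1 / 3 : ℝ) * (1 + Real.log R) ^ 2 * sav κ R with hBdef
  have hB0 : 0 ≤ B := by positivity
  have hgoal : (K1 + K1 * K2 + K3 * max R0 1 * K4) * (R : ℝ) ^ (1 / 3 : ℝ) *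
      (1 + Real.log R) ^ 2 * sav κ R * V ^ 4 =
      (K1 * B + K1 * K2 * B + K3 * max R0 1 * K4 * B) * V ^ 4 := by
    rw [hBdef]
    ring
  rw [hgoal]
  have hA1 : 0 ≤ K1 * B := by positivity
  have hA2 : 0 ≤ K1 * K2 * B := by positivity
  have hA3 : 0 ≤ K3 * max R0 1 * K4 * B := by positivity
  by_cases hR0R : R0 ≤ R
  · have hyz : (y * z).primeFactors = y.primeFactors ∪ z.primeFactors :=
      Nat.primeFactors_mul h.y0.ne' h.z0.ne'
    obtain ⟨s, hs0, hsp, hps, hsum, hCs, hmain⟩ := hcrit R (y * z).primeFactors p py pz hR0R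
      (fun r hr => Nat.prime_of_mem_primeFactors hr) hpp (h.not_mem hp)
      (by rw [hyz]; exact mem_union_left _ hpy) (by rw [hyz]; exact mem_union_right _ hpz)
      (fun e => disjoint_left.1 (Nat.Coprime.disjoint_primeFactors h.cyz) hpy (e ▸ hpz)) hy hz hR
      (by exact_mod_cast h.mul_le_rad hp)
    have h1 := hpad y z (x.factorization p) p s c V hpp h.y0 h.z0 h.cyz h.ne hsp hps hs0
      (h.pow_dvd p) h.yc h.zc hV h.cV (hsum.trans h.RV) (h.log_le hp)
    set A : ℝ := p * (∏ r ∈ s, Real.log r) * (s.card / max (s.card : ℝ) (Real.log p)) ^ s.card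
      with hAdef
    have h5 : C ^ s.card * A ≤ K1 * B := by
      refine hmain.trans ?_
      rw [hBdef]
      have h6 : Real.log R ^ 2 ≤ (1 + Real.log R) ^ 2 := by nlinarith
      calc K1 * (R : ℝ) ^ (1 / 3 : ℝ) * Real.log R ^ 2 * sav κ R
          ≤ K1 * (R : ℝ) ^ (1 / 3 : ℝ) * (1 + Real.log R) ^ 2 * sav κ R := by gcongr
        _ = _ := by ring
    have h7 : (R : ℝ) ^ (1 / 4 : ℝ) ≤ K2 * B := by
      have := mb_rpow_le_third hR2 hK2 (h2 R hR2)
      rwa [show (1 / 3 - 1 / 12 : ℝ) = 1 / 4 by norm_num] at this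
    have h8 : C ^ s.card ≤ K1 * K2 * B := by
      refine hCs.trans ?_
      rw [mul_assoc]
      exact mul_le_mul_of_nonneg_left h7 (by linarith)
    calc x.factorization p * Real.log p ≤ C ^ s.card * V ^ 3 * (A + V) := h1
      _ = C ^ s.card * A * V ^ 3 + C ^ s.card * V ^ 4 := by ring
      _ ≤ K1 * B * V ^ 3 + K1 * K2 * B * V ^ 4 := by gcongr
      _ ≤ K1 * B * V ^ 4 + K1 * K2 * B * V ^ 4 := by gcongr
      _ ≤ (K1 * B + K1 * K2 * B + K3 * max R0 1 * K4 * B) * V ^ 4 := by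
          have : 0 ≤ K3 * max R0 1 * K4 * B * V ^ 4 := by positivity
          linarith
  · have hpP : (p : ℝ) ≤ max R0 1 := by
      have h5 : (p : ℝ) ≤ R := by exact_mod_cast h.le_rad hp
      have h6 := le_max_left R0 1
      linarith [not_le.1 hR0R]
    have h5 := h3 x y z c V (max R0 1) h hP
    have h6 : x.factorization p * Real.log p ≤
        ∑ q ∈ x.primeFactors.filter (fun q : ℕ => (q : ℝ) ≤ max R0 1),
          x.factorization q * Real.log q :=
      single_le_sum (f := fun q : ℕ => (x.factorization q : ℝ) * Real.log q)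
        (fun q _ => mul_nonneg (Nat.cast_nonneg _) (Real.log_natCast_nonneg q))
        (mem_filter.2 ⟨hp, hpP⟩)
    have h7 : (R : ℝ) ^ (1 / 24 : ℝ) ≤ K4 * B := by
      have := mb_rpow_le_third hR2 hK4 (h4 R hR2)
      rwa [show (1 / 3 - 7 / 24 : ℝ) = 1 / 24 by norm_num] at this
    calc x.factorization p * Real.log p ≤ _ := h6.trans h5
      _ ≤ K3 * max R0 1 * (K4 * B) * V ^ 4 := by gcongr
      _ = K3 * max R0 1 * K4 * B * V ^ 4 := by ring
      _ ≤ (K1 * B + K1 * K2 * B + K3 * max R0 1 * K4 * B) * V ^ 4 := by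
          refine mul_le_mul_of_nonneg_right (by linarith) (by positivity)

/-- Bound for `log x` when either `x` has no prime factor above `R^(1/4)` or `x` carries the
smallest of the three large primes. -/
theorem member_bound : ∃ κ : ℝ, 0 < κ ∧ ∃ K : ℝ, 1 ≤ K ∧ ∀ (x y z : ℕ) (c V : ℝ),
    Mem x y z c V → 2 ≤ rad (x * y * z) →
    ((∀ p ∈ x.primeFactors, (p : ℝ) ≤ (rad (x * y * z) : ℝ) ^ (1 / 4 : ℝ)) ∨
      ∃ p ∈ x.primeFactors, ∃ py ∈ y.primeFactors, ∃ pz ∈ z.primeFactors,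
        (rad (x * y * z) : ℝ) ^ (1 / 4 : ℝ) < p ∧ p ≤ py ∧ p ≤ pz) →
    Real.log x ≤ K * (rad (x * y * z) : ℝ) ^ (1 / 3 : ℝ) *
      (1 + Real.log (rad (x * y * z))) ^ 2 * sav κ (rad (x * y * z)) * V ^ 4 := by
  obtain ⟨κ, hκ, K1, hK1, hcrit⟩ := crit_prime
  obtain ⟨K2, hK2, h2⟩ := rpow_le_sav κ (1 / 24) hκ (by norm_num)
  obtain ⟨K3, hK3, h3⟩ := small_primes
  have hA : 0 ≤ K3 * K2 := by positivity
  refine ⟨κ, hκ, K1 + K3 * K2, by linarith, fun x y z c V h hR2 hcase => ?_⟩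
  have hV := h.V1
  have hV0 : 0 ≤ V := by linarith
  have hradeq := h.rad_eq
  set R := rad (x * y * z) with hRdef
  have hR0 : (0 : ℝ) < R := by exact_mod_cast (by omega : 0 < R)
  have hR1 : (1 : ℝ) ≤ R := by exact_mod_cast (by omega : 1 ≤ R)
  have hlog := Real.log_natCast_nonneg R
  have hsav := mb_sav_pos κ R
  set B : ℝ := (R : ℝ) ^ (1 / 3 : ℝ) * (1 + Real.log R) ^ 2 * sav κ R with hBdef
  have hB0 : 0 ≤ B := by positivity
  have hgoal : (K1 + K3 * K2) * (R : ℝ) ^ (1 / 3 : ℝ) * (1 + Real.log R) ^ 2 * sav κ R * V ^ 4 =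
      K3 * K2 * B * V ^ 4 + K1 * B * V ^ 4 := by
    rw [hBdef]
    ring
  rw [hgoal]
  set P : ℝ := (R : ℝ) ^ (1 / 4 : ℝ) with hPdef
  have hP1 : 1 ≤ P := Real.one_le_rpow hR1 (by norm_num)
  have hlogx : Real.log x = ∑ p ∈ x.primeFactors, x.factorization p * Real.log p := by
    conv_lhs => rw [← Nat.prod_factorization_pow_eq_self h.x0.ne']
    rw [Finsupp.prod, Nat.support_factorization, Nat.cast_prod, Real.log_prod]
    · refine sum_congr rfl fun p _ => ?_
      rw [Nat.cast_pow, Real.log_pow]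
    · intro p hp
      have := (Nat.prime_of_mem_primeFactors hp).pos
      positivity
  rw [hlogx, ← sum_filter_add_sum_filter_not x.primeFactors (fun p : ℕ => (p : ℝ) ≤ P)]
  refine add_le_add ?_ ?_
  · have h5 := h3 x y z c V P h hP1
    have h6 : P * (R : ℝ) ^ (1 / 24 : ℝ) ≤ K2 * B := by
      have := mb_rpow_le_third hR2 hK2 (h2 R hR2)
      rw [hPdef, ← Real.rpow_add hR0]
      rwa [show (1 / 3 - 1 / 24 : ℝ) = 1 / 4 + 1 / 24 by norm_num] at this
    calc _ ≤ K3 * P * (R : ℝ) ^ (1 / 24 : ℝ) * V ^ 4 := h5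
      _ = K3 * (P * (R : ℝ) ^ (1 / 24 : ℝ)) * V ^ 4 := by ring
      _ ≤ K3 * (K2 * B) * V ^ 4 := by gcongr
      _ = K3 * K2 * B * V ^ 4 := by ring
  · have hnn : 0 ≤ K1 * B * V ^ 4 := by positivity
    rcases hcase with hall | ⟨p, hp, py, hpy, pz, hpz, hPp, hy, hz⟩
    · rw [filter_false_of_mem fun p hp => not_not.2 (hall p hp), sum_empty]
      exact hnn
    · have hsub : x.primeFactors.filter (fun q : ℕ => ¬(q : ℝ) ≤ P) ⊆ {p} := by
        intro q hq
        obtain ⟨hq1, hq2⟩ := mem_filter.1 hq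
        rw [mem_singleton]
        by_contra hne
        have hPq : P < q := not_le.1 hq2
        have hne2 : py ≠ pz := fun e =>
          disjoint_left.1 (Nat.Coprime.disjoint_primeFactors h.cyz) hpy (e ▸ hpz)
        have hyz : (y * z).primeFactors = y.primeFactors ∪ z.primeFactors :=
          Nat.primeFactors_mul h.y0.ne' h.z0.ne'
        have e1 : q * p ≤ ∏ r ∈ x.primeFactors, r := by
          rw [← prod_pair (f := fun r : ℕ => r) hne]
          refine Nat.le_of_dvd (mb_prod_pf_pos _) (prod_dvd_prod_of_subset _ _ _ ?_)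
          intro r hr
          rcases mem_insert.1 hr with rfl | hr
          · exact hq1
          · rw [mem_singleton.1 hr]
            exact hp
        have e2 : py * pz ≤ ∏ r ∈ (y * z).primeFactors, r := by
          rw [← prod_pair (f := fun r : ℕ => r) hne2]
          refine Nat.le_of_dvd (mb_prod_pf_pos _) (prod_dvd_prod_of_subset _ _ _ ?_)
          intro r hr
          rw [hyz]
          rcases mem_insert.1 hr with rfl | hr
          · exact mem_union_left _ hpy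
          · rw [mem_singleton.1 hr]
            exact mem_union_right _ hpz
        have e3 : q * p * (py * pz) ≤ R := by
          rw [hradeq]
          exact Nat.mul_le_mul e1 e2
        have e4 : (q : ℝ) * p * (py * pz) ≤ R := by exact_mod_cast e3
        have e5 : P * P * (P * P) = R := by
          rw [hPdef, ← Real.rpow_add hR0, ← Real.rpow_add hR0]
          norm_num
        have hy' : (p : ℝ) ≤ py := by exact_mod_cast hy
        have hz' : (p : ℝ) ≤ pz := by exact_mod_cast hz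
        have hP0 : 0 < P := by linarith
        have e6 : P * P < q * p := mul_lt_mul'' hPq hPp hP0.le hP0.le
        have e7 : P * P < py * pz := mul_lt_mul'' (by linarith) (by linarith) hP0.le hP0.le
        have e8 : P * P * (P * P) < q * p * (py * pz) :=
          mul_lt_mul'' e6 e7 (by positivity) (by positivity)
        linarith
      calc _ ≤ ∑ q ∈ ({p} : Finset ℕ), (x.factorization q : ℝ) * Real.log q :=
            sum_le_sum_of_subset_of_nonneg hsub fun q _ _ =>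
              mul_nonneg (Nat.cast_nonneg _) (Real.log_natCast_nonneg q)
        _ = x.factorization p * Real.log p := sum_singleton _ _
        _ ≤ _ := hcrit x y z c V p py pz h hp hpy hpz hy hz hPp.le
        _ = K1 * B * V ^ 4 := by
            rw [hBdef]
            ring

end LFL
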