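import Pool.Agent.P.MP_7aad9f_nt.LFL.PLog
import Pool.Agent.P.MP_7aad9f_nt.LFL.Count

set_option autoImplicit false

namespace LFL
open Finset

section
variable {p : ℕ} [Fact p.Prime]

theorem pif_norm_nat (a : ℕ) : ‖(a : ℚ_[p])‖ ≤ 1 := by
  simpa using Padic.norm_int_le_one (p := p) a

theorem pif_norm_prime {q : ℕ} (hq : q.Prime) (hqp : q ≠ p) : ‖(q : ℚ_[p])‖ = 1 :=
  Padic.norm_natCast_eq_one_iff.2 ((Nat.coprime_primes Fact.out hq).2 hqp.symm)

theorem pif_base {q : ℕ} (hq : q.Prime) (h3 : q ≤ 3) (hqp : q ≠ p)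
    (hr : ∀ u : ℚ_[p], u ^ q = 1 → u = 1 ∨ u = -1) : Base ℚ_[p] q := by
  have hp : p.Prime := Fact.out
  refine ⟨hq, h3, fun a => ?_, fun a ha => ?_, (pif_norm_prime hq hqp).ge, hr⟩
  · rcases eq_or_ne a 0 with rfl | ha
    · simp
    · exact (Padic.norm_int_le_one a).trans (by exact_mod_cast Int.one_le_abs ha)
  · have h1 : (a : ℚ_[p]) ≠ 0 := Int.cast_ne_zero.2 ha
    have h2 : ((p : ℤ) ^ padicValInt p a) ≤ |a| :=
      Int.le_of_dvd (abs_pos.2 ha) ((dvd_abs _ _).2 (padicValInt_dvd a))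
    have h3 : ((p : ℝ) ^ padicValInt p a) ≤ |(a : ℝ)| := by exact_mod_cast h2
    have h4 : (0 : ℝ) < (p : ℝ) ^ padicValInt p a := pow_pos (by exact_mod_cast hp.pos) _
    rw [Padic.norm_eq_zpow_neg_valuation h1, Padic.valuation_intCast, zpow_neg, zpow_natCast,
      ← div_eq_inv_mul, one_le_div h4]
    exact h3

theorem pif_two : ∀ x : ZMod 2, x ^ 2 + x + 1 ≠ 0 := by decide

theorem base_padic : ∃ q : ℕ, q ≠ p ∧ Base ℚ_[p] q := by
  by_cases h : p = 2
  · subst h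
    refine ⟨3, by norm_num, pif_base Nat.prime_three le_rfl (by norm_num) fun u hu => ?_⟩
    have h1 : (u - 1) * (u ^ 2 + u + 1) = 0 := by linear_combination hu
    rcases mul_eq_zero.1 h1 with h2 | h2
    · exact Or.inl (sub_eq_zero.1 h2)
    · exfalso
      have h3 : ‖u‖ ≤ 1 := by
        have := congrArg norm hu
        rw [norm_pow, norm_one] at this
        exact ((pow_eq_one_iff_of_nonneg (norm_nonneg u) (by norm_num)).1 this).le
      obtain ⟨w, rfl⟩ : ∃ w : ℤ_[2], (w : ℚ_[2]) = u := ⟨⟨u, h3⟩, rfl⟩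
      have h4 : w ^ 2 + w + 1 = 0 := by
        apply Subtype.ext
        push_cast
        exact h2
      have h5 := congrArg PadicInt.toZMod h4
      rw [map_add, map_add, map_pow, map_one, map_zero] at h5
      exact pif_two _ h5
  · refine ⟨2, Ne.symm h, pif_base Nat.prime_two (by norm_num) (Ne.symm h) fun u hu => ?_⟩
    exact mul_self_eq_one_iff.1 (by rw [← sq]; exact hu)

theorem iface_padic {q : ℕ} (hq : q.Prime) (hqp : q ≠ p) (n L : ℕ) (g a0 : ℝ) (hg : 0 ≤ g)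
    (ha : a0 * Real.exp g ≤ 1 / 8) : Iface ℚ_[p] q n L g a0 := by
  intro k S hS
  have h1 : 1 ≤ Real.exp g := Real.one_le_exp hg
  have h2 : (1 : ℝ) ≤ S := by exact_mod_cast hS
  have h3 := pif_norm_prime (p := p) hq hqp
  have h4 : ∀ s : ℕ, ‖(s : ℚ_[p]) / q‖ ≤ 1 := fun s => by
    rw [norm_div, h3, div_one]; exact pif_norm_nat s
  refine ⟨1, 1 + Real.exp g, 1, zero_le_one, by linarith, by nlinarith, le_rfl, by linarith, ?_,
    fun x _ => pif_norm_nat x, fun s _ => ⟨(h4 s).trans (by linarith), fun x _ => ?_⟩,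
    fun y hy => ?_⟩
  · rw [add_sub_cancel_left, Real.exp_neg, one_div]
  · rw [sub_eq_add_neg]
    exact (Padic.nonarchimedean _ _).trans
      (max_le (h4 s) (by rw [norm_neg]; exact pif_norm_nat x))
  · rw [h3, one_pow, mul_one] at hy
    have h5 : ‖y‖ * (1 + Real.exp g) ≤ 1 / 4 := by
      have := mul_le_mul_of_nonneg_right hy (Real.exp_pos g).le
      nlinarith [norm_nonneg y]
    have h6 : ∀ j : ℕ, ‖y ^ j / (j.factorial : ℚ_[p])‖ * (1 + Real.exp g) ^ j ≤ (1 / 2) ^ j := by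
      intro j
      rcases j with _ | j
      · simp
      · have a1 := norm_inv_factorial_le (p := p) j
        have a2 : (‖y‖ * (1 + Real.exp g)) ^ (j + 1) ≤ (1 / 4) ^ (j + 1) :=
          pow_le_pow_left₀ (by positivity) h5 _
        have a3 : (1 / 4 : ℝ) ^ (j + 1) * 2 ^ j ≤ (1 / 2) ^ (j + 1) := by
          have : (1 / 4 : ℝ) ^ j * 2 ^ j = (1 / 2) ^ j := by rw [← mul_pow]; norm_num
          have a4 : (0 : ℝ) ≤ (1 / 2) ^ j := by positivity
          rw [pow_succ, pow_succ, mul_right_comm, this]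
          linarith
        rw [div_eq_mul_inv, norm_mul, norm_pow, mul_right_comm, ← mul_pow]
        exact (mul_le_mul a2 a1 (norm_nonneg _) (by positivity)).trans a3
    have h7 : Summable fun j : ℕ => ‖y ^ j / (j.factorial : ℚ_[p])‖ * (1 + Real.exp g) ^ j :=
      Summable.of_nonneg_of_le (fun j => by positivity) h6 summable_geometric_two
    refine ⟨h7, (h7.tsum_le_tsum h6 summable_geometric_two).trans ?_⟩
    rw [tsum_geometric_two]
    have a1 := Real.add_one_le_exp (3 * S * (n * L / q ^ k) + 1 : ℝ)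
    have a2 : (0 : ℝ) ≤ 3 * S * (n * L / q ^ k) := by positivity
    linarith

theorem pif_apow {ι : Type} [Fintype ι] (α : ι → ℕ) {w : ι → ℤ} (hw : ∀ i, 0 ≤ w i) :
    apow α w = ((∏ i, α i ^ (w i).toNat : ℕ) : ℚ) := by
  rw [apow, Nat.cast_prod]
  refine prod_congr rfl fun i _ => ?_
  rw [Nat.cast_pow, ← zpow_natCast, Int.toNat_of_nonneg (hw i)]

theorem init_padic {ι : Type} [Fintype ι] [DecidableEq ι] (α : ι → ℕ) (hα : ∀ i, (α i).Prime)
    (hp : ∀ i, α i ≠ p) (lg : ι → ℚ_[p])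
    (hlg : ∀ lam : ι → ℤ, ‖((apow α lam : ℚ) : ℚ_[p]) - 1‖ ≤ 1 / 8 →
      ‖lin lg lam‖ = ‖((apow α lam : ℚ) : ℚ_[p]) - 1‖ ∧
      ex (lin lg lam) = ((apow α lam : ℚ) : ℚ_[p]))
    (m : ℕ) (hm : 8 ≤ p ^ m) (L : ℕ) :
    ∃ Ls : Finset (ι → ℤ), Init α lg L (1 / (p : ℝ) ^ m) Ls ∧
      (L : ℝ) ^ Fintype.card ι ≤ Ls.card * ((∏ i, Real.log (α i)) * (p : ℝ) ^ m) := by
  have : NeZero (p ^ m) := ⟨by omega⟩
  have hA : ∀ i, 0 < Real.log (α i) := fun i => Real.log_pos (by exact_mod_cast (hα i).one_lt)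
  obtain ⟨Ls, v, h0, h1, h2⟩ := exists_fibre (fun i => Real.log (α i)) hA L
    (fun w => ((∏ i, α i ^ (w i).toNat : ℕ) : ZMod (p ^ m))) univ ((p : ℝ) ^ m)
    (by rw [card_univ, ZMod.card, Nat.cast_pow]) fun _ _ => mem_univ _
  have hv : ∀ i, 0 ≤ v i := fun i => by simpa using ((h2 0 h0).1 i).1
  have h3 : ∀ lam ∈ Ls, ‖((apow α lam : ℚ) : ℚ_[p]) - 1‖ ≤ 1 / (p : ℝ) ^ m := by
    intro lam hl
    obtain ⟨a1, a2⟩ := h2 lam hl
    have a3 : ‖((∏ i, α i ^ (v i).toNat : ℕ) : ℚ_[p])‖ = 1 := by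
      rw [Nat.cast_prod, norm_prod]
      exact prod_eq_one fun i _ => by
        rw [Nat.cast_pow, norm_pow, pif_norm_prime (hα i) (hp i), one_pow]
    have a4 := apow_add (fun i => (hα i).pos) lam v
    rw [pif_apow α fun i => (a1 i).1, pif_apow α hv] at a4
    have a5 := congrArg (Rat.cast : ℚ → ℚ_[p]) a4
    rw [Rat.cast_mul, Rat.cast_natCast, Rat.cast_natCast] at a5
    have a6 := (Nat.modEq_iff_dvd.1 ((ZMod.natCast_eq_natCast_iff _ _ _).1 a2.symm))
    rw [Nat.cast_pow, ← Padic.norm_int_le_pow_iff_dvd, Int.cast_sub, Int.cast_natCast,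
      Int.cast_natCast, a5, ← sub_one_mul, norm_mul, a3, mul_one, zpow_neg, zpow_natCast] at a6
    rwa [one_div]
  have h4 : 1 / (p : ℝ) ^ m ≤ 1 / 8 :=
    one_div_le_one_div_of_le (by norm_num) (by exact_mod_cast hm)
  refine ⟨Ls, ⟨h0, fun lam hl lam' hl' i => ?_, fun lam hl lam' hl' => ?_,
    fun lam hl => (hlg lam ((h3 lam hl).trans h4)).2⟩, h1⟩
  · obtain ⟨a1, a2⟩ := (h2 lam hl).1 i
    obtain ⟨b1, b2⟩ := (h2 lam' hl').1 i
    have a3 : (0 : ℝ) ≤ ((lam + v) i : ℝ) * Real.log (α i) :=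
      mul_nonneg (by exact_mod_cast a1) (hA i).le
    have b3 : (0 : ℝ) ≤ ((lam' + v) i : ℝ) * Real.log (α i) :=
      mul_nonneg (by exact_mod_cast b1) (hA i).le
    simp only [Pi.add_apply, Int.cast_add] at a2 b2 a3 b3
    rw [← abs_of_pos (hA i), ← abs_mul, Int.cast_sub, abs_le]
    constructor <;> linarith
  · rw [sub_eq_add_neg]
    refine (Padic.nonarchimedean _ _).trans (max_le ?_ ?_)
    · rw [(hlg lam ((h3 lam hl).trans h4)).1]; exact h3 lam hl
    · rw [norm_neg, (hlg lam' ((h3 lam' hl').trans h4)).1]; exact h3 lam' hl'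

end

end LFL
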