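import Pool.Agent.P.MP_7aad9f_nt.LFL.Param
import Pool.Agent.P.MP_7aad9f_nt.LFL.PIface

set_option autoImplicit false

namespace LFL
open Finset

theorem padic_two_le_e : (2 : ℝ) ≤ Real.exp 1 := by
  have := Real.add_one_le_exp (1 : ℝ)
  linarith

theorem padic_pow_le_exp (k : ℕ) : (2 : ℝ) ^ k ≤ Real.exp k := by
  rw [← Real.exp_one_pow]
  exact pow_le_pow_left₀ (by norm_num) padic_two_le_e k

theorem padic_log8 : Real.log 8 ≤ 3 := by
  rw [Real.log_le_iff_le_exp (by norm_num)]
  have := padic_pow_le_exp 3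
  norm_num at this ⊢
  exact this

/-- The choice of the exponent `m`. -/
theorem padic_choose (p n : ℕ) (hp : 2 ≤ p) (hn : 1 ≤ n) : ∃ m : ℕ, 8 ≤ p ^ m ∧
    (n : ℝ) ≤ m * Real.log p - Real.log 8 ∧ m * Real.log p - Real.log 8 ≤ n + Real.log p ∧
    (p : ℝ) ^ m * (5000 * n / (m * Real.log p - Real.log 8)) ^ n ≤
      p * (10 ^ 6 * (n / max (n : ℝ) (Real.log p))) ^ n := by
  have hp0 : (0 : ℝ) < p := by exact_mod_cast (by omega : 0 < p)
  have hp1 : (1 : ℝ) < p := by exact_mod_cast (by omega : 1 < p)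
  have hn1 : (1 : ℝ) ≤ n := by exact_mod_cast hn
  have h8 := padic_log8
  have h80 : 0 ≤ Real.log 8 := Real.log_nonneg (by norm_num)
  rcases le_or_gt (2 * (n : ℝ) + 5) (Real.log p) with hc | hc
  · refine ⟨1, ?_, by push_cast; linarith, by push_cast; linarith, ?_⟩
    · have : Real.log 8 ≤ Real.log p := by linarith
      rw [Real.log_le_log_iff (by norm_num) hp0] at this
      rw [pow_one]
      exact_mod_cast this
    · rw [pow_one, Nat.cast_one, one_mul, max_eq_right (by linarith)]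
      refine mul_le_mul_of_nonneg_left (pow_le_pow_left₀
        (div_nonneg (by positivity) (by linarith)) ?_ n) hp0.le
      rw [← mul_div_assoc, div_le_div_iff₀ (by linarith) (by linarith)]
      nlinarith
  · have hex : ∃ m : ℕ, 8 * Real.exp n ≤ (p : ℝ) ^ m := by
      obtain ⟨m, hm⟩ := pow_unbounded_of_one_lt (8 * Real.exp n) hp1
      exact ⟨m, hm.le⟩
    have he1 : 1 ≤ Real.exp (n : ℝ) := Real.one_le_exp (by linarith)
    have h1 := Nat.find_spec hex
    have h2 : (p : ℝ) ^ Nat.find hex ≤ 8 * Real.exp n * p := by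
      rcases e : Nat.find hex with _ | k
      · rw [e, pow_zero] at h1
        linarith
      · have := Nat.find_min hex (show k < Nat.find hex by omega)
        rw [pow_succ]
        exact mul_le_mul_of_nonneg_right (not_le.1 this).le hp0.le
    generalize Nat.find hex = m at h1 h2
    have h3 : (n : ℝ) ≤ m * Real.log p - Real.log 8 := by
      have := Real.log_le_log (by positivity) h1
      rw [Real.log_mul (by norm_num) (by positivity), Real.log_exp, Real.log_pow] at this
      linarith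
    have h4 : m * Real.log p - Real.log 8 ≤ n + Real.log p := by
      have := Real.log_le_log (by positivity) h2
      rw [Real.log_mul (by positivity) (by positivity), Real.log_mul (by norm_num) (by positivity),
        Real.log_exp, Real.log_pow] at this
      linarith
    refine ⟨m, ?_, h3, h4, ?_⟩
    · have : (8 : ℝ) ≤ (p : ℝ) ^ m := by linarith
      exact_mod_cast this
    · have h5 : 5000 * n / (m * Real.log p - Real.log 8) ≤ 5000 := by
        rw [div_le_iff₀ (by linarith)]; linarith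
      have h6 : Real.exp n ≤ 3 ^ n := by
        rw [← Real.exp_one_pow]
        exact pow_le_pow_left₀ (by positivity) (by linarith [Real.exp_one_lt_d9]) n
      have h7 : (8 : ℝ) ≤ 8 ^ n := le_self_pow₀ (by norm_num) (by omega)
      have h9 : (120000 : ℝ) ≤ 10 ^ 6 * (n / max (n : ℝ) (Real.log p)) := by
        have : max (n : ℝ) (Real.log p) ≤ 7 * n := max_le (by linarith) (by linarith)
        rw [← mul_div_assoc, le_div_iff₀ (lt_max_of_lt_left (by linarith))]
        linarith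
      have h10 : 0 ≤ 5000 * n / (m * Real.log p - Real.log 8) :=
        div_nonneg (by positivity) (by linarith)
      calc _ ≤ (8 : ℝ) ^ n * 3 ^ n * p * 5000 ^ n := by
            refine mul_le_mul (h2.trans ?_) (pow_le_pow_left₀ h10 h5 n) (by positivity)
              (by positivity)
            gcongr
        _ = p * 120000 ^ n := by
            rw [show (120000 : ℝ) = 8 * 3 * 5000 by norm_num, mul_pow, mul_pow]; ring
        _ ≤ _ := by gcongr

/-- Lower bound for linear forms in logarithms of primes, `p`-adic case. -/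
theorem padic_bound : ∃ C : ℝ, 1 ≤ C ∧ ∀ (ι : Type) [Fintype ι] [DecidableEq ι] (α : ι → ℕ)
    (b : ι → ℤ) (p : ℕ) [Fact p.Prime] (V : ℝ), (∀ i, (α i).Prime) → Function.Injective α →
    (∀ i, α i ≠ p) → b ≠ 0 → 1 ≤ V → (∀ i, |(b i : ℝ)| ≤ Real.exp V) →
    ∑ i, Real.log (α i) ≤ V → Real.log p ≤ V →
    Real.exp (-(C ^ Fintype.card ι * V ^ 3 * (p * (∏ i, Real.log (α i)) *
      (Fintype.card ι / max (Fintype.card ι : ℝ) (Real.log p)) ^ Fintype.card ι + V))) ≤
      ‖((apow α b : ℚ) : ℚ_[p]) - 1‖ := by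
  refine ⟨10 ^ 27, by norm_num, ?_⟩
  intro ι _ _ α b p hpF V hα hinj hne hb hV hbV hαV hpV
  have hp : p.Prime := hpF.out
  have hn : 1 ≤ Fintype.card ι := by
    obtain ⟨i, -⟩ := Function.ne_iff.1 hb
    exact Fintype.card_pos_iff.2 ⟨i⟩
  obtain ⟨m, hm, hg1, hg2, hg3⟩ := padic_choose p _ hp.two_le hn
  have hnV : (Fintype.card ι : ℝ) ≤ 2 * V := by
    have : ∑ _i : ι, (1 / 2 : ℝ) ≤ ∑ i, Real.log (α i) :=
      sum_le_sum fun i _ => (half_lt_log (hα i)).le
    rw [sum_const, card_univ, nsmul_eq_mul] at this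
    linarith
  have hΩ0 : 0 < ∏ i, Real.log (α i) :=
    prod_pos fun i _ => lt_trans (by norm_num) (half_lt_log (hα i))
  have hΩ1 : ∏ i, Real.log (α i) ≤ Real.exp V := by
    refine le_trans ?_ (Real.exp_le_exp.2 hαV)
    rw [Real.exp_sum]
    refine prod_le_prod (fun i _ => (lt_trans (by norm_num) (half_lt_log (hα i))).le) fun i _ => ?_
    linarith [Real.add_one_le_exp (Real.log (α i))]
  have hp0 : (0 : ℝ) < p := by exact_mod_cast hp.pos
  have hp1 : (p : ℝ) ≤ Real.exp V := by rwa [← Real.log_le_iff_le_exp hp0]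
  generalize hnn : Fintype.card ι = n at *
  have hn1 : (1 : ℝ) ≤ n := by exact_mod_cast hn
  set Ω := ∏ i, Real.log (α i) with hΩ
  set ρ : ℝ := n / max (n : ℝ) (Real.log p) with hρ
  set g : ℝ := m * Real.log p - Real.log 8 with hg
  have hρ0 : 0 < ρ := div_pos (by linarith) (lt_max_of_lt_left (by linarith))
  have hρ1 : ρ ≤ 1 := (div_le_one (lt_max_of_lt_left (by linarith))).2 (le_max_left _ _)
  have hV0 : 0 < V := by linarith
  have hC : (10 : ℝ) ^ 27 ≤ (10 ^ 27) ^ n := le_self_pow₀ (by norm_num) (by omega)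
  have hV3 : 1 ≤ V ^ 3 := one_le_pow₀ hV
  have hY : 0 < p * Ω * ρ ^ n := by positivity
  rcases le_or_gt ‖((apow α b : ℚ) : ℚ_[p]) - 1‖ (1 / 8) with hs | hs
  · obtain ⟨lg, hlg⟩ := exists_plog (p := p) α fun i hd =>
      hne i ((Nat.prime_dvd_prime_iff_eq hp (hα i)).1 hd).symm
    obtain ⟨q, hqp, hB⟩ := base_padic (p := p)
    have hX0 : 0 < Ω * (p * (10 ^ 6 * ρ) ^ n) := by positivity
    have hX1 : Ω * (p * (10 ^ 6 * ρ) ^ n) ≤ Real.exp (42 * V) := by
      have h1 : 10 ^ 6 * ρ ≤ Real.exp 20 := by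
        have := padic_pow_le_exp 20
        norm_num at this ⊢
        linarith
      have h2 : (10 ^ 6 * ρ) ^ n ≤ Real.exp (40 * V) := by
        refine (pow_le_pow_left₀ (by positivity) h1 n).trans ?_
        rw [← Real.exp_nat_mul]
        exact Real.exp_le_exp.2 (by linarith)
      calc _ ≤ Real.exp V * (Real.exp V * Real.exp (40 * V)) := by gcongr
        _ = _ := by rw [← Real.exp_add, ← Real.exp_add]; congr 1; ring
    have hlog : Real.log (Ω * (p * (10 ^ 6 * ρ) ^ n) + g) ≤ 43 * V := by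
      rw [Real.log_le_iff_le_exp (by linarith)]
      have h1 := Real.add_one_le_exp (42 * V)
      have h2 : Real.exp (43 * V) = Real.exp (42 * V) * Real.exp V := by
        rw [← Real.exp_add]; congr 1; ring
      have h3 := Real.add_one_le_exp V
      have h4 := Real.exp_pos (42 * V)
      rw [h2]
      nlinarith
    have heg : 1 / (p : ℝ) ^ m * Real.exp g ≤ 1 / 8 := by
      rw [hg, Real.exp_sub, Real.exp_nat_mul, Real.exp_log hp0, Real.exp_log (by norm_num)]
      exact le_of_eq (by field_simp)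
    have key := core_bound α hα hinj b hb lg q hB g ((p : ℝ) ^ m) (Ω * (p * (10 ^ 6 * ρ) ^ n))
      (200 * V) (by rw [hnn]; exact hg1) (by positivity)
      (by rw [hnn, mul_assoc]; exact mul_le_mul_of_nonneg_left hg3 hΩ0.le) (by linarith)
      (by rw [hnn]; linarith) (fun i => (hbV i).trans (Real.exp_le_exp.2 (by linarith)))
      (by linarith) (fun L hL => ⟨1 / (p : ℝ) ^ m, by
          have h1 : (1 : ℝ) ≤ L := by exact_mod_cast hL
          have h2 : (1 : ℝ) ≤ (p : ℝ) ^ m := one_le_pow₀ (by exact_mod_cast hp.one_le)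
          rw [hnn]
          exact ((div_le_one (by positivity)).2 h2).trans (one_le_mul_of_one_le_of_one_le hn1 h1),
        iface_padic hB.prime hqp _ L g _ (by linarith) heg, init_padic α hα hne lg hlg m hm L⟩)
    rw [(hlg b hs).1, hnn] at key
    refine le_trans (Real.exp_le_exp.2 (neg_le_neg ?_)) key
    have h1 : (1 : ℝ) ≤ (10 ^ 6) ^ n := one_le_pow₀ (by norm_num)
    have h2 : Ω * (p * (10 ^ 6 * ρ) ^ n) + g ≤ 3 * (10 ^ 6) ^ n * (p * Ω * ρ ^ n + V) := by
      have h3 : Ω * (p * (10 ^ 6 * ρ) ^ n) = (10 ^ 6) ^ n * (p * Ω * ρ ^ n) := by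
        rw [mul_pow]; ring
      rw [h3]
      nlinarith
    have h4 : (24 * 10 ^ 18 : ℝ) ≤ (24 * 10 ^ 18) ^ n := le_self_pow₀ (by norm_num) (by omega)
    calc _ ≤ 10 ^ 12 * 4 ^ n * (200 * V) ^ 3 * (3 * (10 ^ 6) ^ n * (p * Ω * ρ ^ n + V)) := by
          gcongr
      _ = 24 * 10 ^ 18 * (4 ^ n * (10 ^ 6) ^ n) * V ^ 3 * (p * Ω * ρ ^ n + V) := by ring
      _ ≤ (24 * 10 ^ 18) ^ n * (4 ^ n * (10 ^ 6) ^ n) * V ^ 3 * (p * Ω * ρ ^ n + V) := by gcongr
      _ = (24 * 10 ^ 18 * (4 * 10 ^ 6)) ^ n * V ^ 3 * (p * Ω * ρ ^ n + V) := by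
          rw [mul_pow (24 * 10 ^ 18 : ℝ), mul_pow (4 : ℝ)]
      _ ≤ _ := by gcongr; norm_num
  · refine le_trans ?_ hs.le
    have h1 : (3 : ℝ) ≤ (10 ^ 27) ^ n * V ^ 3 * (p * Ω * ρ ^ n + V) := by
      calc (3 : ℝ) ≤ 10 ^ 27 * 1 * 1 := by norm_num
        _ ≤ _ := by gcongr; linarith
    refine (Real.exp_le_exp.2 (neg_le_neg h1)).trans ?_
    have h2 := padic_pow_le_exp 3
    rw [Real.exp_neg, one_div]
    refine inv_anti₀ (by norm_num) ?_
    norm_num at h2 ⊢
    exact h2

end LFL
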