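import Pool.Agent.P.MP_7aad9f_nt.LFL.Arch
import Pool.Agent.P.MP_7aad9f_nt.LFL.Padic

set_option autoImplicit false

namespace LFL
open Finset

theorem nf_prod {y : ℕ} (hy : y ≠ 0) {s : Finset ℕ} (hs : y.primeFactors ⊆ s) :
    ∏ r ∈ s, r ^ y.factorization r = y := by
  conv_rhs => rw [← Nat.prod_factorization_pow_eq_self hy]
  exact (Finsupp.prod_of_support_subset _ hs _ fun _ _ => pow_zero _).symm

theorem nf_log {y : ℕ} (hy : y ≠ 0) {s : Finset ℕ} (hs : y.primeFactors ⊆ s)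
    (hp : ∀ r ∈ s, r.Prime) : ∑ r ∈ s, (y.factorization r : ℝ) * Real.log r = Real.log y := by
  conv_rhs => rw [← nf_prod hy hs]
  rw [Nat.cast_prod, Real.log_prod fun r hr => by exact_mod_cast (pow_pos (hp r hr).pos _).ne']
  exact sum_congr rfl fun r _ => by rw [Nat.cast_pow, Real.log_pow]

theorem nf_fact {y r : ℕ} (hy : y ≠ 0) (hr : r.Prime) {c : ℝ} (hc : (y : ℝ) ≤ c) :
    2 * (y.factorization r : ℝ) ≤ 3 * Real.log c := by
  have h1 : 2 ^ y.factorization r ≤ y :=
    (Nat.pow_le_pow_left hr.two_le _).trans (Nat.ordProj_le r hy)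
  have h2 : (2 : ℝ) ^ y.factorization r ≤ c := le_trans (by exact_mod_cast h1) hc
  have h3 := Real.log_le_log (by positivity) h2
  rw [Real.log_pow] at h3
  have h4 : (0 : ℝ) ≤ y.factorization r := Nat.cast_nonneg _
  nlinarith [Real.log_two_gt_d9]

theorem nf_apow {y z : ℕ} (hy : y ≠ 0) (hz : z ≠ 0) {s : Finset ℕ} (h1 : y.primeFactors ⊆ s)
    (h2 : z.primeFactors ⊆ s) (hp : ∀ r ∈ s, r.Prime) :
    apow (fun r : s => r.1) (fun r => 2 * ((y.factorization r.1 : ℤ) - z.factorization r.1)) =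
      ((y : ℚ) / z) ^ 2 := by
  unfold apow
  rw [prod_coe_sort s fun r => (r : ℚ) ^ (2 * ((y.factorization r : ℤ) - z.factorization r))]
  conv_rhs => rw [← nf_prod hy h1, ← nf_prod hz h2]
  rw [Nat.cast_prod, Nat.cast_prod, ← prod_div_distrib, ← prod_pow]
  refine prod_congr rfl fun r hr => ?_
  have h0 : (r : ℚ) ≠ 0 := by exact_mod_cast (hp r hr).ne_zero
  rw [mul_comm, zpow_mul, zpow_sub₀ h0, zpow_natCast, zpow_natCast, Nat.cast_pow, Nat.cast_pow,
    zpow_ofNat]

theorem padic_nat : ∃ C : ℝ, 1 ≤ C ∧ ∀ (y z e p : ℕ) (s : Finset ℕ) (c V : ℝ), p.Prime →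
    0 < y → 0 < z → Nat.Coprime y z → y ≠ z → (∀ r ∈ s, r.Prime) → p ∉ s →
    (y * z).primeFactors ⊆ s → (p : ℤ) ^ e ∣ (y : ℤ) ^ 2 - (z : ℤ) ^ 2 → (y : ℝ) ≤ c →
    (z : ℝ) ≤ c → 1 ≤ V → 3 * Real.log c ≤ Real.exp V → ∑ r ∈ s, Real.log r ≤ V →
    Real.log p ≤ V →
    e * Real.log p ≤ C ^ s.card * V ^ 3 * (p * (∏ r ∈ s, Real.log r) *
      (s.card / max (s.card : ℝ) (Real.log p)) ^ s.card + V) := by
  obtain ⟨C, hC, H⟩ := padic_bound
  refine ⟨C, hC, fun y z e p s c V hp hy hz _ hyz hs hps hsub hd hyc hzc hV hc hsum hpV => ?_⟩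
  have := Fact.mk hp
  rw [Nat.primeFactors_mul hy.ne' hz.ne'] at hsub
  have h1 : y.primeFactors ⊆ s := subset_union_left.trans hsub
  have h2 : z.primeFactors ⊆ s := subset_union_right.trans hsub
  have ha := nf_apow hy.ne' hz.ne' h1 h2 hs
  have hz' : (z : ℚ) ≠ 0 := by exact_mod_cast hz.ne'
  have h3 := H s (fun r => r.1) (fun r => 2 * ((y.factorization r.1 : ℤ) - z.factorization r.1))
    p V (fun r => hs r.1 r.2) Subtype.val_injective (fun r h => hps (h ▸ r.2)) (fun h => by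
      rw [h, apow_zero, eq_comm, div_pow, div_eq_one_iff_eq (pow_ne_zero _ hz')] at ha
      exact hyz (Nat.pow_left_injective two_ne_zero (by exact_mod_cast ha))) hV
    (fun r => by
      have a1 := nf_fact hy.ne' (hs r.1 r.2) hyc
      have a2 := nf_fact hz.ne' (hs r.1 r.2) hzc
      have a3 : (0 : ℝ) ≤ y.factorization r.1 := Nat.cast_nonneg _
      have a4 : (0 : ℝ) ≤ z.factorization r.1 := Nat.cast_nonneg _
      push_cast
      rw [abs_le]
      constructor <;> linarith)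
    (by rwa [sum_coe_sort s fun r => Real.log r]) hpV
  rw [ha, Fintype.card_coe, prod_coe_sort s fun r => Real.log r] at h3
  have h4 : ‖(z : ℚ_[p])‖ = 1 := by
    refine Padic.norm_natCast_eq_one_iff.2 ((Nat.Prime.coprime_iff_not_dvd hp).2 fun h => ?_)
    exact hps (h2 (Nat.mem_primeFactors.2 ⟨hp, h, hz.ne'⟩))
  have hz'' : (z : ℚ_[p]) ≠ 0 := by exact_mod_cast hz.ne'
  have h5 : ((((y : ℚ) / z) ^ 2 : ℚ) : ℚ_[p]) - 1 =
      (((y : ℤ) ^ 2 - (z : ℤ) ^ 2 : ℤ) : ℚ_[p]) / (z : ℚ_[p]) ^ 2 := by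
    push_cast
    field_simp
  rw [h5, norm_div, norm_pow, h4, one_pow, div_one] at h3
  have h6 := h3.trans ((Padic.norm_int_le_pow_iff_dvd _ e).2 hd)
  have h7 : (0 : ℝ) < p := by exact_mod_cast hp.pos
  rw [← Real.le_log_iff_exp_le (by positivity), Real.log_zpow] at h6
  push_cast at h6
  linarith

theorem arch_nat : ∃ C : ℝ, 1 ≤ C ∧ ∀ (x y c : ℕ) (V : ℝ), 0 < x → 0 < y → Nat.Coprime x y →
    x + y = c → 1 ≤ V → 3 * Real.log c ≤ Real.exp V →
    ∑ r ∈ (y * c).primeFactors, Real.log r ≤ V →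
    Real.log c ≤ Real.log x + 1 + C ^ (y * c).primeFactors.card * V ^ 3 *
      (∏ r ∈ (y * c).primeFactors, Real.log r + V) := by
  obtain ⟨C, hC, H⟩ := arch_bound
  refine ⟨C, hC, fun x y c V hx hy _ hxy hV hc hsum => ?_⟩
  have hc0 : c ≠ 0 := by omega
  have hs : ∀ r ∈ (y * c).primeFactors, r.Prime := fun r hr => Nat.prime_of_mem_primeFactors hr
  have h1 : y.primeFactors ⊆ (y * c).primeFactors :=
    Nat.primeFactors_mono (dvd_mul_right _ _) (mul_ne_zero hy.ne' hc0)
  have h2 : c.primeFactors ⊆ (y * c).primeFactors :=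
    Nat.primeFactors_mono (dvd_mul_left _ _) (mul_ne_zero hy.ne' hc0)
  generalize (y * c).primeFactors = s at *
  have hx' : (0 : ℝ) < x := by exact_mod_cast hx
  have hy' : (0 : ℝ) < y := by exact_mod_cast hy
  have hxy' : (x : ℝ) + y = c := by exact_mod_cast hxy
  have hl2 : Real.log 2 ≤ 1 := Real.log_two_lt_d9.le.trans (by norm_num)
  have hB : 0 ≤ C ^ s.card * V ^ 3 * (∏ r ∈ s, Real.log r + V) := by
    have : 0 ≤ ∏ r ∈ s, Real.log r := prod_nonneg fun r _ => Real.log_natCast_nonneg r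
    have : 0 ≤ C := by linarith
    have : 0 ≤ V := by linarith
    positivity
  have hm : Real.log (2 * x) = Real.log 2 + Real.log x := Real.log_mul two_ne_zero hx'.ne'
  rcases le_total (y : ℝ) x with h | h
  · have := Real.log_le_log (by linarith) (show (c : ℝ) ≤ 2 * x by linarith)
    linarith
  have h3 : ∑ r : s, ((((c.factorization r.1 : ℤ) - y.factorization r.1 : ℤ) : ℝ)) *
      Real.log (r.1 : ℕ) = Real.log c - Real.log y := by
    rw [sum_coe_sort s fun r => ((((c.factorization r : ℤ) - y.factorization r : ℤ) : ℝ)) *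
      Real.log r, ← nf_log hc0 h2 hs, ← nf_log hy.ne' h1 hs, ← sum_sub_distrib]
    exact sum_congr rfl fun r _ => by push_cast; ring
  have h4 : 0 < Real.log c - Real.log y := sub_pos.2 (Real.log_lt_log hy' (by linarith))
  have h5 := H s (fun r => r.1) (fun r => (c.factorization r.1 : ℤ) - y.factorization r.1) V
    (fun r => hs r.1 r.2) Subtype.val_injective (fun h0 => by
      refine h4.ne' (h3.symm.trans (sum_eq_zero fun r _ => ?_))
      have : ((c.factorization r.1 : ℤ) - y.factorization r.1 : ℤ) = 0 := congrFun h0 r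
      rw [this, Int.cast_zero, zero_mul]) hV
    (fun r => by
      have a1 := nf_fact hc0 (hs r.1 r.2) le_rfl
      have a2 := nf_fact hy.ne' (hs r.1 r.2) (show (y : ℝ) ≤ c by linarith)
      have a3 : (0 : ℝ) ≤ y.factorization r.1 := Nat.cast_nonneg _
      have a4 : (0 : ℝ) ≤ c.factorization r.1 := Nat.cast_nonneg _
      push_cast
      rw [abs_le]
      constructor <;> linarith)
    (by rwa [sum_coe_sort s fun r => Real.log r])
  rw [h3, abs_of_pos h4, Fintype.card_coe, prod_coe_sort s fun r => Real.log r] at h5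
  have hc' : (0 : ℝ) < c := by linarith
  have h6 : Real.log c - Real.log y ≤ 2 * x / c := by
    rw [← Real.log_div hc'.ne' hy'.ne']
    refine (Real.log_le_sub_one_of_pos (by positivity)).trans ?_
    rw [div_sub_one hy'.ne', div_le_div_iff₀ hy' hc']
    nlinarith
  have h7 := h5.trans h6
  rw [← Real.le_log_iff_exp_le (by positivity), Real.log_div (by positivity) hc'.ne', hm] at h7
  linarith

end LFL
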