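import Mathlib

set_option autoImplicit false

namespace LFL
open Finset

/-- The saving factor. -/
noncomputable def sav (κ R : ℝ) : ℝ := Real.exp (-(κ * Real.log R / Real.log (Real.log R)))

theorem one_lt_log_three : 1 < Real.log 3 :=
  (Real.lt_log_iff_exp_lt (by norm_num)).2 (by linarith [Real.exp_one_lt_d9])

theorem loglog_two : Real.log (Real.log 2) < 0 :=
  Real.log_neg (Real.log_pos (by norm_num)) (by linarith [Real.log_two_lt_d9])

theorem primes_card (N : ℕ) : N ≤ ((range (2 * N ^ 2 + 1)).filter Nat.Prime).card := by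
  rcases Nat.eq_zero_or_pos N with rfl | hN
  · exact Nat.zero_le _
  by_contra hc
  have hm : 0 < N ^ 2 := by positivity
  have h1 := Nat.four_pow_le_two_mul_self_mul_centralBinom (N ^ 2) hm
  have h2 : Nat.centralBinom (N ^ 2) ≤
      (2 * N ^ 2) ^ ((range (2 * N ^ 2 + 1)).filter Nat.Prime).card := by
    rw [← Nat.prod_pow_factorization_centralBinom, ← prod_filter_of_ne (p := Nat.Prime)]
    · exact prod_le_pow_card _ _ _ fun p _ => Nat.pow_factorization_choose_le (by omega)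
    · intro p _ hp
      by_contra h
      exact hp (by rw [Nat.factorization_eq_zero_of_not_prime _ h, pow_zero])
  have h3 : (4 ^ N) ^ N ≤ (2 * N ^ 2) ^ N :=
    calc (4 ^ N) ^ N = 4 ^ (N ^ 2) := by rw [← pow_mul, sq]
      _ ≤ (2 * N ^ 2) ^ (((range (2 * N ^ 2 + 1)).filter Nat.Prime).card + 1) := by
          rw [pow_succ' (2 * N ^ 2)]
          exact h1.trans (Nat.mul_le_mul_left _ h2)
      _ ≤ _ := Nat.pow_le_pow_right (by omega) (by omega)
  have h4 := (Nat.pow_le_pow_iff_left hN.ne').1 h3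
  obtain ⟨n, rfl⟩ : ∃ n, N = n + 1 := ⟨N - 1, by omega⟩
  have h5 : n + 1 ≤ 2 ^ n := Nat.lt_two_pow_self
  have h6 : 4 ^ (n + 1) = 4 * (2 ^ n) ^ 2 := by
    rw [← pow_mul, mul_comm n, pow_mul, pow_succ' 4]
    norm_num
  nlinarith

theorem prod_log_le (C ε : ℝ) (hC : 1 ≤ C) (hε : 0 < ε) : ∃ K : ℝ, 1 ≤ K ∧
    ∀ s : Finset ℕ, (∀ r ∈ s, 0 < r) →
      C ^ s.card * ∏ r ∈ s, (1 + Real.log r) ≤ K * ((∏ r ∈ s, r : ℕ) : ℝ) ^ ε := by
  set B := C * (1 + 2 / ε) with hB
  have h2 : 0 < 2 / ε := by positivity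
  have hB1 : 1 ≤ B := by nlinarith
  obtain ⟨r0, hr0⟩ := Filter.eventually_atTop.1
    (((tendsto_rpow_atTop (half_pos hε)).comp tendsto_natCast_atTop_atTop).eventually_ge_atTop B)
  have key : ∀ r : ℕ, 0 < r →
      C * (1 + Real.log r) ≤ (if r < r0 then B else 1) * (r : ℝ) ^ ε := by
    intro r hr
    have hr1 : (1 : ℝ) ≤ r := by exact_mod_cast hr
    have h1 : 1 ≤ (r : ℝ) ^ (ε / 2) := Real.one_le_rpow hr1 (half_pos hε).le
    have h3 := Real.log_le_rpow_div (zero_le_one.trans hr1) (half_pos hε)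
    have h4 : (r : ℝ) ^ (ε / 2) / (ε / 2) = 2 / ε * (r : ℝ) ^ (ε / 2) := by field_simp
    have h5 : C * (1 + Real.log r) ≤ B * (r : ℝ) ^ (ε / 2) := by
      rw [hB, mul_assoc]
      exact mul_le_mul_of_nonneg_left (by linarith) (by linarith)
    have h6 : (r : ℝ) ^ ε = (r : ℝ) ^ (ε / 2) * (r : ℝ) ^ (ε / 2) := by
      rw [← Real.rpow_add (by linarith), add_halves]
    split_ifs with h
    · refine h5.trans (mul_le_mul_of_nonneg_left ?_ (by linarith))
      rw [h6]; nlinarith
    · have := hr0 r (not_lt.1 h)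
      simp only [Function.comp] at this
      rw [h6, one_mul]
      exact h5.trans (mul_le_mul_of_nonneg_right this (by linarith))
  refine ⟨B ^ r0, one_le_pow₀ hB1, fun s hs => ?_⟩
  rw [← prod_const, ← prod_mul_distrib, Nat.cast_prod,
    ← Real.finsetProd_rpow _ _ (fun i _ => Nat.cast_nonneg i)]
  calc _ ≤ ∏ r ∈ s, (if r < r0 then B else 1) * (r : ℝ) ^ ε := by
        refine prod_le_prod (fun r hr => ?_) fun r hr => key r (hs r hr)
        have := Real.log_natCast_nonneg r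
        positivity
    _ ≤ _ := by
        rw [prod_mul_distrib]
        refine mul_le_mul_of_nonneg_right ?_ (prod_nonneg fun r _ => by positivity)
        rw [prod_ite, prod_const_one, mul_one, prod_const]
        refine pow_le_pow_right₀ hB1 ?_
        exact (card_le_card (t := range r0) fun r hr => mem_range.2 (mem_filter.1 hr).2).trans
          (card_range _).le

theorem exists_aux_primes (s : Finset ℕ) (k : ℕ) : ∃ t : Finset ℕ, t.card = k ∧ Disjoint t s ∧
    ∀ r ∈ t, r.Prime ∧ r ≤ 2 * (s.card + k) ^ 2 := by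
  obtain ⟨t, ht, hc⟩ := exists_subset_card_eq
    (s := (range (2 * (s.card + k) ^ 2 + 1)).filter Nat.Prime \ s) (n := k) (by
      have h1 := primes_card (s.card + k)
      have h2 := le_card_sdiff s ((range (2 * (s.card + k) ^ 2 + 1)).filter Nat.Prime)
      omega)
  refine ⟨t, hc, disjoint_left.2 fun r hr => (mem_sdiff.1 (ht hr)).2, fun r hr => ?_⟩
  have := mem_filter.1 (mem_sdiff.1 (ht hr)).1
  exact ⟨this.2, Nat.lt_succ_iff.1 (mem_range.1 this.1)⟩

theorem rpow_le_sav (κ δ : ℝ) (hκ : 0 < κ) (hδ : 0 < δ) : ∃ K : ℝ, 1 ≤ K ∧ ∀ R : ℕ, 2 ≤ R →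
    (R : ℝ) ^ (-δ) ≤ K * sav κ R := by
  have hu0 : 0 < Real.log (Real.log 3) := Real.log_pos one_lt_log_three
  set A := κ * Real.exp (κ / δ) / Real.log (Real.log 3) with hA
  have hA0 : 0 ≤ A := by positivity
  refine ⟨Real.exp A, Real.one_le_exp hA0, fun R hR => ?_⟩
  have hR0 : (2 : ℝ) ≤ R := by exact_mod_cast hR
  have hx : 0 < Real.log R := Real.log_pos (by linarith)
  rw [Real.rpow_def_of_pos (by linarith), sav, ← Real.exp_add, Real.exp_le_exp]
  have hd : 0 < δ * Real.log R := by positivity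
  rcases le_or_gt (Real.log (Real.log R)) 0 with hu | hu
  · have : κ * Real.log R / Real.log (Real.log R) ≤ 0 :=
      div_nonpos_of_nonneg_of_nonpos (by positivity) hu
    nlinarith
  rcases le_or_gt (κ / δ) (Real.log (Real.log R)) with h | h
  · have : κ * Real.log R / Real.log (Real.log R) ≤ δ * Real.log R := by
      rw [div_le_iff₀ hδ] at h
      rw [div_le_iff₀ hu]
      nlinarith
    nlinarith
  · have h3 : (3 : ℝ) ≤ R := by
      rcases eq_or_lt_of_le hR with rfl | h3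
      · have := loglog_two
        push_cast at hu
        linarith
      · exact_mod_cast h3
    have h4 : Real.log (Real.log 3) ≤ Real.log (Real.log R) :=
      Real.log_le_log (by linarith [one_lt_log_three]) (Real.log_le_log (by norm_num) h3)
    have h5 : Real.log R ≤ Real.exp (κ / δ) := ((Real.log_lt_iff_lt_exp hx).1 h).le
    have : κ * Real.log R / Real.log (Real.log R) ≤ A := by
      rw [hA]; gcongr
    nlinarith

theorem log_pow_sav_le (κ : ℝ) (hκ : 0 < κ) (A : ℕ) : ∃ K : ℝ, 1 ≤ K ∧ ∀ R : ℕ, 2 ≤ R →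
    (1 + Real.log R) ^ A * sav κ R ≤ K * sav (κ / 2) R := by
  set c := κ / 4 with hc
  have hc0 : 0 < c := by positivity
  set K1 : ℝ := ((2 * A).factorial : ℝ) / c ^ (2 * A) * Real.exp c
  set K2 : ℝ := (1 + Real.log 2) ^ A * sav κ 2 / sav (κ / 2) 2
  have hp : ∀ a b, 0 < sav a b := fun a b => Real.exp_pos _
  refine ⟨max 1 (max K1 K2), le_max_left _ _, fun R hR => ?_⟩
  rcases eq_or_lt_of_le hR with rfl | h3
  · refine le_trans ?_ (mul_le_mul_of_nonneg_right
      ((le_max_right K1 K2).trans (le_max_right _ _)) (hp _ _).le)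
    push_cast
    rw [div_mul_cancel₀ _ (hp _ _).ne']
  refine le_trans ?_ (mul_le_mul_of_nonneg_right
    ((le_max_left K1 K2).trans (le_max_right _ _)) (hp _ _).le)
  have h3' : (3 : ℝ) ≤ R := by exact_mod_cast h3
  have hx : 1 < Real.log R := one_lt_log_three.trans_le (Real.log_le_log (by norm_num) h3')
  have hu : 0 < Real.log (Real.log R) := Real.log_pos hx
  unfold sav
  generalize Real.log R = x at hx hu
  obtain ⟨y, hy, rfl⟩ : ∃ y : ℝ, 0 < y ∧ x = y ^ 2 :=
    ⟨√x, Real.sqrt_pos.2 (by linarith), (Real.sq_sqrt (by linarith)).symm⟩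
  have h1 : Real.log (y ^ 2) ≤ 2 * y := by
    rw [Real.log_pow]
    have := Real.log_le_sub_one_of_pos hy
    push_cast
    linarith
  have h2 : c * y ≤ κ / 2 * y ^ 2 / Real.log (y ^ 2) := by
    rw [le_div_iff₀ hu]
    calc c * y * Real.log (y ^ 2) ≤ c * y * (2 * y) := by gcongr
      _ = _ := by rw [hc]; ring
  have h4 : (1 + y ^ 2) ^ A ≤ K1 * Real.exp (c * y) := by
    have h5 := Real.pow_div_factorial_le_exp (c * (1 + y)) (by positivity) (2 * A)
    have h6 : (0 : ℝ) < (2 * A).factorial := by exact_mod_cast Nat.factorial_pos _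
    rw [div_le_iff₀ h6, mul_pow, mul_add, mul_one, Real.exp_add, ← le_div_iff₀' (by positivity)]
      at h5
    calc (1 + y ^ 2) ^ A ≤ ((1 + y) ^ 2) ^ A := by gcongr; nlinarith
      _ = (1 + y) ^ (2 * A) := by rw [pow_mul]
      _ ≤ _ := h5
      _ = _ := by simp only [K1]; ring
  have hK1 : 0 ≤ K1 := by positivity
  calc _ ≤ K1 * Real.exp (κ / 2 * y ^ 2 / Real.log (y ^ 2)) *
        Real.exp (-(κ * y ^ 2 / Real.log (y ^ 2))) := by
        gcongr
        exact h4.trans (by gcongr)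
    _ = _ := by
        rw [mul_assoc, ← Real.exp_add]
        congr 2
        ring

theorem sav_le (κ : ℝ) (hκ : 0 < κ) : ∃ K : ℝ, 1 ≤ K ∧ ∀ R : ℕ, 2 ≤ R → sav κ R ≤ K := by
  refine ⟨max 1 (sav κ 2), le_max_left _ _, fun R hR => ?_⟩
  rcases eq_or_lt_of_le hR with rfl | h3
  · exact_mod_cast le_max_right _ _
  refine le_trans ?_ (le_max_left _ _)
  have h3' : (3 : ℝ) ≤ R := by exact_mod_cast h3
  have hx : 1 < Real.log R := one_lt_log_three.trans_le (Real.log_le_log (by norm_num) h3')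
  have hu : 0 < Real.log (Real.log R) := Real.log_pos hx
  rw [sav, Real.exp_le_one_iff, neg_nonpos]
  positivity

/-- Solving `y ≤ Z (max M (log y + 2)) ^ 4`. -/
theorem solve_log : ∃ K : ℝ, 1 ≤ K ∧ ∀ y Z M : ℝ, 0 < y → 1 ≤ Z → 1 ≤ M →
    y ≤ Z * (max M (Real.log y + 2)) ^ 4 → y ≤ K * Z * (M + Real.log Z) ^ 4 := by
  refine ⟨19 ^ 4, by norm_num, fun y Z M hy hZ hM h => ?_⟩
  have hl := Real.log_nonneg hZ
  have key : max M (Real.log y + 2) ≤ 19 * (M + Real.log Z) := by
    rcases le_total (Real.log y + 2) M with h1 | h1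
    · rw [max_eq_left h1]; linarith
    rw [max_eq_right h1] at h ⊢
    obtain ⟨w, hw, rfl⟩ : ∃ w : ℝ, 0 < w ∧ y = w ^ 8 :=
      ⟨y ^ ((8 : ℕ) : ℝ)⁻¹, by positivity, (Real.rpow_inv_natCast_pow hy.le (by norm_num)).symm⟩
    have h2 : Real.log (w ^ 8) + 2 ≤ 8 * w := by
      rw [Real.log_pow]
      have := Real.log_le_sub_one_of_pos hw
      push_cast
      linarith
    have h3 : w ^ 4 * w ^ 4 ≤ 2 ^ 12 * Z * w ^ 4 :=
      calc w ^ 4 * w ^ 4 = w ^ 8 := by ring
        _ ≤ Z * (8 * w) ^ 4 := h.trans (by gcongr; linarith)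
        _ = _ := by ring
    have h4 := Real.log_le_log (by positivity) (le_of_mul_le_mul_right h3 (by positivity))
    rw [Real.log_mul (by positivity) (by positivity), Real.log_pow, Real.log_pow] at h4
    rw [Real.log_pow]
    have := Real.log_two_lt_d9
    push_cast at h4 ⊢
    linarith
  calc y ≤ Z * (19 * (M + Real.log Z)) ^ 4 :=
        h.trans (by gcongr)
    _ = _ := by ring

end LFL
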