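import Pool.Agent.P.MP_7aad9f_nt.LFL.Basic

set_option autoImplicit false

namespace LFL
open Finset

section
variable {p : ℕ} [Fact p.Prime]

theorem norm_inv_factorial_le (k : ℕ) : ‖((k + 1).factorial : ℚ_[p])⁻¹‖ ≤ 2 ^ k := by
  have hp : p.Prime := Fact.out
  have h0 : (((k + 1).factorial : ℕ) : ℚ_[p]) ≠ 0 := by exact_mod_cast (k + 1).factorial_ne_zero
  have h1 := sub_one_mul_padicValNat_factorial_lt_of_ne_zero (p := p) (n := k + 1) (by omega)
  have h2 : p ≤ 2 ^ (p - 1) := by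
    have := Nat.lt_two_pow_self (n := p - 1)
    have := hp.one_le
    omega
  rw [norm_inv, Padic.norm_eq_zpow_neg_valuation h0, Padic.valuation_natCast, zpow_neg, inv_inv,
    zpow_natCast]
  have h3 : p ^ padicValNat p (k + 1).factorial ≤ 2 ^ k :=
    calc _ ≤ (2 ^ (p - 1)) ^ padicValNat p (k + 1).factorial := Nat.pow_le_pow_left h2 _
      _ = 2 ^ ((p - 1) * padicValNat p (k + 1).factorial) := by rw [← pow_mul]
      _ ≤ 2 ^ k := Nat.pow_le_pow_right (by norm_num) (by omega)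
  exact_mod_cast h3

theorem plog_term {x : ℚ_[p]} {r : ℝ} (hx : ‖x‖ ≤ r) (k : ℕ) :
    ‖x ^ (k + 1) / ((k + 1).factorial : ℚ_[p])‖ ≤ ‖x‖ * (2 * r) ^ k := by
  rw [div_eq_mul_inv, norm_mul, norm_pow, pow_succ', mul_pow, mul_assoc, mul_comm (2 ^ k : ℝ)]
  have := norm_inv_factorial_le (p := p) k
  have h0 : 0 ≤ r := (norm_nonneg x).trans hx
  gcongr

theorem plog_add {x y : ℚ_[p]} {r : ℝ} (hx : ‖x‖ ≤ r) (hy : ‖y‖ ≤ r) : ‖x + y‖ ≤ r :=
  (Padic.nonarchimedean x y).trans (max_le hx hy)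

theorem plog_sub {x y : ℚ_[p]} {r : ℝ} (hx : ‖x‖ ≤ r) (hy : ‖y‖ ≤ r) : ‖x - y‖ ≤ r := by
  rw [sub_eq_add_neg]
  exact plog_add hx (by rwa [norm_neg])

theorem padic_conv {x : ℚ_[p]} (hx : ‖x‖ ≤ 1 / 4) : Conv x := by
  unfold Conv
  rw [← summable_nat_add_iff 1]
  exact Summable.of_nonneg_of_le (fun _ => norm_nonneg _) (fun k => plog_term hx k)
    ((summable_geometric_of_lt_one (by norm_num) (by norm_num)).mul_left _)

theorem padic_ex_sub {x : ℚ_[p]} (hx : ‖x‖ ≤ 1 / 8) : ‖ex x - 1 - x‖ ≤ ‖x‖ / 3 := by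
  have hs : Summable fun k : ℕ => x ^ k / (k.factorial : ℚ_[p]) :=
    Summable.of_norm (padic_conv (hx.trans (by norm_num)))
  have e : ex x - 1 - x = ∑' k : ℕ, x ^ (k + 2) / ((k + 2).factorial : ℚ_[p]) := by
    rw [ex, ← hs.sum_add_tsum_nat_add 2]
    simp [sum_range_succ]
    ring
  have hg := (hasSum_geometric_of_lt_one (r := 1 / 4) (by norm_num) (by norm_num)).mul_left
    (‖x‖ * (1 / 4))
  rw [e]
  refine (tsum_of_norm_bounded hg fun k => (plog_term hx (k + 1)).trans (le_of_eq ?_)).trans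
    (le_of_eq (by ring))
  rw [pow_succ']
  norm_num
  ring

theorem padic_norm_ex_sub_one {x : ℚ_[p]} (hx : ‖x‖ ≤ 1 / 8) : ‖ex x - 1‖ = ‖x‖ := by
  have h := padic_ex_sub hx
  rcases eq_or_ne x 0 with rfl | h0
  · simpa using h
  have h1 : 0 < ‖x‖ := norm_pos_iff.2 h0
  have h2 : ‖ex x - 1 - x‖ < ‖x‖ := by linarith
  rw [show ex x - 1 = (ex x - 1 - x) + x by ring, Padic.add_eq_max_of_ne h2.ne, max_eq_right h2.le]

theorem plog_ex_add {x y : ℚ_[p]} (hx : ‖x‖ ≤ 1 / 8) (hy : ‖y‖ ≤ 1 / 8) :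
    ex (x + y) = ex x * ex y :=
  ex_add (padic_conv (hx.trans (by norm_num))) (padic_conv (hy.trans (by norm_num)))

theorem plog_ex_ne {x : ℚ_[p]} (hx : ‖x‖ ≤ 1 / 8) : ex x ≠ 0 := by
  intro h
  have := padic_norm_ex_sub_one hx
  rw [h, zero_sub, norm_neg, norm_one] at this
  linarith

theorem plog_int {x : ℚ_[p]} (hx : ‖x‖ ≤ 1 / 8) (m : ℤ) : ‖(m : ℚ_[p]) * x‖ ≤ 1 / 8 := by
  rw [norm_mul]
  exact (mul_le_of_le_one_left (norm_nonneg _) (Padic.norm_int_le_one m)).trans hx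

theorem plog_ex_int {x : ℚ_[p]} (hx : ‖x‖ ≤ 1 / 8) (m : ℤ) : ex ((m : ℚ_[p]) * x) = ex x ^ m := by
  have key : ∀ m : ℤ, ex (((m + 1 : ℤ) : ℚ_[p]) * x) = ex ((m : ℚ_[p]) * x) * ex x := fun m => by
    rw [← plog_ex_add (plog_int hx m) hx]
    congr 1
    push_cast
    ring
  have h0 := plog_ex_ne hx
  induction m using Int.induction_on with
  | zero => simp [ex_zero]
  | succ m ih => rw [key, ih, zpow_add_one₀ h0]
  | pred m ih =>
    have := key (-(m : ℤ) - 1)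
    rw [sub_add_cancel, ih] at this
    rw [zpow_sub_one₀ h0, this, mul_inv_cancel_right₀ h0]

theorem plog_ex_sum {ι : Type} (s : Finset ι) {x : ι → ℚ_[p]} (hx : ∀ i, ‖x i‖ ≤ 1 / 8) :
    ‖∑ i ∈ s, x i‖ ≤ 1 / 8 ∧ ex (∑ i ∈ s, x i) = ∏ i ∈ s, ex (x i) := by
  classical
  induction s using Finset.induction_on with
  | empty => simp [ex_zero]
  | insert a s ha ih =>
    rw [sum_insert ha, prod_insert ha, plog_ex_add (hx a) ih.1, ih.2]
    exact ⟨plog_add (hx a) ih.1, rfl⟩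

theorem padic_ex_inj {x y : ℚ_[p]} (hx : ‖x‖ ≤ 1 / 8) (hy : ‖y‖ ≤ 1 / 8) (h : ex x = ex y) :
    x = y := by
  have hd := plog_sub hx hy
  have h1 := plog_ex_add hy hd
  rw [add_sub_cancel, h] at h1
  have h2 : ex (x - y) = 1 := (mul_eq_left₀ (plog_ex_ne hy)).1 h1.symm
  have h3 := padic_norm_ex_sub_one hd
  rw [h2, sub_self, norm_zero] at h3
  exact sub_eq_zero.1 (norm_eq_zero.1 h3.symm)

theorem padic_ex_surj {y : ℚ_[p]} (hy : ‖y - 1‖ ≤ 1 / 8) : ∃ x : ℚ_[p], ‖x‖ ≤ 1 / 8 ∧ ex x = y := by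
  have hm : Set.MapsTo (fun x : ℚ_[p] => x - (ex x - y)) (Metric.closedBall 0 (1 / 8))
      (Metric.closedBall 0 (1 / 8)) := by
    intro x hx
    rw [mem_closedBall_zero_iff] at hx ⊢
    have := padic_ex_sub hx
    beta_reduce
    rw [show x - (ex x - y) = (y - 1) - (ex x - 1 - x) by ring]
    exact plog_sub hy (by linarith)
  have hc : ContractingWith (1 / 2) (hm.restrict _ _ _) := by
    refine ⟨by norm_num, LipschitzWith.of_dist_le_mul fun a b => ?_⟩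
    have ha := mem_closedBall_zero_iff.1 a.2
    have hb := mem_closedBall_zero_iff.1 b.2
    have hd := plog_sub ha hb
    have h1 := plog_ex_add hb hd
    rw [add_sub_cancel] at h1
    rw [Subtype.dist_eq, Subtype.dist_eq, dist_eq_norm, dist_eq_norm]
    change ‖(a.1 - (ex a.1 - y)) - (b.1 - (ex b.1 - y))‖ ≤ _
    have e : (a.1 - (ex a.1 - y)) - (b.1 - (ex b.1 - y)) =
        -(ex (a.1 - b.1) - 1 - (a.1 - b.1)) - (ex b.1 - 1) * (ex (a.1 - b.1) - 1) := by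
      rw [h1]; ring
    have h2 := padic_ex_sub hd
    have h3 := norm_nonneg (a.1 - b.1)
    rw [e]
    refine plog_sub ?_ ?_
    · rw [norm_neg]; push_cast; linarith
    · rw [norm_mul, padic_norm_ex_sub_one hb, padic_norm_ex_sub_one hd]
      push_cast
      nlinarith
  obtain ⟨x, hx, hf, -⟩ := ContractingWith.exists_fixedPoint' Metric.isClosed_closedBall.isComplete
    hm hc (x := 0) (by simp) (edist_ne_top _ _)
  refine ⟨x, mem_closedBall_zero_iff.1 hx, ?_⟩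
  have : x - (ex x - y) = x := hf
  linear_combination -this

/-- The `p`-adic logarithms of integers prime to `p`. -/
theorem exists_plog {ι : Type} [Fintype ι] (α : ι → ℕ) (hα : ∀ i, ¬ p ∣ α i) :
    ∃ lg : ι → ℚ_[p], ∀ lam : ι → ℤ, ‖((apow α lam : ℚ) : ℚ_[p]) - 1‖ ≤ 1 / 8 →
      ‖lin lg lam‖ = ‖((apow α lam : ℚ) : ℚ_[p]) - 1‖ ∧
      ex (lin lg lam) = ((apow α lam : ℚ) : ℚ_[p]) := by
  have hp : p.Prime := Fact.out
  set N := Nat.totient (p ^ 3) with hN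
  have hN0 : (N : ℚ_[p]) ≠ 0 := by
    exact_mod_cast (Nat.totient_pos.2 (pow_pos hp.pos 3)).ne'
  have h1 : ∀ i, ‖(α i : ℚ_[p]) ^ N - 1‖ ≤ 1 / 8 := fun i => by
    have hc : (α i).Coprime (p ^ 3) :=
      Nat.Coprime.pow_right 3 ((Nat.Prime.coprime_iff_not_dvd hp).2 (hα i)).symm
    have h2 := (Padic.norm_int_le_pow_iff_dvd (p := p) ((α i : ℤ) ^ N - 1) 3).2 (by
      exact_mod_cast (Nat.ModEq.pow_totient hc).symm.dvd)
    push_cast at h2
    refine h2.trans ?_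
    have h3 : (2 : ℝ) ≤ p := by exact_mod_cast hp.two_le
    rw [show (-3 : ℤ) = -((3 : ℕ) : ℤ) by norm_num, zpow_neg, zpow_natCast, one_div]
    refine inv_anti₀ (by norm_num) ?_
    calc (8 : ℝ) = 2 ^ 3 := by norm_num
      _ ≤ _ := by gcongr
  choose x hx1 hx2 using fun i => padic_ex_surj (h1 i)
  refine ⟨fun i => x i / N, fun lam hl => ?_⟩
  obtain ⟨y, hy1, hy2⟩ := padic_ex_surj hl
  have h2 := plog_ex_sum univ fun i => plog_int (hx1 i) (lam i)
  have h3 : ∑ i, (lam i : ℚ_[p]) * x i = ((N : ℤ) : ℚ_[p]) * y := by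
    refine padic_ex_inj h2.1 (plog_int hy1 N) ?_
    rw [h2.2, plog_ex_int hy1, hy2, apow]
    push_cast
    rw [zpow_natCast, ← prod_pow]
    refine prod_congr rfl fun i _ => ?_
    rw [plog_ex_int (hx1 i), hx2, ← zpow_natCast, ← zpow_natCast, ← zpow_mul, ← zpow_mul, mul_comm]
  have h4 : lin (fun i => x i / N) lam = y := by
    rw [lin]
    simp only [← mul_div_assoc, ← sum_div]
    rw [h3]
    push_cast
    field_simp
  rw [h4, ← hy2, padic_norm_ex_sub_one hy1]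
  exact ⟨rfl, rfl⟩

end

end LFL
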