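import Pool.Agent.P.MP_7aad9f_nt.LFL.BasicC
import Pool.Agent.P.MP_7aad9f_nt.LFL.Count

set_option autoImplicit false

namespace LFL
open Finset

open scoped Matrix.Norms.Elementwise in
/-- Siegel's lemma for a system indexed by finite sets with twice as many unknowns. -/
theorem siegel_fin {ρ γ : Type} (R : Finset ρ) (C : Finset γ) (a : ρ → γ → ℤ) (M : ℝ)
    (hM : 1 ≤ M) (hR : R.Nonempty) (hC : 2 * R.card ≤ C.card)
    (ha : ∀ r ∈ R, ∀ j ∈ C, |(a r j : ℝ)| ≤ M) :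
    ∃ x : γ → ℤ, (∃ j ∈ C, x j ≠ 0) ∧ (∀ r ∈ R, ∑ j ∈ C, x j * a r j = 0) ∧
      ∀ j ∈ C, |(x j : ℝ)| ≤ C.card * M := by
  classical
  have hR0 : 0 < R.card := hR.card_pos
  obtain ⟨A, hA⟩ : ∃ A : Matrix R C ℤ, A = Matrix.of fun (r : R) (j : C) => a r j := ⟨_, rfl⟩
  obtain ⟨t, ht0, ht1, ht2⟩ := Int.Matrix.exists_ne_zero_int_vec_norm_le A
    (by simp only [Fintype.card_coe]; omega) (by simpa only [Fintype.card_coe] using hR0)
  simp only [Fintype.card_coe] at ht2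
  have hA1 : ‖A‖ ≤ M := by
    rw [Matrix.norm_le_iff (by linarith)]
    intro r j
    rw [hA, Matrix.of_apply, Int.norm_eq_abs]
    exact ha r r.2 j j.2
  have hC' : 2 * (R.card : ℝ) ≤ C.card := by exact_mod_cast hC
  have hR' : (1 : ℝ) ≤ R.card := by exact_mod_cast hR0
  have h1 : (1 : ℝ) ≤ C.card * max 1 ‖A‖ :=
    one_le_mul_of_one_le_of_one_le (by linarith) (le_max_left _ _)
  have h2 : ‖t‖ ≤ C.card * M := by
    refine ht2.trans ((Real.rpow_le_rpow_of_exponent_le h1 (y := _) (z := 1) ?_).trans ?_)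
    · rw [div_le_one (by linarith)]
      linarith
    · rw [Real.rpow_one]
      exact mul_le_mul_of_nonneg_left (max_le hM hA1) (by positivity)
  refine ⟨fun j => if hj : j ∈ C then t ⟨j, hj⟩ else 0, ?_, fun r hr => ?_, fun j hj => ?_⟩
  · obtain ⟨j, hj⟩ := Function.ne_iff.1 ht0
    exact ⟨j, j.2, by simpa [j.2] using hj⟩
  · have h3 := congrFun ht1 ⟨r, hr⟩
    rw [hA] at h3
    simp only [Matrix.mulVec, dotProduct, Matrix.of_apply, Pi.zero_apply] at h3
    rw [← sum_coe_sort C, ← h3]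
    exact sum_congr rfl fun j _ => by simp [j.2, mul_comm]
  · simp only [hj, dite_true]
    rw [← Int.norm_eq_abs]
    exact (norm_le_pi_norm t _).trans h2

section
variable {ι K : Type} [Fintype ι] [DecidableEq ι] [NormedField K]

theorem siegel_good (c : Ctx ι K) (Ls : Finset (ι → ℤ)) (hI : Init c.α c.lg c.L c.a0 Ls)
    (P : (ι → ℤ) → ℕ → ℤ) (h1 : ∃ lam ∈ Ls, ∃ l ≤ c.L0, P lam l ≠ 0)
    (h2 : ∑ lam ∈ Ls, ∑ l ∈ range (c.L0 + 1), |(P lam l : ℝ)| ≤ c.P1) :
    c.Good 0 ⟨Ls, P, fun _ => 1⟩ where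
  zero_mem := hI.zero_mem
  ne := h1
  diam := fun lam hl lam' hl' i => by simpa using hI.diam lam hl lam' hl' i
  near := fun lam hl lam' hl' => by simpa using hI.near lam hl lam' hl'
  sign := fun _ _ => ⟨Or.inl rfl, one_pow _⟩
  exp_eq := fun lam hl => by simpa using hI.exp_eq lam hl
  size := by simpa using h2

theorem siegel_card (c : Ctx ι K) (h : c.OK) (Ls : Finset (ι → ℤ))
    (hI : Init c.α c.lg c.L c.a0 Ls) :
    (Ls.card : ℝ) * (c.L0 + 1) ≤ Real.exp (c.W * (2 * Fintype.card ι + c.L0)) := by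
  have h1 : Ls ⊆ Fintype.piFinset fun _ : ι => Icc (-(2 * c.L : ℤ)) (2 * c.L) := by
    intro lam hl
    rw [Fintype.mem_piFinset]
    intro i
    have e1 := hI.diam lam hl 0 hI.zero_mem i
    rw [Pi.zero_apply, sub_zero] at e1
    have e2 := half_lt_log (h.prime i)
    have e3 : |(lam i : ℝ)| ≤ 2 * c.L := by nlinarith [abs_nonneg (lam i : ℝ)]
    rw [mem_Icc, ← abs_le]
    exact_mod_cast e3
  have h2 := card_le_card h1
  rw [Fintype.card_piFinset, prod_const, card_univ, Int.card_Icc] at h2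
  have h3 : (2 * c.L + 1 - -(2 * c.L) : ℤ).toNat = 4 * c.L + 1 := by omega
  rw [h3] at h2
  have h4 : (Ls.card : ℝ) ≤ (4 * c.L + 1) ^ Fintype.card ι := by exact_mod_cast h2
  have hW := h.W2
  have h5 : 5 ≤ Real.exp c.W := by
    have := Real.quadratic_le_exp_of_nonneg (x := c.W) (by linarith)
    nlinarith
  have h6 : (4 * c.L + 1 : ℝ) ≤ Real.exp (c.W * 2) := by
    rw [mul_two, Real.exp_add]
    nlinarith [h.LW]
  have h7 : (c.L0 + 1 : ℝ) ≤ Real.exp (c.W * c.L0) :=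
    (Real.add_one_le_exp _).trans (Real.exp_le_exp.2 (by nlinarith [Nat.cast_nonneg (α := ℝ) c.L0]))
  calc _ ≤ Real.exp (c.W * 2) ^ Fintype.card ι * Real.exp (c.W * c.L0) :=
        mul_le_mul (h4.trans (pow_le_pow_left₀ (by positivity) h6 _)) h7 (by positivity)
          (by positivity)
    _ = _ := by
        rw [← Real.exp_nat_mul, ← Real.exp_add]
        congr 1
        ring

end

/-- Construction of the auxiliary function by Siegel's lemma. -/
theorem siegel {ι K : Type} [Fintype ι] [DecidableEq ι] [NormedField K] [CharZero K]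
    [CompleteSpace K] (c : Ctx ι K) (h : c.OK) (Ls : Finset (ι → ℤ))
    (hI : Init c.α c.lg c.L c.a0 Ls) (S : ℕ) (hS1 : 1 ≤ S) (hSW : (S : ℝ) ≤ Real.exp c.W)
    (hcard : 2 * S * (3 * (c.T + Fintype.card ι) / Fintype.card ι : ℝ) ^ Fintype.card ι ≤
      Ls.card * (c.L0 + 1))
    (hP : Real.exp (c.W * (4 * Fintype.card ι + 4 * c.L0 + 3 * c.T) +
      2 * S * Fintype.card ι * c.L) ≤ c.P1) :
    ∃ st : St ι, c.Good 0 st ∧ c.Van st c.T S := by
  have : Nonempty ι := ⟨c.i0⟩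
  have hW := h.W2
  have hN := siegel_card c h Ls hI
  obtain ⟨M, hM⟩ : ∃ M, M = Real.exp (c.W * (2 * c.L0 + 3 * c.T) + 2 * S * Fintype.card ι * c.L) :=
    ⟨_, rfl⟩
  have hM1 : 1 ≤ M := by rw [hM]; exact Real.one_le_exp (by positivity)
  obtain ⟨N, hNd⟩ : ∃ N : ℝ, N = Ls.card * (c.L0 + 1) := ⟨_, rfl⟩
  have hN0 : 0 ≤ N := by rw [hNd]; positivity
  have hE1 : 1 ≤ Real.exp (c.W * (2 * Fintype.card ι + c.L0)) := Real.one_le_exp (by positivity)
  have hPM : ∀ y : ℝ, y ≤ Real.exp (c.W * (2 * Fintype.card ι + c.L0)) * M → N * y ≤ c.P1 := by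
    intro y hy
    refine le_trans ?_ hP
    calc N * y ≤ N * (Real.exp (c.W * (2 * Fintype.card ι + c.L0)) * M) := by gcongr
      _ ≤ Real.exp (c.W * (2 * Fintype.card ι + c.L0)) *
          (Real.exp (c.W * (2 * Fintype.card ι + c.L0)) * M) := by
          gcongr
          rwa [hNd]
      _ = _ := by
          rw [hM, ← Real.exp_add, ← Real.exp_add]
          congr 1
          ring
  have hsum : ∀ (P : (ι → ℤ) → ℕ → ℤ) (y : ℝ),
      (∀ lam ∈ Ls, ∀ l ∈ range (c.L0 + 1), |(P lam l : ℝ)| ≤ y) →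
      ∑ lam ∈ Ls, ∑ l ∈ range (c.L0 + 1), |(P lam l : ℝ)| ≤ N * y := by
    intro P y hy
    refine (sum_le_sum fun lam hl => sum_le_sum fun l hl' => hy lam hl l hl').trans (le_of_eq ?_)
    simp only [sum_const, card_range, nsmul_eq_mul, hNd]
    push_cast
    ring
  have hg0 := siegel_good c Ls hI (fun _ _ => 1) ⟨0, hI.zero_mem, 0, Nat.zero_le _, one_ne_zero⟩
    ((hsum _ 1 fun _ _ _ _ => by simp).trans (hPM 1 (one_le_mul_of_one_le_of_one_le hE1 hM1)))
  obtain ⟨Den, hD0, -, hD⟩ := hg0.exists_den h S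
  have hH : c.H 0 = Fintype.card ι * c.L := by simp [Ctx.H]
  have hm : ∀ lam ∈ Ls, ∀ s ≤ S, ∃ m : ℕ, (Den : ℚ) * apow c.α lam ^ s = m ∧
      (m : ℝ) ≤ Real.exp (2 * S * Fintype.card ι * c.L) := by
    intro lam hl s hs
    obtain ⟨m, h1, h2⟩ := hD lam hl ((s : ℤ) • lam) fun i => by
      rw [Pi.smul_apply, smul_eq_mul, abs_mul, Nat.abs_cast]
      gcongr
    rw [apow_smul, zpow_natCast] at h1
    rw [hH, ← mul_assoc] at h2
    exact ⟨m, h1, h2⟩
  obtain ⟨x, ⟨j, hj, hx0⟩, hx1, hx2⟩ := siegel_fin (Icc 1 S ×ˢ tset ι c.T) (Ls ×ˢ range (c.L0 + 1))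
    (fun r j => (j.2.choose (r.2 c.i0) : ℤ) * (r.1 : ℤ) ^ (j.2 - r.2 c.i0) * c.mon r.2 j.1 *
      ((Den : ℚ) * apow c.α j.1 ^ r.1).num) M hM1
    ⟨(1, 0), mem_product.2 ⟨mem_Icc.2 ⟨le_rfl, hS1⟩, mem_tset.2 (by simp)⟩⟩
    (by
      rw [card_product, card_product, Nat.card_Icc, card_range, Nat.add_sub_cancel]
      have e1 := card_tset_le ι c.T
      have e2 : 2 * ((S : ℝ) * (tset ι c.T).card) ≤ Ls.card * (c.L0 + 1) := by
        refine le_trans ?_ hcard
        rw [← mul_assoc]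
        gcongr
      exact_mod_cast e2)
    (by
      rintro ⟨s, t⟩ hr ⟨lam, l⟩ hj
      obtain ⟨hs, ht⟩ := mem_product.1 hr
      obtain ⟨hl, hl'⟩ := mem_product.1 hj
      simp only [mem_Icc, mem_range, mem_tset] at hs ht hl hl'
      obtain ⟨m, h1, h2⟩ := hm lam hl s hs.2
      have e0 : 1 ≤ Real.exp c.W := Real.one_le_exp (by linarith)
      have e1 : ((l.choose (t c.i0) : ℕ) : ℝ) ≤ Real.exp c.W ^ c.L0 := by
        have e5 : ((l.choose (t c.i0) : ℕ) : ℝ) ≤ 2 ^ l := by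
          exact_mod_cast Nat.choose_le_two_pow l _
        have e6 : (2 : ℝ) ≤ Real.exp c.W := by linarith [Real.add_one_le_exp c.W]
        exact e5.trans ((pow_le_pow_left₀ (by norm_num) e6 _).trans
          (pow_le_pow_right₀ e0 (by omega)))
      have e2 : (s : ℝ) ^ (l - t c.i0) ≤ Real.exp c.W ^ c.L0 := by
        have e5 : (s : ℝ) ≤ Real.exp c.W := le_trans (by exact_mod_cast hs.2) hSW
        exact (pow_le_pow_left₀ (by positivity) e5 _).trans (pow_le_pow_right₀ e0 (by omega))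
      have e3 := h.mon_le (fun i => hg0.abs_le_exp h hl i) ht
      simp only [h1, Rat.num_natCast]
      push_cast
      rw [abs_mul, abs_mul, abs_mul, Nat.abs_cast, Nat.abs_cast, abs_pow, Nat.abs_cast]
      calc _ ≤ Real.exp c.W ^ c.L0 * Real.exp c.W ^ c.L0 * Real.exp (3 * c.W * c.T) *
            Real.exp (2 * S * Fintype.card ι * c.L) := by gcongr
        _ = M := by
            rw [hM, ← Real.exp_nat_mul, ← Real.exp_add, ← Real.exp_add, ← Real.exp_add]
            congr 1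
            ring)
  have hC : ((Ls ×ˢ range (c.L0 + 1)).card : ℝ) = N := by
    rw [card_product, card_range, hNd]
    push_cast
    rfl
  refine ⟨⟨Ls, fun lam l => x (lam, l), fun _ => 1⟩, siegel_good c Ls hI _ ?_ ?_, ?_⟩
  · exact ⟨j.1, (mem_product.1 hj).1, j.2, by simpa [Nat.lt_succ_iff] using (mem_product.1 hj).2,
      hx0⟩
  · refine (hsum _ (N * M) fun lam hl l hl' => ?_).trans (hPM _ ?_)
    · rw [← hC]
      exact hx2 (lam, l) (mem_product.2 ⟨hl, hl'⟩)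
    · gcongr
      rwa [hNd]
  · intro s hs1 hs2 _ t ht
    have e1 := hx1 (s, t) (mem_product.2 ⟨mem_Icc.2 ⟨hs1, hs2⟩, mem_tset.2 ht⟩)
    rw [sum_product] at e1
    refine mul_left_cancel₀ (a := (Den : ℚ)) (by exact_mod_cast hD0.ne') ?_
    rw [mul_zero, ← Int.cast_zero, ← e1, Ctx.Phi, Int.cast_sum, mul_sum]
    refine sum_congr rfl fun lam hl => ?_
    rw [Int.cast_sum, mul_sum]
    refine sum_congr rfl fun l _ => ?_
    obtain ⟨m, h1, -⟩ := hm lam hl s hs2
    simp only [h1, Rat.num_natCast]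
    push_cast
    rw [← h1]
    ring

end LFL
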