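import Pool.Agent.P.MP_7aad9f_nt.LFL.Core
import Pool.Agent.P.MP_7aad9f_nt.LFL.Siegel

set_option autoImplicit false

namespace LFL
open Finset

namespace ParamA

theorem geo (q τ : ℕ) (hq : 2 ≤ q) (m : ℕ) : ∑ k ∈ range m, (τ / q ^ k + 1) ≤ 2 * τ + m := by
  have h : ∀ m, 2 ^ m * ∑ k ∈ range m, τ / q ^ k + 2 * τ ≤ 2 ^ m * (2 * τ) := by
    intro m
    induction m with
    | zero => simp
    | succ m ih =>
      have h1 : 2 ^ m * (τ / q ^ m) ≤ τ :=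
        (Nat.mul_le_mul_right _ (Nat.pow_le_pow_left hq m)).trans (Nat.mul_div_le _ _)
      rw [sum_range_succ, pow_succ]
      nlinarith
  have h2 := Nat.le_of_mul_le_mul_left ((Nat.le_add_right _ _).trans (h m)) (by positivity)
  rw [sum_add_distrib, sum_const, card_range, smul_eq_mul, mul_one]
  omega

theorem master {n : ℕ} {g Z W : ℝ} (hZ : 0 < Z) (hW1 : 100 ≤ W)
    (hW2 : 2 * g + 4 * n + 2 * Real.log Z ≤ W) :
    42000000000 * W ^ 2 * (Real.exp g * 4 ^ n * Z) ≤ Real.exp W := by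
  have h1 : Real.exp g * 4 ^ n * Z ≤ Real.exp (W / 2) := by
    have h2 : (4 : ℝ) ^ n ≤ Real.exp (2 * n) := by
      rw [mul_comm, Real.exp_nat_mul]
      refine pow_le_pow_left₀ (by norm_num) ?_ n
      have := Real.add_one_le_exp 1
      rw [show (2 : ℝ) = 1 + 1 by norm_num, Real.exp_add]
      nlinarith
    calc Real.exp g * 4 ^ n * Z ≤ Real.exp g * Real.exp (2 * n) * Real.exp (Real.log Z) := by
          rw [Real.exp_log hZ]; gcongr
      _ ≤ _ := by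
          rw [← Real.exp_add, ← Real.exp_add]
          exact Real.exp_le_exp.2 (by linarith)
  have h2 : (42000000000 : ℝ) ≤ Real.exp (W / 4) := by
    have h3 : (2.7 : ℝ) ^ 25 ≤ Real.exp 1 ^ 25 :=
      pow_le_pow_left₀ (by norm_num) (by linarith [Real.exp_one_gt_d9]) 25
    rw [← Real.exp_nat_mul] at h3
    refine le_trans (by norm_num) (h3.trans (Real.exp_le_exp.2 ?_))
    push_cast
    linarith
  have h3 : W ^ 2 ≤ Real.exp (W / 4) := by
    refine le_trans ?_ (Real.pow_div_factorial_le_exp (W / 4) (by linarith) 4)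
    have h4 : 10000 ≤ W ^ 2 := by nlinarith
    have h5 : (W / 4) ^ 4 / (Nat.factorial 4 : ℕ) = W ^ 2 * (W ^ 2 / 6144) := by
      norm_num [Nat.factorial]; ring
    rw [h5]
    exact le_mul_of_one_le_right (by positivity) (by linarith)
  calc _ ≤ Real.exp (W / 4) * Real.exp (W / 4) * Real.exp (W / 2) := by gcongr
    _ = _ := by rw [← Real.exp_add, ← Real.exp_add]; congr 1; ring

theorem yb {W S M n T : ℝ} (hW : 100 ≤ W) (hS : 8500 * W ≤ S) (hM : 1 ≤ M) (hn : n ≤ M)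
    (hT : T ≤ 777 * M) :
    8 * (W * (4 * n + 5 * M + 3 * T) + 2 * S * M + W * (4 * M + 11 * T + 4)) + 8 ≤
      36 * (S * M) := by
  have h1 : W * (4 * n + 9 * M + 14 * T + 4) ≤ W * (10895 * M) :=
    mul_le_mul_of_nonneg_left (by linarith) (by linarith)
  have h2 : 8500 * W * M ≤ S * M := mul_le_mul_of_nonneg_right hS (by linarith)
  have h3 : 100 * 1 ≤ W * M := mul_le_mul hW hM (by norm_num) (by linarith)
  nlinarith

theorem ub {W S L n Y A Z u : ℝ} (hW : 100 ≤ W) (hS0 : 0 ≤ S) (hS : S ≤ 8501 * W) (hL0 : 0 ≤ L)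
    (hL : L ≤ 17003 * W * Z) (hn : n ≤ W) (hA : 1 ≤ A) (hZ : 1 ≤ Z)
    (hY : 8 * Y + 8 ≤ 36 * (S * (n * L))) (hu : u ≤ 43 * L) :
    16 * A * (2 * Y + 7 * S * (n * L) + 4 * W * S * u) + 1 ≤ 10 ^ 12 * A * W ^ 3 * Z := by
  have h0 : 0 ≤ S * L := mul_nonneg hS0 hL0
  have h1 : n * (S * L) ≤ W * (S * L) := mul_le_mul_of_nonneg_right hn h0
  have h2 : W * S * u ≤ W * S * (43 * L) :=
    mul_le_mul_of_nonneg_left hu (mul_nonneg (by linarith) hS0)
  have h3 : S * L ≤ 8501 * W * (17003 * W * Z) := mul_le_mul hS hL hL0 (by linarith)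
  have h4 : W * (S * L) ≤ W * (8501 * W * (17003 * W * Z)) :=
    mul_le_mul_of_nonneg_left h3 (by linarith)
  have h5 : 2 * Y + 7 * S * (n * L) + 4 * W * S * u ≤ 30000000000 * (W ^ 3 * Z) := by
    have h6 : 0 ≤ W ^ 3 * Z := by positivity
    nlinarith
  have h6 : 1 ≤ W ^ 3 * Z := one_le_mul_of_one_le_of_one_le (one_le_pow₀ (by linarith)) hZ
  have h7 : 1 ≤ A * (W ^ 3 * Z) := one_le_mul_of_one_le_of_one_le hA h6
  have h8 := mul_le_mul_of_nonneg_left h5 (show 0 ≤ 16 * A by linarith)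
  nlinarith

theorem sz {W L n A Z G E : ℝ} (hW : 100 ≤ W) (hL0 : 0 ≤ L) (hL : L ≤ 17003 * W * Z)
    (hn : n ≤ A) (hA : 1 ≤ A) (hZ : 1 ≤ Z) (hG : 1 ≤ G)
    (hE : 42000000000 * W ^ 2 * (G * A * Z) ≤ E) : 777 * (n * L) ≤ E := by
  have h1 : n * L ≤ A * (17003 * W * Z) := mul_le_mul hn hL hL0 (by linarith)
  have h2 : W * (A * Z) ≤ W ^ 2 * (G * A * Z) := by
    have h3 : A * Z ≤ G * A * Z := by
      rw [mul_assoc]; exact le_mul_of_one_le_left (by positivity) hG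
    exact mul_le_mul (by nlinarith) h3 (by positivity) (by positivity)
  have h3 : 0 ≤ W * (A * Z) := by positivity
  nlinarith

theorem sz' {W S L A Z G E u : ℝ} (hW : 100 ≤ W) (hS0 : 0 ≤ S) (hS : S ≤ 8501 * W)
    (hL : L ≤ 17003 * W * Z) (hA : 1 ≤ A) (hZ : 1 ≤ Z) (hG : 1 ≤ G) (hu : u ≤ 6 * L)
    (hE : 42000000000 * W ^ 2 * (G * A * Z) ≤ E) : 3 * G * (16 * A * (u * S)) ≤ E := by
  have h1 : u * S ≤ 6 * (17003 * W * Z) * (8501 * W) :=
    mul_le_mul (by linarith) hS hS0 (by positivity)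
  have h2 := mul_le_mul_of_nonneg_left h1 (show 0 ≤ 48 * (G * A) by positivity)
  have h3 : 0 ≤ W ^ 2 * (G * A * Z) := by positivity
  nlinarith

/-- The choice of the integer parameters. -/
theorem choice {n q : ℕ} {g X W : ℝ} (hn : 1 ≤ n) (hq : 2 ≤ q) (hq3 : q ≤ 3) (hg : (n : ℝ) ≤ g)
    (hX : 0 ≤ X) (hW1 : 100 ≤ W) (hW2 : 2 * g + 4 * n + 2 * Real.log (X + g) ≤ W) :
    ∃ S L τ Kl T : ℕ, 1 ≤ S ∧ 1 ≤ L ∧ (S : ℝ) ≤ L ∧ 8500 * W ≤ S ∧ 2 * S * X ≤ L ∧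
      (T : ℝ) ≤ 777 * (n * L) ∧ 777 * (n * L : ℝ) ≤ Real.exp W ∧
      (3 * (T + n) / n : ℝ) ≤ 5000 * n / g * L ∧
      (2 * n + 5) * ∑ k ∈ range Kl, (τ / q ^ k + 1) ≤ T ∧ 36 * (n * L : ℝ) ≤ g * τ ∧
      2 * L < q ^ Kl ∧ (q : ℝ) ^ Kl ≤ 6 * L ∧ n ≤ S ∧
      3 * Real.exp g * (16 * 4 ^ n * (q ^ Kl * S)) ≤ Real.exp W ∧
      ∀ Y : ℝ, 8 * Y + 8 ≤ 36 * (S * (n * L)) →
        16 * 4 ^ n * (2 * Y + 7 * S * (n * L) + 4 * W * S * (τ + q ^ Kl)) + 1 ≤
          10 ^ 12 * 4 ^ n * W ^ 3 * (X + g) := by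
  have n1 : (1 : ℝ) ≤ n := by exact_mod_cast hn
  have g0 : 0 < g := by linarith
  have Z1 : 1 ≤ X + g := by linarith
  have hlog := Real.log_nonneg Z1
  have hE := master (by linarith) hW1 hW2
  have G1 : 1 ≤ Real.exp g := Real.one_le_exp g0.le
  have nA : (n : ℝ) ≤ 4 ^ n := by exact_mod_cast (Nat.lt_pow_self (by norm_num)).le
  obtain ⟨S, S1, S2⟩ : ∃ S : ℕ, 8500 * W ≤ S ∧ (S : ℝ) ≤ 8501 * W :=
    ⟨⌈8500 * W⌉₊, Nat.le_ceil _, (Nat.ceil_lt_add_one (by linarith)).le.trans (by linarith)⟩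
  have S0 : (0 : ℝ) ≤ S := Nat.cast_nonneg S
  obtain ⟨L, L1, L2⟩ : ∃ L : ℕ, 2 * S * (X + g) ≤ L ∧ (L : ℝ) ≤ 17003 * W * (X + g) := by
    refine ⟨⌈2 * S * (X + g)⌉₊, Nat.le_ceil _,
      (Nat.ceil_lt_add_one (by positivity)).le.trans ?_⟩
    have h1 : S * (X + g) ≤ 8501 * W * (X + g) := mul_le_mul_of_nonneg_right S2 (by linarith)
    have h2 : 100 * 1 ≤ W * (X + g) := mul_le_mul hW1 Z1 (by norm_num) (by linarith)
    linarith
  have L0 : (0 : ℝ) ≤ L := Nat.cast_nonneg L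
  have SX : 0 ≤ S * X := mul_nonneg S0 hX
  have Sg : (S : ℝ) ≤ S * g := le_mul_of_one_le_right S0 (by linarith)
  have SL : (S : ℝ) ≤ L := by linarith
  have hR : 2 * S ≤ n * L / g := by
    rw [le_div_iff₀ g0]
    have := le_mul_of_one_le_left L0 n1
    linarith
  have hR' : n * L / g ≤ L := by
    rw [div_le_iff₀ g0, mul_comm]
    exact mul_le_mul_of_nonneg_left hg L0
  obtain ⟨τ, t1, t2⟩ : ∃ τ : ℕ, 36 * (n * L / g) ≤ τ ∧ (τ : ℝ) ≤ 37 * (n * L / g) :=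
    ⟨⌈36 * (n * L / g)⌉₊, Nat.le_ceil _,
      (Nat.ceil_lt_add_one (by positivity)).le.trans (by linarith)⟩
  have L1' : 1 ≤ L := by exact_mod_cast (by linarith : (1 : ℝ) ≤ L)
  have hsz := sz hW1 L0 L2 nA (n1.trans nA) Z1 G1 hE
  have LM : (L : ℝ) ≤ n * L := le_mul_of_one_le_left L0 n1
  obtain ⟨Kl, K1, K2⟩ : ∃ Kl : ℕ, 2 * L < q ^ Kl ∧ q ^ Kl ≤ 6 * L := by
    refine ⟨Nat.log q (2 * L) + 1, Nat.lt_pow_succ_log_self hq _, ?_⟩
    have := Nat.mul_le_mul (Nat.pow_log_le_self q (show 2 * L ≠ 0 by omega)) hq3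
    rw [pow_succ]
    omega
  have K3 : (q : ℝ) ^ Kl ≤ 6 * L := by exact_mod_cast K2
  have K4 : Kl ≤ τ := by
    have h1 : Real.exp (Kl * (1 / 2)) ≤ (q : ℝ) ^ Kl := by
      rw [Real.exp_nat_mul]
      refine pow_le_pow_left₀ (Real.exp_pos _).le ?_ _
      have h2 : (2 : ℝ) ≤ q := by exact_mod_cast hq
      have h3 := Real.exp_bound_div_one_sub_of_interval (x := 1 / 2) (by norm_num) (by norm_num)
      linarith
    have h2 := Real.exp_le_exp.1 (h1.trans (K3.trans (by linarith : 6 * (L : ℝ) ≤ Real.exp W)))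
    exact_mod_cast (by linarith : (Kl : ℝ) ≤ τ)
  have hT : (((2 * n + 5) * ∑ k ∈ range Kl, (τ / q ^ k + 1) : ℕ) : ℝ) ≤ n * (21 * τ) := by
    have h1 := Nat.mul_le_mul (show 2 * n + 5 ≤ 7 * n by omega)
      ((geo q τ hq Kl).trans (show 2 * τ + Kl ≤ 3 * τ by omega))
    exact_mod_cast h1.trans_eq (by ring)
  refine ⟨S, L, τ, Kl, _, by exact_mod_cast (by linarith : (1 : ℝ) ≤ S), L1', SL, S1,
    by linarith, hT.trans ?_, hsz, ?_, le_rfl, ?_, K1, K3,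
    by exact_mod_cast (by linarith : (n : ℝ) ≤ S),
    sz' hW1 S0 S2 L2 (n1.trans nA) Z1 G1 K3 hE, fun Y hY =>
    ub hW1 S0 S2 L0 L2 (by linarith) (n1.trans nA) Z1 hY (by linarith)⟩
  · rw [mul_left_comm (777 : ℝ)]
    exact mul_le_mul_of_nonneg_left (by linarith) (by linarith)
  · rw [div_le_iff₀ (by linarith), show 5000 * n / g * L = 5000 * (n * L / g) by ring]
    have h1 : (n : ℝ) * (63 * τ + 3) ≤ n * (5000 * (n * L / g)) :=
      mul_le_mul_of_nonneg_left (by linarith) (by linarith)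
    linarith
  · have h1 := mul_le_mul_of_nonneg_left t1 g0.le
    rwa [show g * (36 * (n * L / g)) = 36 * (n * L) by field_simp] at h1

end ParamA

/-- The general lower bound, after the choice of parameters. -/
theorem core_bound {ι K : Type} [Fintype ι] [DecidableEq ι] [NormedField K] [CharZero K]
    [CompleteSpace K] (α : ι → ℕ) (hα : ∀ i, (α i).Prime) (hinj : Function.Injective α)
    (b : ι → ℤ) (hb : b ≠ 0) (lg : ι → K) (q : ℕ) (hB : Base K q) (g pi X W : ℝ)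
    (hg : (Fintype.card ι : ℝ) ≤ g) (hpi : 0 < pi)
    (hX : (∏ i, Real.log (α i)) * pi * (5000 * Fintype.card ι / g) ^ Fintype.card ι ≤ X)
    (hW1 : 100 ≤ W) (hW2 : 2 * g + 4 * Fintype.card ι + 2 * Real.log (X + g) ≤ W)
    (hW3 : ∀ i, |(b i : ℝ)| ≤ Real.exp W) (hW4 : ∑ i, Real.log (α i) ≤ W)
    (hI : ∀ L : ℕ, 1 ≤ L → ∃ a0 : ℝ, a0 ≤ Fintype.card ι * L ∧
      Iface K q (Fintype.card ι) L g a0 ∧ ∃ Ls : Finset (ι → ℤ), Init α lg L a0 Ls ∧
        (L : ℝ) ^ Fintype.card ι ≤ Ls.card * ((∏ i, Real.log (α i)) * pi)) :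
    Real.exp (-(10 ^ 12 * 4 ^ Fintype.card ι * W ^ 3 * (X + g))) ≤ ‖lin lg b‖ := by
  by_contra hc
  obtain ⟨i0, hi0⟩ := Function.ne_iff.1 hb
  have hn : 1 ≤ Fintype.card ι := Fintype.card_pos_iff.2 ⟨i0⟩
  generalize hnn : Fintype.card ι = n at *
  have n1 : (1 : ℝ) ≤ n := by exact_mod_cast hn
  have g0 : 0 ≤ g := by linarith
  have hΩ : 0 ≤ ∏ i, Real.log (α i) := prod_nonneg fun i _ => Real.log_natCast_nonneg _
  have X0 : 0 ≤ X := le_trans (by positivity) hX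
  obtain ⟨S, L, τ, Kl, T, S1, L1, SL, SW, SX, TM, ME, hcd, hT, ht, K1, K2, nS, h4, h3⟩ :=
    ParamA.choice hn hB.prime.two_le hB.le3 hg X0 hW1 hW2
  obtain ⟨a0, ha0, hif, Ls, hLs, hL⟩ := hI L L1
  have L1' : (1 : ℝ) ≤ L := by exact_mod_cast L1
  have LM : (L : ℝ) ≤ n * L := le_mul_of_one_le_left (by linarith) n1
  have nM : (n : ℝ) ≤ n * L := le_mul_of_one_le_right (by linarith) L1'
  let c : Ctx ι K := ⟨α, b, i0, lg, q, L, n * L, T, Kl, W, g, a0,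
    Real.exp (W * (4 * n + 4 * (n * L) + 3 * T) + 2 * S * (n * L)),
    W * (4 * n + 5 * (n * L) + 3 * T) + 2 * S * (n * L), 10 ^ 12 * 4 ^ n * W ^ 3 * (X + g)⟩
  have hok : c.OK := by
    refine ⟨hB, hnn ▸ hif, hα, hinj, hi0, hW3, ?_, ?_, ?_, hW4, ?_, g0, (Real.exp_pos _).le,
      ?_, ?_, (not_le.1 hc).le, ?_⟩
    · show (L : ℝ) ≤ Real.exp W
      linarith
    · exact TM.trans ME
    · show a0 ≤ Real.exp W
      linarith
    · show 2 ≤ W
      linarith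
    · have : 0 ≤ W := by linarith
      show 0 ≤ W * (4 * n + 5 * (n * L) + 3 * T) + 2 * S * (n * L)
      positivity
    · show Real.exp _ * (q : ℝ) ^ (Kl * (n * L)) ≤
        Real.exp (W * (4 * n + 5 * (n * L) + 3 * T) + 2 * S * (n * L))
      have h1 : ((q : ℝ) ^ Kl) ^ (n * L) ≤ Real.exp W ^ (n * L) :=
        pow_le_pow_left₀ (by positivity) (by linarith) _
      rw [← pow_mul, ← Real.exp_nat_mul] at h1
      refine (mul_le_mul_of_nonneg_left h1 (Real.exp_pos _).le).trans_eq ?_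
      rw [← Real.exp_add]
      congr 1
      push_cast
      ring
    · show 3 * W ≤ 10 ^ 12 * 4 ^ n * W ^ 3 * (X + g)
      have h1 : W ≤ W ^ 3 := le_self_pow₀ (by linarith) (by norm_num)
      have h2 : (1 : ℝ) ≤ 4 ^ n := one_le_pow₀ (by norm_num)
      calc 3 * W ≤ 10 ^ 12 * 1 * W * 1 := by linarith
        _ ≤ _ := by gcongr; linarith
  have hY : 8 * c.Y + 8 ≤ 36 * (S * (n * L)) := by
    have := ParamA.yb hW1 SW (L1'.trans LM) nM TM
    simpa only [Ctx.Y, c, Nat.cast_mul] using this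
  obtain ⟨st, hg0, hv⟩ := siegel c hok Ls hLs S S1 (show (S : ℝ) ≤ Real.exp W by linarith)
    (by
      rw [hnn]
      show 2 * S * (3 * (T + n) / n : ℝ) ^ n ≤ Ls.card * (((n * L : ℕ) : ℝ) + 1)
      have h1 : (3 * (T + n) / n : ℝ) ^ n ≤ Ls.card * X := by
        refine (pow_le_pow_left₀ (by positivity) hcd n).trans ?_
        rw [mul_pow]
        refine (mul_le_mul_of_nonneg_left hL (by positivity)).trans ?_
        rw [mul_left_comm, mul_comm (_ ^ n)]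
        exact mul_le_mul_of_nonneg_left hX (Nat.cast_nonneg _)
      refine (mul_le_mul_of_nonneg_left h1 (by positivity)).trans ?_
      rw [mul_left_comm]
      refine mul_le_mul_of_nonneg_left ?_ (Nat.cast_nonneg _)
      push_cast
      linarith)
    (by
      rw [hnn]
      refine le_of_eq ?_
      simp only [c, Nat.cast_mul, mul_assoc])
  have e16 : (2 : ℝ) ^ (2 * n + 4) = 16 * 4 ^ n := by
    rw [pow_add, pow_mul]; norm_num [mul_comm]
  refine core c hok st hg0 S τ S1 hv (hnn ▸ hT) (hnn ▸ ht) (hY.trans ?_) ?_ ?_ K1 ?_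
  · show 36 * (S * (n * L : ℝ)) ≤ g * S * τ
    have := mul_le_mul_of_nonneg_left ht (Nat.cast_nonneg (α := ℝ) S)
    linarith
  · rw [hnn, e16]
    exact h3 _ hY
  · rw [hnn, e16]
    exact h4
  · show 2 * (n * L) < q ^ Kl * S
    calc 2 * (n * L) = 2 * L * n := by ring
      _ < q ^ Kl * n := Nat.mul_lt_mul_of_pos_right K1 hn
      _ ≤ _ := Nat.mul_le_mul_left _ nS

end LFL
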