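import Pool.Agent.P.MP_7aad9f_nt.LFL.BasicC
import Pool.Agent.P.MP_7aad9f_nt.LFL.VanPoly

set_option autoImplicit false

namespace LFL
open Finset

namespace TaylorA

theorem pow_sub {K : Type} [NormedField K] {a b : K} {M : ℝ} (hM : 1 ≤ M) (ha : ‖a‖ ≤ M)
    (hb : ‖b‖ ≤ M) (n : ℕ) : ‖a ^ n - b ^ n‖ ≤ n * M ^ n * ‖a - b‖ := by
  induction n with
  | zero => simp
  | succ n ih =>
    have e : a ^ (n + 1) - b ^ (n + 1) = a * (a ^ n - b ^ n) + b ^ n * (a - b) := by ring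
    have h1 : ‖a * (a ^ n - b ^ n)‖ ≤ M * (n * M ^ n * ‖a - b‖) := by
      rw [norm_mul]; gcongr
    have h2 : ‖b ^ n * (a - b)‖ ≤ M ^ (n + 1) * ‖a - b‖ := by
      rw [norm_mul, norm_pow]
      exact mul_le_mul_of_nonneg_right ((pow_le_pow_left₀ (norm_nonneg _) hb n).trans
        (pow_le_pow_right₀ hM n.le_succ)) (norm_nonneg _)
    rw [e]
    refine (norm_add_le _ _).trans ((add_le_add h1 h2).trans (le_of_eq ?_))
    push_cast
    ring

variable {ι K : Type} [Fintype ι] [DecidableEq ι] [NormedField K] [CharZero K] [CompleteSpace K]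
  {c : Ctx ι K} {k : ℕ} {st : St ι}

/-- The approximation of `lin` by a linear form in the `mu`. -/
noncomputable def w (c : Ctx ι K) (lam : ι → ℤ) : K :=
  ∑ i, c.lg i / (c.b c.i0 : K) * (c.mu lam i : K)

omit [CompleteSpace K] [DecidableEq ι] in
theorem lin_sub_w (h : c.b c.i0 ≠ 0) (lam : ι → ℤ) :
    lin c.lg lam - w c lam = (lam c.i0 : K) * ((c.b c.i0 : K)⁻¹ * lin c.lg c.b) := by
  have h0 : (c.b c.i0 : K) ≠ 0 := by exact_mod_cast h
  unfold lin w Ctx.mu
  rw [← sum_sub_distrib, mul_sum, mul_sum]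
  refine sum_congr rfl fun i _ => ?_
  push_cast
  field_simp
  ring

theorem two_le (h : c.OK) : 2 ≤ Real.exp c.W := by
  have := Real.add_one_le_exp c.W
  have := h.W2
  linarith

theorem pow_le (h : c.OK) {y : ℝ} (h0 : 0 ≤ y) (hy : y ≤ Real.exp c.W) {n N : ℕ} (hn : n ≤ N) :
    y ^ n ≤ Real.exp (c.W * N) := by
  have := two_le h
  rw [mul_comm, Real.exp_nat_mul]
  exact (pow_le_pow_left₀ h0 hy n).trans (pow_le_pow_right₀ (by linarith) hn)

theorem choose_le (h : c.OK) {l : ℕ} (hl : l ≤ c.L0) (a : ℕ) :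
    ‖(l.choose a : K)‖ ≤ Real.exp (c.W * c.L0) := by
  refine (h.base.norm_nat_le _).trans (le_trans ?_ (pow_le h (by norm_num) (two_le h) hl))
  exact_mod_cast Nat.choose_le_two_pow l a

theorem diff_le (h : c.OK) (hg : c.Good k st) {lam : ι → ℤ} (hl : lam ∈ st.Ls) :
    ‖lin c.lg lam - w c lam‖ ≤ Real.exp (3 * c.W) * ‖lin c.lg c.b‖ := by
  have h1 := (h.base.norm_le (lam c.i0)).trans (hg.abs_le_exp h hl c.i0)
  have h2 := (h.base.norm_inv_le h.b0).trans (h.bW c.i0)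
  have h3 := two_le h
  rw [lin_sub_w h.b0, norm_mul, norm_mul, show 3 * c.W = c.W + c.W + c.W by ring, Real.exp_add,
    Real.exp_add, mul_assoc (_ * _)]
  gcongr
  exact h1.trans (by gcongr)

theorem pow_diff_le (h : c.OK) (hg : c.Good k st) {lam : ι → ℤ} (hl : lam ∈ st.Ls) {n : ℕ}
    (hn : n ≤ c.T) : ‖lin c.lg lam ^ n - w c lam ^ n‖ ≤
      Real.exp c.W * Real.exp (2 * c.W * c.T) * (Real.exp (3 * c.W) * ‖lin c.lg c.b‖) := by
  have h1 := diff_le h hg hl
  have h2 : Real.exp (3 * c.W) * ‖lin c.lg c.b‖ ≤ 1 := by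
    refine (mul_le_mul_of_nonneg_left h.small (Real.exp_pos _).le).trans ?_
    rw [← Real.exp_add, Real.exp_le_one_iff]
    linarith [h.UW]
  have h3 := hg.norm_lin_le h hl
  have h4 := two_le h
  have h5 : Real.exp c.W + 1 ≤ Real.exp (2 * c.W) := by
    rw [two_mul, Real.exp_add]; nlinarith
  have h6 : ‖w c lam‖ ≤ Real.exp (2 * c.W) := by
    have := norm_sub_le (lin c.lg lam) (lin c.lg lam - w c lam)
    rw [sub_sub_cancel] at this
    linarith
  refine (pow_sub (M := Real.exp (2 * c.W)) (by linarith) (by linarith) h6 n).trans ?_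
  have h7 : (n : ℝ) ≤ Real.exp c.W := le_trans (by exact_mod_cast hn) h.TW
  have h8 : Real.exp (2 * c.W) ^ n ≤ Real.exp (2 * c.W * c.T) := by
    rw [mul_comm _ (c.T : ℝ), Real.exp_nat_mul]
    exact pow_le_pow_right₀ (by linarith) hn
  gcongr

theorem fact_le (h : c.OK) {n : ℕ} (hn : n ≤ c.T) :
    ‖(n.factorial : K)⁻¹‖ ≤ Real.exp (c.W * c.T) := by
  have h1 := h.base.norm_inv_le (a := (n.factorial : ℤ)) (by exact_mod_cast n.factorial_ne_zero)
  rw [Int.cast_natCast, Int.cast_natCast, Nat.abs_cast] at h1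
  refine h1.trans (le_trans ?_
    (pow_le h (Nat.cast_nonneg n) (le_trans (by exact_mod_cast hn) h.TW) hn))
  exact_mod_cast Nat.factorial_le_pow n

theorem van (h : c.OK) (hg : c.Good k st) {T' x : ℕ}
    (hv : ∀ t : ι → ℕ, ∑ i, t i ≤ T' → c.Phi st t x = 0) (t : ι → ℕ) (a e : ℕ)
    (ht : ∑ i, t i + a + e ≤ T') :
    ∑ i ∈ st.Ls ×ˢ range (c.L0 + 1),
      ((st.P i.1 i.2 : K) * (i.2.choose (t c.i0) : K) * (c.mon t i.1 : K)) *
        (((i.2 - t c.i0).choose a : K) * (x : K) ^ (i.2 - t c.i0 - a) *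
          (w c i.1 ^ e / (e.factorial : K)) * ex (lin c.lg i.1 * x)) = 0 := by
  have h1 := van_lin (F := K) c.i0 (st.Ls ×ˢ range (c.L0 + 1))
    (fun i t0 => (st.P i.1 i.2 : K) * (i.2.choose t0 : K) * (x : K) ^ (i.2 - t0) *
      ex (lin c.lg i.1 * x)) (fun i i' => (c.mu i.1 i' : K))
    (fun i _ => by rw [Ctx.mu_i0, Int.cast_zero]) T' (fun t ht => by
      have h2 := hg.Fn_nat h t x
      rw [hv t ht, Rat.cast_zero] at h2
      rw [← h2, Ctx.Fn, sum_product]
      refine sum_congr rfl fun lam _ => sum_congr rfl fun l _ => ?_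
      simp only [Ctx.mon]
      push_cast
      ring) t a e (fun i => c.lg i / (c.b c.i0 : K)) ht
  rw [← mul_zero (((t c.i0 + a).choose (t c.i0) : K) / (e.factorial : K)), ← h1, mul_sum]
  refine sum_congr rfl fun i _ => ?_
  have h3 : (i.2.choose (t c.i0 + a) : K) * ((t c.i0 + a).choose (t c.i0) : K) =
      (i.2.choose (t c.i0) : K) * ((i.2 - t c.i0).choose a : K) := by
    have := Nat.choose_mul (n := i.2) (Nat.le_add_right (t c.i0) a)
    rw [Nat.add_sub_cancel_left] at this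
    exact_mod_cast this
  simp only [Ctx.mon, w, Nat.sub_sub]
  push_cast
  linear_combination (-((st.P i.1 i.2 : K) * (∏ i' ∈ univ.erase c.i0, (c.mu i.1 i' : K) ^ t i') *
    (x : K) ^ (i.2 - (t c.i0 + a)) * ((∑ i', c.lg i' / (c.b c.i0 : K) * (c.mu i.1 i' : K)) ^ e /
      (e.factorial : K)) * ex (lin c.lg i.1 * x))) * h3

end TaylorA

open TaylorA in
/-- The Taylor coefficients of the auxiliary function at the known zeros are small. -/
theorem taylor_small {ι K : Type} [Fintype ι] [DecidableEq ι] [NormedField K] [CharZero K]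
    [CompleteSpace K] (c : Ctx ι K) (h : c.OK) {k : ℕ} (hk : k ≤ c.Kl) (st : St ι)
    (hg : c.Good k st) (T' : ℕ) (hT : T' ≤ c.T) (x : ℕ) (hx : (x : ℝ) ≤ Real.exp c.W)
    (hv : ∀ t : ι → ℕ, ∑ i, t i ≤ T' → c.Phi st t x = 0) (t : ι → ℕ) (j : ℕ)
    (hj : ∑ i, t i + j < T') :
    ‖∑ i ∈ st.Ls ×ˢ range (c.L0 + 1),
      ((st.P i.1 i.2 : K) * (i.2.choose (t c.i0) : K) * (c.mon t i.1 : K)) *
        ∑ ab ∈ antidiagonal j, ((i.2 - t c.i0).choose ab.1 : K) * (x : K) ^ (i.2 - t c.i0 - ab.1) *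
          (lin c.lg i.1 ^ ab.2 / (ab.2.factorial : K)) * ex (lin c.lg i.1 * x)‖ ≤
      Real.exp (c.Y + x * c.H k) * ‖lin c.lg c.b‖ := by
  have h0 : ∑ i ∈ st.Ls ×ˢ range (c.L0 + 1),
      ((st.P i.1 i.2 : K) * (i.2.choose (t c.i0) : K) * (c.mon t i.1 : K)) *
        ∑ ab ∈ antidiagonal j, ((i.2 - t c.i0).choose ab.1 : K) * (x : K) ^ (i.2 - t c.i0 - ab.1) *
          (w c i.1 ^ ab.2 / (ab.2.factorial : K)) * ex (lin c.lg i.1 * x) = 0 := by
    simp only [mul_sum]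
    rw [sum_comm]
    refine sum_eq_zero fun ab hab => van h hg hv t ab.1 ab.2 ?_
    have := mem_antidiagonal.1 hab
    omega
  rw [← sub_zero (∑ i ∈ st.Ls ×ˢ range (c.L0 + 1), _), ← h0, ← sum_sub_distrib]
  set M : ℝ := Real.exp (c.W * c.L0) * Real.exp (c.W * c.L0) *
    (Real.exp c.W * Real.exp (2 * c.W * c.T) * (Real.exp (3 * c.W) * ‖lin c.lg c.b‖) *
      Real.exp (c.W * c.T)) * Real.exp (x * c.H k) with hM
  have h1 : ∀ i ∈ st.Ls ×ˢ range (c.L0 + 1),
      ‖((st.P i.1 i.2 : K) * (i.2.choose (t c.i0) : K) * (c.mon t i.1 : K)) *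
        ∑ ab ∈ antidiagonal j, ((i.2 - t c.i0).choose ab.1 : K) * (x : K) ^ (i.2 - t c.i0 - ab.1) *
          (lin c.lg i.1 ^ ab.2 / (ab.2.factorial : K)) * ex (lin c.lg i.1 * x) -
      ((st.P i.1 i.2 : K) * (i.2.choose (t c.i0) : K) * (c.mon t i.1 : K)) *
        ∑ ab ∈ antidiagonal j, ((i.2 - t c.i0).choose ab.1 : K) * (x : K) ^ (i.2 - t c.i0 - ab.1) *
          (w c i.1 ^ ab.2 / (ab.2.factorial : K)) * ex (lin c.lg i.1 * x)‖ ≤
      |(st.P i.1 i.2 : ℝ)| * (Real.exp (c.W * c.L0) * Real.exp (3 * c.W * c.T) *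
        (Real.exp c.W * M)) := by
    intro i hi
    obtain ⟨hl, hr⟩ := mem_product.1 hi
    have hr' : i.2 ≤ c.L0 := Nat.lt_succ_iff.1 (mem_range.1 hr)
    rw [← mul_sub, ← sum_sub_distrib, norm_mul, norm_mul, norm_mul, mul_assoc, mul_assoc,
      mul_assoc]
    have a1 := h.base.norm_le (st.P i.1 i.2)
    have a2 := choose_le h hr' (t c.i0)
    have a3 := (h.base.norm_le (c.mon t i.1)).trans
      (h.mon_le (hg.abs_le_exp h hl) (t := t) (by omega))
    gcongr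
    refine (norm_sum_le _ _).trans ((sum_le_card_nsmul _ _ M fun ab hab => ?_).trans ?_)
    · have hb : ab.2 ≤ c.T := by
        have := mem_antidiagonal.1 hab
        omega
      rw [← sub_mul, ← mul_sub, ← sub_div, div_eq_mul_inv, norm_mul, norm_mul, norm_mul, norm_mul,
        norm_pow, hM]
      have b1 := choose_le h (l := i.2 - t c.i0) (by omega) ab.1
      have b2 : ‖(x : K)‖ ^ (i.2 - t c.i0 - ab.1) ≤ Real.exp (c.W * c.L0) :=
        pow_le h (norm_nonneg _) ((h.base.norm_nat_le x).trans hx) (by omega)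
      have b3 := pow_diff_le h hg hl hb
      have b4 := fact_le h hb
      have b5 := hg.norm_ex_le h hl x
      gcongr
    · rw [Nat.card_antidiagonal, nsmul_eq_mul]
      refine mul_le_mul_of_nonneg_right (le_trans ?_ h.TW) (by positivity)
      exact_mod_cast (by omega : j + 1 ≤ c.T)
  refine (norm_sum_le _ _).trans ((sum_le_sum h1).trans ?_)
  rw [← sum_mul, sum_product (f := fun i : (ι → ℤ) × ℕ => |(st.P i.1 i.2 : ℝ)|)]
  refine (mul_le_mul_of_nonneg_right (hg.size_le h hk) (by positivity)).trans ?_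
  have e : Real.exp c.Y0 * (Real.exp (c.W * c.L0) * Real.exp (3 * c.W * c.T) * (Real.exp c.W * M)) =
      Real.exp (c.Y0 + c.W * c.L0 + 3 * c.W * c.T + c.W + c.W * c.L0 + c.W * c.L0 + c.W +
        2 * c.W * c.T + 3 * c.W + c.W * c.T + x * c.H k) * ‖lin c.lg c.b‖ := by
    simp only [hM, Real.exp_add]
    ring
  rw [e]
  refine mul_le_mul_of_nonneg_right (Real.exp_le_exp.2 ?_) (norm_nonneg _)
  have hW : 0 ≤ c.W := by linarith [h.W2]
  have hT1 : (1 : ℝ) ≤ c.T := by exact_mod_cast (by omega : 1 ≤ c.T)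
  have hL : 0 ≤ c.W * c.L0 := by positivity
  have := mul_le_mul_of_nonneg_left hT1 hW
  unfold Ctx.Y
  nlinarith

end LFL
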