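import Pool.Agent.P.MP_7aad9f_nt.LFL.Taylor
import Pool.Agent.P.MP_7aad9f_nt.LFL.ExpPoly
import Pool.Agent.P.MP_7aad9f_nt.LFL.Count

set_option autoImplicit false

namespace LFL
open Finset

theorem upper_coef {ι K : Type} [Fintype ι] [DecidableEq ι] [NormedField K] [CharZero K]
    [CompleteSpace K] (c : Ctx ι K) (h : c.OK) {k : ℕ} (hk : k ≤ c.Kl) (st : St ι)
    (hg : c.Good k st) (t : ι → ℕ) (ht : ∑ i, t i ≤ c.T) (ρ : ℝ) (hρ0 : 0 ≤ ρ)
    (hρ : ρ ≤ Real.exp c.W) :
    ∑ i ∈ st.Ls ×ˢ range (c.L0 + 1),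
      ‖(st.P i.1 i.2 : K) * (i.2.choose (t c.i0) : K) * (c.mon t i.1 : K)‖ *
        ρ ^ (i.2 - t c.i0) ≤ Real.exp c.Y := by
  have hW := h.W2
  have hW0 : 0 ≤ c.W := by linarith
  have he1 : (1 : ℝ) ≤ Real.exp c.W := Real.one_le_exp hW0
  have he2 : (2 : ℝ) ≤ Real.exp c.W := by
    have := Real.add_one_le_exp c.W
    linarith
  set M : ℝ := Real.exp (c.W * c.L0) * Real.exp (3 * c.W * c.T) * Real.exp (c.W * c.L0) with hM
  have hpow : Real.exp c.W ^ c.L0 = Real.exp (c.W * c.L0) := by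
    rw [← Real.exp_nat_mul, mul_comm]
  have key : ∀ i ∈ st.Ls ×ˢ range (c.L0 + 1),
      ‖(st.P i.1 i.2 : K) * (i.2.choose (t c.i0) : K) * (c.mon t i.1 : K)‖ *
        ρ ^ (i.2 - t c.i0) ≤ |(st.P i.1 i.2 : ℝ)| * M := by
    intro i hi
    obtain ⟨h1, h2⟩ := mem_product.1 hi
    have h2' : i.2 ≤ c.L0 := Nat.lt_succ_iff.1 (mem_range.1 h2)
    have a1 : ‖(st.P i.1 i.2 : K)‖ ≤ |(st.P i.1 i.2 : ℝ)| := h.base.norm_le _
    have a2 : ‖(i.2.choose (t c.i0) : K)‖ ≤ Real.exp (c.W * c.L0) := by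
      refine (h.base.norm_nat_le _).trans ?_
      have b1 : i.2.choose (t c.i0) ≤ 2 ^ i.2 := Nat.choose_le_two_pow _ _
      have b2 : (2 : ℕ) ^ i.2 ≤ 2 ^ c.L0 := Nat.pow_le_pow_right (by norm_num) h2'
      have b3 : ((i.2.choose (t c.i0) : ℕ) : ℝ) ≤ (2 : ℝ) ^ c.L0 := by
        exact_mod_cast b1.trans b2
      rw [← hpow]
      exact b3.trans (pow_le_pow_left₀ (by norm_num) he2 _)
    have a3 : ‖(c.mon t i.1 : K)‖ ≤ Real.exp (3 * c.W * c.T) :=
      (h.base.norm_le _).trans (h.mon_le (fun j => hg.abs_le_exp h h1 j) ht)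
    have a4 : ρ ^ (i.2 - t c.i0) ≤ Real.exp (c.W * c.L0) := by
      rw [← hpow]
      exact (pow_le_pow_left₀ hρ0 hρ _).trans (pow_le_pow_right₀ he1 (by omega))
    rw [norm_mul, norm_mul, hM]
    have : ‖(st.P i.1 i.2 : K)‖ * ‖(i.2.choose (t c.i0) : K)‖ * ‖(c.mon t i.1 : K)‖ *
        ρ ^ (i.2 - t c.i0) ≤ |(st.P i.1 i.2 : ℝ)| * Real.exp (c.W * c.L0) *
          Real.exp (3 * c.W * c.T) * Real.exp (c.W * c.L0) := by
      gcongr
    calc _ ≤ _ := this
      _ = _ := by ring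
  refine (sum_le_sum key).trans ?_
  rw [← sum_mul, sum_product]
  have hs := hg.size_le h hk
  have hM0 : 0 ≤ M := by positivity
  refine (mul_le_mul_of_nonneg_right hs hM0).trans ?_
  rw [hM, ← Real.exp_add, ← Real.exp_add, ← Real.exp_add]
  apply Real.exp_le_exp.2
  unfold Ctx.Y
  have p1 : (0 : ℝ) ≤ c.W * c.L0 := by positivity
  have p2 : (0 : ℝ) ≤ c.W * c.T := by positivity
  nlinarith

theorem upper_sep {K : Type} [NormedField K] [CharZero K] {q : ℕ} (hb : Base K q) (S : ℕ)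
    (hS : 1 ≤ S) {x y : ℕ} (hx : x ≤ S) (hy : y ≤ S) (hxy : x ≠ y) :
    1 / (S : ℝ) ≤ ‖(x : K) - (y : K)‖ := by
  have hne : ((x : ℤ) - y) ≠ 0 := by omega
  have h1 := hb.norm_ge _ hne
  have h2 : |((((x : ℤ) - y : ℤ)) : ℝ)| ≤ S := by
    have : |(x : ℤ) - y| ≤ S := by
      rw [abs_le]
      constructor <;> omega
    exact_mod_cast this
  have h3 : ((((x : ℤ) - y : ℤ)) : K) = (x : K) - (y : K) := by push_cast; rfl
  rw [h3] at h1
  have hS0 : (0 : ℝ) < S := by exact_mod_cast hS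
  rw [div_le_iff₀ hS0]
  exact h1.trans (mul_le_mul_of_nonneg_left h2 (norm_nonneg _))

/-- Extrapolation: upper bound for the auxiliary function at `s / q`. -/
theorem upper {ι K : Type} [Fintype ι] [DecidableEq ι] [NormedField K] [CharZero K]
    [CompleteSpace K] (c : Ctx ι K) (h : c.OK) {k : ℕ} (hk : k ≤ c.Kl) (st : St ι)
    (hg : c.Good k st) (T' S' τ : ℕ) (hT : T' ≤ c.T) (hS1 : 1 ≤ S')
    (hSW : 3 * Real.exp c.g * S' ≤ Real.exp c.W) (hv : c.Van st T' S') (t : ι → ℕ)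
    (ht : ∑ i, t i + τ ≤ T') (s : ℕ) (hs : s ≤ 2 * c.q * S') :
    ‖c.Fn st t ((s : K) / c.q)‖ ≤
      Real.exp (c.Y + 3 * S' * c.H k + 1 - c.g * S' * τ / 2) +
      Real.exp (c.Y + S' * c.H k + 4 * c.W * S' * τ - c.U) := by
  classical
  obtain ⟨r, ρ, D, hr0, hρ, hρ3, hD1, hD2, hDρ, hnode, hpt, hsum⟩ := h.iface k S' hS1
  have hW := h.W2
  have hW0 : 0 ≤ c.W := by linarith
  have hS0 : (1 : ℝ) ≤ S' := by exact_mod_cast hS1
  have heg : (1 : ℝ) ≤ Real.exp c.g := Real.one_le_exp h.g0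
  have hS3 : 3 * (S' : ℝ) ≤ Real.exp c.W := by nlinarith
  have hH := h.H_nonneg k
  set X0 : Finset ℕ := (Icc 1 S').filter fun x => ¬ c.q ∣ x with hX0
  set X : Finset K := X0.image fun x : ℕ => (x : K) with hX
  have hcard : X.card = X0.card := card_image_of_injective _ Nat.cast_injective
  have hc1 : S' ≤ 2 * X.card := by
    rw [hcard]
    exact card_nodes h.base.prime.two_le S'
  have hc2 : X.card ≤ S' := by
    rw [hcard]
    refine (card_filter_le _ _).trans ?_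
    simp
  have hmem : ∀ x ∈ X, ∃ y : ℕ, 1 ≤ y ∧ y ≤ S' ∧ ¬ c.q ∣ y ∧ x = (y : K) := by
    intro x hx
    obtain ⟨y, hy, rfl⟩ := mem_image.1 hx
    obtain ⟨hy1, hy2⟩ := mem_filter.1 hy
    exact ⟨y, (mem_Icc.1 hy1).1, (mem_Icc.1 hy1).2, hy2, rfl⟩
  have main := exp_poly_schwarz (st.Ls ×ˢ range (c.L0 + 1))
    (fun i => (st.P i.1 i.2 : K) * (i.2.choose (t c.i0) : K) * (c.mon t i.1 : K))
    (fun i => i.2 - t c.i0) (fun i => lin c.lg i.1) X τ r ρ (1 / S') D
    (Real.exp (3 * S' * c.H k + 1)) (Real.exp (c.Y + S' * c.H k) * Real.exp (-c.U))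
    ((s : K) / c.q) hr0 hρ (by positivity)
    (by
      rw [div_le_iff₀ (by positivity)]
      linarith)
    (by positivity) hD1
    (by
      intro x hx
      obtain ⟨y, -, h2, -, rfl⟩ := hmem x hx
      exact hnode y h2)
    (by
      intro x hx y hy hxy
      obtain ⟨x', -, h2, -, rfl⟩ := hmem x hx
      obtain ⟨y', -, h3, -, rfl⟩ := hmem y hy
      exact upper_sep h.base S' hS1 h2 h3 (fun e => hxy (by rw [e])))
    (by
      intro i hi
      exact hsum _ (hg.norm_lin (mem_product.1 hi).1))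
    (by
      intro x hx j hj
      obtain ⟨y, h1, h2, h3, rfl⟩ := hmem x hx
      have h2' : (y : ℝ) ≤ S' := by exact_mod_cast h2
      have := taylor_small c h hk st hg T' hT y (by linarith) (hv y h1 h2 h3) t j (by omega)
      refine this.trans ?_
      apply mul_le_mul _ h.small (norm_nonneg _) (by positivity)
      apply Real.exp_le_exp.2
      nlinarith)
    (hpt s hs).1
    (by
      intro x hx
      obtain ⟨y, -, h2, -, rfl⟩ := hmem x hx
      exact (hpt s hs).2 y h2)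
  have hFn : c.Fn st t ((s : K) / c.q) = ∑ i ∈ st.Ls ×ˢ range (c.L0 + 1),
      ((st.P i.1 i.2 : K) * (i.2.choose (t c.i0) : K) * (c.mon t i.1 : K)) *
        ((s : K) / c.q) ^ (i.2 - t c.i0) * ex (lin c.lg i.1 * ((s : K) / c.q)) := by
    rw [sum_product]
    unfold Ctx.Fn
    refine sum_congr rfl fun lam _ => sum_congr rfl fun l _ => ?_
    ring
  rw [hFn]
  refine main.trans (add_le_add ?_ ?_)
  · have a1 := upper_coef c h hk st hg t (by omega) ρ (by linarith) (hρ3.trans hSW)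
    have hN : (S' : ℝ) * τ / 2 ≤ ((X.card * τ : ℕ) : ℝ) := by
      have : (S' : ℝ) ≤ 2 * X.card := by exact_mod_cast hc1
      push_cast
      have hτ : (0 : ℝ) ≤ τ := by positivity
      nlinarith
    have a2 : (D / (ρ - r)) ^ (X.card * τ) ≤ Real.exp (-(c.g * S' * τ / 2)) := by
      have b0 : 0 ≤ D / (ρ - r) := div_nonneg (by linarith) (by linarith)
      refine (pow_le_pow_left₀ b0 hDρ _).trans ?_
      rw [← Real.exp_nat_mul]
      apply Real.exp_le_exp.2
      have := h.g0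
      nlinarith
    have b0 : 0 ≤ (D / (ρ - r)) ^ (X.card * τ) :=
      pow_nonneg (div_nonneg (by linarith) (by linarith)) _
    calc _ ≤ Real.exp c.Y * Real.exp (3 * S' * c.H k + 1) * Real.exp (-(c.g * S' * τ / 2)) := by
          gcongr
      _ = _ := by
          rw [← Real.exp_add, ← Real.exp_add]
          congr 1
          ring
  · set N : ℕ := X.card * τ with hN
    have hN2 : (N : ℝ) ≤ S' * τ := by
      have : N ≤ S' * τ := Nat.mul_le_mul_right _ hc2
      exact_mod_cast this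
    have hN0 : (0 : ℝ) ≤ N := by positivity
    have a1 : (N : ℝ) ≤ Real.exp (c.W * N) := by
      have := Real.add_one_le_exp (c.W * N)
      nlinarith
    have a2 : 2 * D / (1 / S') ≤ Real.exp (3 * c.W) := by
      have e1 : 2 * D / (1 / (S' : ℝ)) = 2 * D * S' := by field_simp
      have e2 : Real.exp (3 * c.W) = Real.exp c.W * Real.exp c.W * Real.exp c.W := by
        rw [← Real.exp_add, ← Real.exp_add]
        congr 1
        ring
      have he1 : (1 : ℝ) ≤ Real.exp c.W := Real.one_le_exp hW0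
      rw [e1, e2]
      have e3 : 2 * D * S' ≤ 4 * S' * S' := by nlinarith
      have e4 : (3 * S' : ℝ) * (3 * S') ≤ Real.exp c.W * Real.exp c.W := by gcongr
      have e5 : Real.exp c.W * Real.exp c.W ≤ Real.exp c.W * Real.exp c.W * Real.exp c.W :=
        le_mul_of_one_le_right (by positivity) he1
      nlinarith
    have a3 : (2 * D / (1 / S')) ^ N ≤ Real.exp (3 * c.W * N) := by
      have b0 : 0 ≤ 2 * D / (1 / (S' : ℝ)) := by
        have : 0 ≤ D := by linarith
        positivity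
      refine (pow_le_pow_left₀ b0 a2 _).trans ?_
      rw [← Real.exp_nat_mul, mul_comm]
    have b0 : 0 ≤ (2 * D / (1 / (S' : ℝ))) ^ N := by
      have : 0 ≤ D := by linarith
      positivity
    calc _ ≤ Real.exp (c.W * N) * Real.exp (3 * c.W * N) *
          (Real.exp (c.Y + S' * c.H k) * Real.exp (-c.U)) := by
          gcongr
      _ ≤ _ := by
          rw [← Real.exp_add, ← Real.exp_add, ← Real.exp_add]
          apply Real.exp_le_exp.2
          have : c.W * N ≤ c.W * (S' * τ) := mul_le_mul_of_nonneg_left hN2 hW0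
          nlinarith

end LFL
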